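import Pool.Agent.TS.Main

/-! The time-space trade-off in two forms. -/

namespace Pool.Agent.TS

open Finset

/-- the lower bound with explicit parameters -/
theorem lower {k N : ℕ} (hk : 2 ≤ k) (hN : k ^ (20000 * k) ≤ N) :
    ∃ H : Finset (Fin N → Bool), H.Nonempty ∧ (∀ y ∈ H, lang (List.ofFn y)) ∧
    ∀ {G s : ℕ}, s ≤ N / k ^ (20000 * k) →
    ∀ {Q R : Type} [Fintype Q] [Fintype R] (M : Machine (Fin N ⊕ Fin G) Q R),
    (∀ y z t, M.AcceptsIn (Sum.elim y z) t → lang (List.ofFn y)) →
    H.card * 2 ^ G ≤ 2 ^ s * Nat.card {p : (Fin N → Bool) × (Fin G → Bool) //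
      p.1 ∈ H ∧ ∃ t ≤ k * N, M.AcceptsIn (Sum.elim p.1 p.2) t} →
    2 ^ s ≤ Fintype.card Q * Fintype.card R := by
  have h1 := jj_le_pow hk
  obtain ⟨H, h2, h3, h4⟩ := main hk (h1.trans hN)
  refine ⟨H, h2, h3, fun {G s} hs {Q R} _ _ M hM hc => h4 ?_ M hM hc⟩
  calc s * 2 ^ (12 * jj k) ≤ (N / k ^ (20000 * k)) * k ^ (20000 * k) := Nat.mul_le_mul hs h1
    _ ≤ N := Nat.div_mul_le_self _ _

/-- a machine without random bits -/
def Machine.lift {I G Q R : Type} (M : Machine I Q R) : Machine (I ⊕ G) Q R where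
  code q := match M.code q with
    | .ret v => .ret v
    | .read i k => .read (Sum.inl i) k
    | .call p k => .call p k
  start := M.start
  acc := M.acc

lemma Machine.lift_runs {I G Q R : Type} (M : Machine I Q R) (y : I → Bool) (z : G → Bool)
    (q : Q) (v : R) (t : ℕ) :
    (M.lift (G := G)).Runs (Sum.elim y z) q v t ↔ M.Runs y q v t := by
  constructor
  · intro h
    induction h with
    | @ret q v hc =>
      apply Machine.Runs.ret
      simp only [Machine.lift] at hc
      cases h0 : M.code q with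
      | ret v' => rw [h0] at hc; simpa using hc
      | read i k => rw [h0] at hc; simp at hc
      | call p k => rw [h0] at hc; simp at hc
    | @read q i k v t hc _ ih =>
      simp only [Machine.lift] at hc
      cases h0 : M.code q with
      | ret v' => rw [h0] at hc; simp at hc
      | read i' k' =>
        rw [h0] at hc
        simp only [Instr.read.injEq] at hc
        obtain ⟨rfl, rfl⟩ := hc
        exact Machine.Runs.read h0 ih
      | call p k' => rw [h0] at hc; simp at hc
    | @call q p k u v t t' hc _ _ ih1 ih2 =>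
      simp only [Machine.lift] at hc
      cases h0 : M.code q with
      | ret v' => rw [h0] at hc; simp at hc
      | read i' k' => rw [h0] at hc; simp at hc
      | call p' k' =>
        rw [h0] at hc
        simp only [Instr.call.injEq] at hc
        obtain ⟨rfl, rfl⟩ := hc
        exact Machine.Runs.call h0 ih1 ih2
  · intro h
    induction h with
    | @ret q v hc =>
      apply Machine.Runs.ret
      simp only [Machine.lift, hc]
    | @read q i k v t hc _ ih =>
      refine Machine.Runs.read (i := Sum.inl i) (k := k) ?_ ih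
      simp only [Machine.lift, hc]
    | @call q p k u v t t' hc _ _ ih1 ih2 =>
      refine Machine.Runs.call (p := p) (k := k) ?_ ih1 ih2
      simp only [Machine.lift, hc]

lemma Machine.lift_accepts {I G Q R : Type} (M : Machine I Q R) (y : I → Bool) (z : G → Bool)
    (t : ℕ) : (M.lift (G := G)).AcceptsIn (Sum.elim y z) t ↔ M.AcceptsIn y t := by
  unfold Machine.AcceptsIn
  simp only [M.lift_runs y z]
  exact Iff.rfl

/-- the lower bound for machines that accept every word of the language with a not too small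
probability -/
theorem lower_rand {k N G s : ℕ} (hk : 2 ≤ k) (hN : k ^ (20000 * k) ≤ N)
    (hs : s ≤ N / k ^ (20000 * k)) {Q R : Type} [Fintype Q]
    [Fintype R] (M : Machine (Fin N ⊕ Fin G) Q R)
    (hM : ∀ y z t, M.AcceptsIn (Sum.elim y z) t → lang (List.ofFn y))
    (hc : ∀ y : Fin N → Bool, lang (List.ofFn y) → 2 ^ G ≤ 2 ^ s * Nat.card {z : Fin G → Bool //
      ∃ t ≤ k * N, M.AcceptsIn (Sum.elim y z) t}) :
    2 ^ s ≤ Fintype.card Q * Fintype.card R := by
  classical
  obtain ⟨H, h2, h3, h4⟩ := lower hk hN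
  refine h4 hs M hM ?_
  have h5 : Nat.card {p : (Fin N → Bool) × (Fin G → Bool) //
      p.1 ∈ H ∧ ∃ t ≤ k * N, M.AcceptsIn (Sum.elim p.1 p.2) t} =
      ∑ y ∈ H, Nat.card {z : Fin G → Bool // ∃ t ≤ k * N, M.AcceptsIn (Sum.elim y z) t} := by
    rw [Nat.card_eq_fintype_card, Fintype.card_subtype]
    have e : (univ.filter (fun p : (Fin N → Bool) × (Fin G → Bool) =>
        p.1 ∈ H ∧ ∃ t ≤ k * N, M.AcceptsIn (Sum.elim p.1 p.2) t)).card =
        (H.sigma (fun y => univ.filter (fun z : Fin G → Bool =>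
          ∃ t ≤ k * N, M.AcceptsIn (Sum.elim y z) t))).card := by
      refine card_bij (fun p _ => ⟨p.1, p.2⟩) ?_ ?_ ?_
      · intro p hp
        obtain ⟨h1, h2⟩ := (mem_filter.1 hp).2
        exact mem_sigma.2 ⟨h1, mem_filter.2 ⟨mem_univ _, h2⟩⟩
      · intro p _ p' _ h
        simp only [Sigma.mk.injEq, heq_eq_eq] at h
        exact Prod.ext h.1 h.2
      · intro q hq
        obtain ⟨h1, h2⟩ := mem_sigma.1 hq
        exact ⟨(q.1, q.2), mem_filter.2 ⟨mem_univ _, h1, (mem_filter.1 h2).2⟩, rfl⟩
    rw [e, card_sigma]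
    refine sum_congr rfl fun y _ => ?_
    rw [Nat.card_eq_fintype_card, Fintype.card_subtype]
  rw [h5, mul_sum, ← smul_eq_mul, ← sum_const]
  exact sum_le_sum fun y hy => hc y (h3 y hy)

/-- The time-space trade-off: space `S`, time `T` imply `T ≥ c N log (N / S) / log log (N / S)`. -/
theorem tradeoff : ∃ c : ℝ, 0 < c ∧ ∃ x0 : ℕ, ∀ N S T G : ℕ, 1 ≤ S → x0 * S ≤ N →
    ∀ (Q R : Type) [Fintype Q] [Fintype R] (M : Machine (Fin N ⊕ Fin G) Q R),
    Fintype.card Q * Fintype.card R ≤ 2 ^ S →
    (∀ y z t, M.AcceptsIn (Sum.elim y z) t → lang (List.ofFn y)) →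
    (∀ y : Fin N → Bool, lang (List.ofFn y) → 2 ^ G ≤ 2 ^ S * Nat.card {z : Fin G → Bool //
      ∃ t ≤ T, M.AcceptsIn (Sum.elim y z) t}) →
    c * N * (Real.log (N / S) / Real.log (Real.log (N / S))) ≤ T := by
  set C : ℝ := 20000 with hC
  refine ⟨1 / (4 * C), by rw [hC]; norm_num, ⌈Real.exp (256 * C ^ 2)⌉₊, ?_⟩
  intro N S T G hS hN Q R _ _ M hQR hs hc
  by_contra hcon
  push Not at hcon
  have hS' : (0 : ℝ) < S := by exact_mod_cast hS
  set x : ℝ := (N : ℝ) / S with hx
  have hx0 : Real.exp (256 * C ^ 2) ≤ x := by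
    rw [hx, le_div_iff₀ hS']
    have h1 : Real.exp (256 * C ^ 2) ≤ (⌈Real.exp (256 * C ^ 2)⌉₊ : ℝ) := Nat.le_ceil _
    have h2 : ((⌈Real.exp (256 * C ^ 2)⌉₊ : ℝ)) * S ≤ N := by exact_mod_cast hN
    calc Real.exp (256 * C ^ 2) * S ≤ (⌈Real.exp (256 * C ^ 2)⌉₊ : ℝ) * S :=
          mul_le_mul_of_nonneg_right h1 hS'.le
      _ ≤ N := h2
  have hxpos : 0 < x := lt_of_lt_of_le (Real.exp_pos _) hx0
  have hNpos : (0 : ℝ) < N := by
    have : x * S = N := by rw [hx]; field_simp
    rw [← this]; positivity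
  set u := Real.log x with hu
  have hu0 : 256 * C ^ 2 ≤ u := by
    rw [hu, Real.le_log_iff_exp_le hxpos]
    exact hx0
  have hC0 : (0 : ℝ) < C := by rw [hC]; norm_num
  have hupos : 0 < u := lt_of_lt_of_le (by positivity) hu0
  have hu1 : 256 ≤ u := by
    have : (256 : ℝ) ≤ 256 * C ^ 2 := by rw [hC]; norm_num
    linarith
  have hlu : 1 < Real.log u := by
    rw [Real.lt_log_iff_exp_lt hupos]
    have := Real.exp_one_lt_d9
    linarith
  -- u / log u is large
  have hsq : 16 * C ≤ Real.sqrt u := by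
    apply Real.le_sqrt_of_sq_le
    calc (16 * C) ^ 2 = 256 * C ^ 2 := by ring
      _ ≤ u := hu0
  have hlog : Real.log u ≤ 2 * Real.sqrt u := by
    have h1 : Real.log u = 2 * Real.log (Real.sqrt u) := by
      rw [Real.log_sqrt hupos.le]; ring
    rw [h1]
    have := Real.log_le_self (Real.sqrt_nonneg u)
    linarith
  set v := u / Real.log u with hv
  have hvbig : 8 * C ≤ v := by
    rw [hv, le_div_iff₀ (by linarith)]
    calc 8 * C * Real.log u ≤ 8 * C * (2 * Real.sqrt u) := by gcongr
      _ = 16 * C * Real.sqrt u := by ring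
      _ ≤ Real.sqrt u * Real.sqrt u := by gcongr
      _ = u := Real.mul_self_sqrt hupos.le
  set k := ⌈v / (4 * C)⌉₊ with hk
  have hk1 : v / (4 * C) ≤ k := Nat.le_ceil _
  have hk2 : (k : ℝ) ≤ v / (2 * C) := by
    have h1 : (k : ℝ) < v / (4 * C) + 1 := Nat.ceil_lt_add_one (by positivity)
    have h2 : 1 ≤ v / (4 * C) := by
      rw [le_div_iff₀ (by positivity)]; linarith
    have h3 : v / (2 * C) = v / (4 * C) + v / (4 * C) := by field_simp; ring
    linarith
  have hk3 : 2 ≤ k := by
    have h2 : 2 ≤ v / (4 * C) := by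
      rw [le_div_iff₀ (by positivity)]; linarith
    have : (2 : ℝ) ≤ k := h2.trans hk1
    exact_mod_cast this
  have hkpos : (0 : ℝ) < k := by
    have : 0 < k := by omega
    exact_mod_cast this
  -- k ^ (C k) is small
  have hpow : 2 * (k : ℝ) ^ (20000 * k) ≤ x := by
    have h1 : Real.log (k : ℝ) ≤ Real.log u := by
      apply Real.log_le_log hkpos
      have h2 : v ≤ u := div_le_self hupos.le hlu.le
      have h3 : v / (2 * C) ≤ v := div_le_self (by linarith [hvbig]) (by rw [hC]; norm_num)
      linarith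
    have h2 : (20000 * k : ℝ) * Real.log k ≤ u / 2 := by
      calc (20000 * k : ℝ) * Real.log k ≤ (20000 * (v / (2 * C))) * Real.log u := by
            apply mul_le_mul _ h1 (Real.log_nonneg (by
              have : 1 ≤ k := by omega
              exact_mod_cast this)) (by positivity)
            gcongr
        _ = u / 2 := by
            rw [hv, hC]
            have : Real.log u ≠ 0 := by linarith
            field_simp
    have h3 : Real.log (2 * (k : ℝ) ^ (20000 * k)) ≤ Real.log x := by
      rw [Real.log_mul (by norm_num) (by positivity), Real.log_pow]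
      push_cast
      have : Real.log 2 ≤ 1 := by
        have := Real.log_two_lt_d9
        linarith
      linarith
    exact (Real.log_le_log_iff (by positivity) hxpos).1 h3
  have hkN : k ^ (20000 * k) ≤ N := by
    have : ((k ^ (20000 * k) : ℕ) : ℝ) ≤ N := by
      push_cast
      have h1 : x ≤ N := by
        rw [hx]
        apply div_le_self hNpos.le
        exact_mod_cast hS
      have h2 : (0 : ℝ) ≤ (k : ℝ) ^ (20000 * k) := by positivity
      linarith
    exact_mod_cast this
  have hSk : S < N / k ^ (20000 * k) := by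
    have h0 : 0 < k ^ (20000 * k) := Nat.pow_pos (by omega)
    have h1 : 2 * S ≤ N / k ^ (20000 * k) := by
      rw [Nat.le_div_iff_mul_le h0]
      have : ((2 * S * k ^ (20000 * k) : ℕ) : ℝ) ≤ N := by
        push_cast
        calc (2 : ℝ) * S * (k : ℝ) ^ (20000 * k) = (2 * (k : ℝ) ^ (20000 * k)) * S := by ring
          _ ≤ x * S := mul_le_mul_of_nonneg_right hpow hS'.le
          _ = N := by rw [hx]; field_simp
      exact_mod_cast this
    omega
  have hT : T ≤ k * N := by
    have h1 : (T : ℝ) ≤ (k : ℝ) * N := by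
      refine hcon.le.trans ?_
      calc 1 / (4 * C) * N * v = (v / (4 * C)) * N := by ring
        _ ≤ k * N := mul_le_mul_of_nonneg_right hk1 hNpos.le
    exact_mod_cast h1
  have hfin := lower_rand (s := S + 1) hk3 hkN hSk M hs (fun y hy => by
    refine (hc y hy).trans (Nat.mul_le_mul (Nat.pow_le_pow_right (by norm_num) (by omega)) ?_)
    apply Nat.card_le_card_of_injective (fun z => ⟨z.1, by
      obtain ⟨t, ht, ha⟩ := z.2
      exact ⟨t, ht.trans hT, ha⟩⟩)
    intro z z' h
    exact Subtype.ext (congrArg (fun w => w.1) h))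
  have h1 : 2 ^ S < 2 ^ (S + 1) := Nat.pow_lt_pow_right (by norm_num) (by omega)
  omega

end Pool.Agent.TS
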