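import Pool.Agent.TS.CircDefs
import Pool.Agent.TS.Final

/-! Circuits as stack machines. -/

namespace Pool.Agent.JT

open Pool.Agent.TS

variable {N : ℕ}

lemma Circuit.val_node (C : Circuit N) (y : Fin N → Bool) {g : Fin C.size}
    (w : Fin N ⊕ Fin (g : ℕ)) :
    C.val y (C.node w) = (match w with
      | .inl i => y i
      | .inr j => C.gateVal y j (j.2.trans g.2)) := by
  cases w <;> rfl

lemma Circuit.val_gate (C : Circuit N) (y : Fin N → Bool) (g : Fin C.size) :
    C.val y (.inr g) = (C.gate g).eval (fun w => C.val y (C.node w)) := by
  change C.gateVal y g g.2 = _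
  rw [Circuit.gateVal]
  congr 1
  funext w
  rw [C.val_node]
  cases w <;> rfl

/-- every node has an evaluation, which returns its value -/
lemma Circuit.exists_rec (C : Circuit N) (y : Fin N → Bool) :
    ∀ w, ∃ t, C.Rec y w (C.val y w) t := by
  have key : ∀ g : ℕ, ∀ hg : g < C.size, ∃ t, C.Rec y (.inr ⟨g, hg⟩) (C.val y (.inr ⟨g, hg⟩)) t := by
    intro g
    induction g using Nat.strong_induction_on with
    | _ g ih =>
      intro hg
      have hn : ∀ w : Fin N ⊕ Fin (g : ℕ), ∃ t, C.Rec y (C.node (g := ⟨g, hg⟩) w)
          (C.val y (C.node (g := ⟨g, hg⟩) w)) t := by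
        intro w
        cases w with
        | inl i => exact ⟨1, Circuit.Rec.leaf i⟩
        | inr j => exact ih j j.2 (j.2.trans hg)
      rw [C.val_gate]
      cases hc : C.gate ⟨g, hg⟩ with
      | and a b =>
        obtain ⟨t, ht⟩ := hn a
        obtain ⟨t', ht'⟩ := hn b
        cases hv : C.val y (C.node (g := ⟨g, hg⟩) a) with
        | false =>
          rw [hv] at ht
          simp only [Gate.eval, hv, Bool.false_and]
          exact ⟨_, Circuit.Rec.and_false hc ht⟩
        | true =>
          rw [hv] at ht
          simp only [Gate.eval, hv, Bool.true_and]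
          exact ⟨_, Circuit.Rec.and_true hc ht ht'⟩
      | or a b =>
        obtain ⟨t, ht⟩ := hn a
        obtain ⟨t', ht'⟩ := hn b
        cases hv : C.val y (C.node (g := ⟨g, hg⟩) a) with
        | false =>
          rw [hv] at ht
          simp only [Gate.eval, hv, Bool.false_or]
          exact ⟨_, Circuit.Rec.or_false hc ht ht'⟩
        | true =>
          rw [hv] at ht
          simp only [Gate.eval, hv, Bool.true_or]
          exact ⟨_, Circuit.Rec.or_true hc ht⟩
      | not a =>
        obtain ⟨t, ht⟩ := hn a
        simp only [Gate.eval]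
        exact ⟨_, Circuit.Rec.not hc ht⟩
  intro w
  cases w with
  | inl i => exact ⟨1, Circuit.Rec.leaf i⟩
  | inr g => exact key g g.2

/-- the stack machine that evaluates a circuit -/
def Circuit.toMachine (C : Circuit N) : Machine (Fin N) ((Fin N ⊕ Fin C.size) ⊕ Bool) Bool where
  code q := match q with
    | .inr v => .ret v
    | .inl (.inl i) => .read i (fun b => .inr b)
    | .inl (.inr g) => match C.gate g with
      | .and a b => .call (.inl (C.node a)) (fun u => if u then .inl (C.node b) else .inr false)
      | .or a b => .call (.inl (C.node a)) (fun u => if u then .inr true else .inl (C.node b))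
      | .not a => .call (.inl (C.node a)) (fun u => .inr (!u))
  start := .inl C.out
  acc v := v = true

lemma Circuit.toMachine_ret (C : Circuit N) (y : Fin N → Bool) (v : Bool) :
    C.toMachine.Runs y (.inr v) v 1 := Machine.Runs.ret rfl

lemma Circuit.toMachine_complete (C : Circuit N) (y : Fin N → Bool) {w : Fin N ⊕ Fin C.size}
    {v : Bool} {t : ℕ} (h : C.Rec y w v t) :
    ∃ t' ≤ 2 * t, C.toMachine.Runs y (.inl w) v t' := by
  induction h with
  | leaf i =>
    exact ⟨2, le_rfl, Machine.Runs.read (k := fun b => .inr b) rfl (C.toMachine_ret y _)⟩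
  | @and_false g a b t hc _ ih =>
    obtain ⟨t', ht', hr⟩ := ih
    refine ⟨t' + 1 + 1, by omega, ?_⟩
    refine Machine.Runs.call (p := .inl (C.node a))
      (k := fun u => if u then .inl (C.node b) else .inr false) (u := false) ?_ hr
      (C.toMachine_ret y false)
    simp only [Circuit.toMachine, hc]
  | @and_true g a b v t s hc _ _ ih1 ih2 =>
    obtain ⟨t', ht', hr⟩ := ih1
    obtain ⟨s', hs', hr'⟩ := ih2
    refine ⟨t' + s' + 1, by omega, ?_⟩
    refine Machine.Runs.call (p := .inl (C.node a))
      (k := fun u => if u then .inl (C.node b) else .inr false) (u := true) ?_ hr hr'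
    simp only [Circuit.toMachine, hc]
  | @or_true g a b t hc _ ih =>
    obtain ⟨t', ht', hr⟩ := ih
    refine ⟨t' + 1 + 1, by omega, ?_⟩
    refine Machine.Runs.call (p := .inl (C.node a))
      (k := fun u => if u then .inr true else .inl (C.node b)) (u := true) ?_ hr
      (C.toMachine_ret y true)
    simp only [Circuit.toMachine, hc]
  | @or_false g a b v t s hc _ _ ih1 ih2 =>
    obtain ⟨t', ht', hr⟩ := ih1
    obtain ⟨s', hs', hr'⟩ := ih2
    refine ⟨t' + s' + 1, by omega, ?_⟩
    refine Machine.Runs.call (p := .inl (C.node a))
      (k := fun u => if u then .inr true else .inl (C.node b)) (u := false) ?_ hr hr'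
    simp only [Circuit.toMachine, hc]
  | @not g a v t hc _ ih =>
    obtain ⟨t', ht', hr⟩ := ih
    refine ⟨t' + 1 + 1, by omega, ?_⟩
    refine Machine.Runs.call (p := .inl (C.node a)) (k := fun u => .inr (!u)) (u := v) ?_ hr
      (C.toMachine_ret y (!v))
    simp only [Circuit.toMachine, hc]

/-- the machine computes the values of the nodes -/
lemma Circuit.toMachine_sound (C : Circuit N) (y : Fin N → Bool)
    {q : (Fin N ⊕ Fin C.size) ⊕ Bool} {v : Bool} {t : ℕ} (h : C.toMachine.Runs y q v t) :
    v = (match q with
      | .inr u => u
      | .inl w => C.val y w) := by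
  induction h with
  | @ret q v hc =>
    match q with
    | .inr u => simpa [Circuit.toMachine] using hc.symm
    | .inl (.inl i) => simp [Circuit.toMachine] at hc
    | .inl (.inr g) =>
      simp only [Circuit.toMachine] at hc
      cases hg : C.gate g <;> rw [hg] at hc <;> simp at hc
  | @read q i k v t hc _ ih =>
    match q with
    | .inr u => simp [Circuit.toMachine] at hc
    | .inl (.inl i') =>
      simp only [Circuit.toMachine, Instr.read.injEq] at hc
      obtain ⟨rfl, rfl⟩ := hc
      exact ih
    | .inl (.inr g) =>
      simp only [Circuit.toMachine] at hc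
      cases hg : C.gate g <;> rw [hg] at hc <;> simp at hc
  | @call q p k u v t t' hc _ _ ih1 ih2 =>
    match q with
    | .inr u => simp [Circuit.toMachine] at hc
    | .inl (.inl i') => simp [Circuit.toMachine] at hc
    | .inl (.inr g) =>
      simp only [Circuit.toMachine] at hc
      simp only
      rw [C.val_gate]
      cases hg : C.gate g with
      | and a b =>
        rw [hg] at hc
        simp only [Instr.call.injEq] at hc
        obtain ⟨rfl, rfl⟩ := hc
        simp only at ih1
        cases u with
        | false => simp only [Gate.eval, ← ih1, Bool.false_and]; simpa using ih2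
        | true => simp only [Gate.eval, ← ih1, Bool.true_and]; simpa using ih2
      | or a b =>
        rw [hg] at hc
        simp only [Instr.call.injEq] at hc
        obtain ⟨rfl, rfl⟩ := hc
        simp only at ih1
        cases u with
        | false => simp only [Gate.eval, ← ih1, Bool.false_or]; simpa using ih2
        | true => simp only [Gate.eval, ← ih1, Bool.true_or]; simpa using ih2
      | not a =>
        rw [hg] at hc
        simp only [Instr.call.injEq] at hc
        obtain ⟨rfl, rfl⟩ := hc
        simp only at ih1
        simp only [Gate.eval, ← ih1]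
        simpa using ih2

end Pool.Agent.JT
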