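import Mathlib

/-! Nonuniform stack machines (programs with unlimited recursion) and decision forests. -/

namespace Pool.Agent.TS

/-- Instructions of a stack machine with labels `Q`, results `R` and input bits indexed by `I`:
return a result; read an input bit and jump; call the subroutine starting at label `p` and, when it
returns the result `u`, continue at label `k u`. -/
inductive Instr (I Q R : Type) where
  /-- return -/
  | ret (v : R)
  /-- read input bit number `i` and jump -/
  | read (i : I) (k : Bool → Q)
  /-- call a subroutine, then jump according to its result -/
  | call (p : Q) (k : R → Q)

/-- A (nonuniform) stack machine: a program with labels `Q`, results `R`, unlimited recursion and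
random access to its input bits. The stack contains return addresses (labels). -/
structure Machine (I Q R : Type) where
  /-- the instruction at a label -/
  code : Q → Instr I Q R
  /-- start label -/
  start : Q
  /-- accepting results -/
  acc : R → Prop

variable {I Q R : Type}

/-- `M.Runs y q v t`: started at label `q` on the input `y`, the machine returns the result `v`
after exactly `t` instructions (those executed in the called subroutines included). -/
inductive Machine.Runs (M : Machine I Q R) (y : I → Bool) : Q → R → ℕ → Prop
  | ret {q : Q} {v : R} : M.code q = .ret v → Machine.Runs M y q v 1
  | read {q : Q} {i : I} {k : Bool → Q} {v : R} {t : ℕ} : M.code q = .read i k →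
      Machine.Runs M y (k (y i)) v t → Machine.Runs M y q v (t + 1)
  | call {q p : Q} {k : R → Q} {u v : R} {t t' : ℕ} : M.code q = .call p k →
      Machine.Runs M y p u t → Machine.Runs M y (k u) v t' → Machine.Runs M y q v (t + t' + 1)

/-- the machine accepts the input `y` in exactly `t` steps -/
def Machine.AcceptsIn (M : Machine I Q R) (y : I → Bool) (t : ℕ) : Prop :=
  ∃ v, M.Runs y M.start v t ∧ M.acc v

/-- `r` partial decision trees: `dom i` is the set of inputs on which the `i`-th tree succeeds, and
`V i x` the set of variables it reads on `x`. -/
structure Forest (I : Type) (r : ℕ) where
  /-- inputs on which a tree succeeds -/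
  dom : Fin r → Set (I → Bool)
  /-- variables read by a tree -/
  V : Fin r → (I → Bool) → Finset I
  loc : ∀ i x z, x ∈ dom i → (∀ j ∈ V i x, z j = x j) → z ∈ dom i ∧ V i z = V i x

/-- the inputs on which all trees succeed -/
def Forest.all {r : ℕ} (F : Forest I r) : Set (I → Bool) := {x | ∀ i, x ∈ F.dom i}

end Pool.Agent.TS
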