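import Pool.Agent.JT.CircDefs
import Pool.Agent.TS.Defs

/-! The recursive evaluation of Boolean circuits without memory. -/

namespace Pool.Agent.JT

variable {N : ℕ}

/-- Recursive evaluation with short-circuiting and without memory. `C.Rec y w b t` means: the
evaluation of the node `w` on the input `y` returns `b` and makes `t` calls altogether. A call for an
input variable reads it. A call for a gate calls its first input; then the call for a conjunction
returns `false` if the result is `false`, and otherwise calls the second input and returns its
result; dually for disjunctions. Results are not stored: a node is evaluated again each time it is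
called. -/
inductive Circuit.Rec (C : Circuit N) (y : Fin N → Bool) : Fin N ⊕ Fin C.size → Bool → ℕ → Prop
  | leaf (i : Fin N) : Circuit.Rec C y (.inl i) (y i) 1
  | and_false {g : Fin C.size} {a b : Fin N ⊕ Fin (g : ℕ)} {t : ℕ} :
      C.gate g = .and a b → Circuit.Rec C y (C.node a) false t →
      Circuit.Rec C y (.inr g) false (t + 1)
  | and_true {g : Fin C.size} {a b : Fin N ⊕ Fin (g : ℕ)} {v : Bool} {t t' : ℕ} :
      C.gate g = .and a b → Circuit.Rec C y (C.node a) true t → Circuit.Rec C y (C.node b) v t' →
      Circuit.Rec C y (.inr g) v (t + t' + 1)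
  | or_true {g : Fin C.size} {a b : Fin N ⊕ Fin (g : ℕ)} {t : ℕ} :
      C.gate g = .or a b → Circuit.Rec C y (C.node a) true t →
      Circuit.Rec C y (.inr g) true (t + 1)
  | or_false {g : Fin C.size} {a b : Fin N ⊕ Fin (g : ℕ)} {v : Bool} {t t' : ℕ} :
      C.gate g = .or a b → Circuit.Rec C y (C.node a) false t → Circuit.Rec C y (C.node b) v t' →
      Circuit.Rec C y (.inr g) v (t + t' + 1)
  | not {g : Fin C.size} {a : Fin N ⊕ Fin (g : ℕ)} {v : Bool} {t : ℕ} :
      C.gate g = .not a → Circuit.Rec C y (C.node a) v t →
      Circuit.Rec C y (.inr g) (!v) (t + 1)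

end Pool.Agent.JT
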