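import Pool.Agent.TS.Circ

/-! The lower bound for circuits that are evaluated recursively in time `k N`. -/

namespace Pool.Agent.TS

open Finset
open Pool.Agent.JT (Circuit)

lemma K_ineq {k : ℕ} (hk : 2 ≤ k) :
    4 * ((2 * k) ^ (20000 * (2 * k))) ^ 2 ≤ k ^ (200000 * k) := by
  calc 4 * ((2 * k) ^ (20000 * (2 * k))) ^ 2 ≤ k ^ 2 * ((k * k) ^ (20000 * (2 * k))) ^ 2 := by
        gcongr
        nlinarith
    _ = k ^ (2 + 160000 * k) := by
        rw [← pow_mul, mul_pow, ← pow_add, ← pow_add]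
        congr 1
        ring
    _ ≤ k ^ (200000 * k) := Nat.pow_le_pow_right (by omega) (by omega)

lemma size_ineq {N K1 K2 : ℕ} (h1 : 4 ≤ K1) (h2 : 4 * K1 ^ 2 ≤ K2) (hN : K2 ≤ N) :
    2 * (N + 2 ^ (N / K2) + 2) ≤ 2 ^ (N / K1) := by
  set q := Nat.sqrt N with hq
  have hq1 : q * q ≤ N := Nat.sqrt_le N
  have hq2 : N < (q + 1) * (q + 1) := Nat.lt_succ_sqrt N
  have hq3 : 2 * K1 ≤ q := by
    rw [hq, Nat.le_sqrt]
    calc 2 * K1 * (2 * K1) = 4 * K1 ^ 2 := by ring
      _ ≤ N := h2.trans hN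
  have hs1 : 2 * q ≤ N / K1 := by
    rw [Nat.le_div_iff_mul_le (by omega)]
    calc 2 * q * K1 = q * (2 * K1) := by ring
      _ ≤ q * q := Nat.mul_le_mul_left _ hq3
      _ ≤ N := hq1
  have hs2 : N / K2 + 2 ≤ N / K1 := by
    rw [Nat.le_div_iff_mul_le (by omega)]
    have e1 : (N / K2) * (4 * K1 ^ 2) ≤ N :=
      (Nat.mul_le_mul_left _ h2).trans (Nat.div_mul_le_self _ _)
    have e2 : 16 * ((N / K2) * K1) ≤ N := by
      refine le_trans ?_ e1
      calc 16 * ((N / K2) * K1) = (N / K2) * (4 * (4 * K1)) := by ring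
        _ ≤ (N / K2) * (4 * (K1 * K1)) := by gcongr
        _ = _ := by ring
    have e3 : 8 * q ≤ N := le_trans (Nat.mul_le_mul_right _ (by omega)) hq1
    have e4 : (N / K2 + 2) * K1 = (N / K2) * K1 + 2 * K1 := by ring
    omega
  have h4 : ∀ q : ℕ, 8 ≤ q → 2 * (2 * ((q + 1) * (q + 1)) + 4) ≤ 2 ^ (2 * q) := by
    intro q hq
    induction q, hq using Nat.le_induction with
    | base => norm_num
    | succ q hq ih =>
      rw [show 2 * (q + 1) = 2 * q + 2 by ring, pow_add]
      nlinarith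
  have h5 := h4 q (by omega)
  have h6 : 2 ^ (2 * q) ≤ 2 ^ (N / K1) := Nat.pow_le_pow_right (by norm_num) hs1
  have h7 : 2 ^ (N / K2 + 2) ≤ 2 ^ (N / K1) := Nat.pow_le_pow_right (by norm_num) hs2
  have h8 : 2 ^ (N / K2 + 2) = 4 * 2 ^ (N / K2) := by rw [pow_add]; ring
  omega

/-- The lower bound for circuits and machines. -/
theorem circ_lower {k N : ℕ} (hk : 2 ≤ k) (hN : k ^ (200000 * k) ≤ N) :
    ∃ H : Finset (Fin N → Bool), H.Nonempty ∧ (∀ y ∈ H, lang (List.ofFn y)) ∧
    (∀ C : Circuit N, (∀ y, C.eval y = true → lang (List.ofFn y)) →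
      H.card ≤ 2 ^ (N / k ^ (200000 * k)) * Nat.card {y : Fin N → Bool //
        y ∈ H ∧ ∃ t ≤ k * N, C.Rec y C.out true t} →
      2 ^ (N / k ^ (200000 * k)) ≤ C.size) ∧
    (∀ (G : ℕ) (Q R : Type) [Fintype Q] [Fintype R] (M : Machine (Fin N ⊕ Fin G) Q R),
      (∀ y z t, M.AcceptsIn (Sum.elim y z) t → lang (List.ofFn y)) →
      H.card * 2 ^ G ≤ 2 ^ (N / k ^ (200000 * k)) * Nat.card {p : (Fin N → Bool) × (Fin G → Bool) //
        p.1 ∈ H ∧ ∃ t ≤ k * N, M.AcceptsIn (Sum.elim p.1 p.2) t} →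
      2 ^ (N / k ^ (200000 * k)) ≤ Fintype.card Q * Fintype.card R) := by
  classical
  set K1 := (2 * k) ^ (20000 * (2 * k)) with hK1
  set K2 := k ^ (200000 * k) with hK2
  have h12 : 4 * K1 ^ 2 ≤ K2 := K_ineq hk
  have hK1' : 4 ≤ K1 := by
    calc 4 = (2 * 1) ^ 2 := by norm_num
      _ ≤ (2 * k) ^ 2 := by gcongr; omega
      _ ≤ K1 := Nat.pow_le_pow_right (by omega) (by omega)
  have hK12 : K1 ≤ K2 := by nlinarith
  obtain ⟨H, h1, h2, h3⟩ := lower (k := 2 * k) (by omega) (hK12.trans hN)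
  refine ⟨H, h1, h2, fun C hC hc => ?_, fun G Q R _ _ M hM hc => ?_⟩
  · by_contra hcon
    push Not at hcon
    have h4 := h3 (G := 0) (s := N / K1) le_rfl C.toMachine.lift (by
        intro y z t h
        obtain ⟨v, hv, ha⟩ := (C.toMachine.lift_accepts y z t).1 h
        apply hC
        have h5 := C.toMachine_sound y hv
        have h6 : v = C.eval y := h5
        have h7 : v = true := ha
        rw [← h6, h7])
      (by
        have h5 : Nat.card {y : Fin N → Bool // y ∈ H ∧ ∃ t ≤ k * N, C.Rec y C.out true t} ≤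
            Nat.card {p : (Fin N → Bool) × (Fin 0 → Bool) //
              p.1 ∈ H ∧ ∃ t ≤ 2 * k * N, (C.toMachine.lift (G := Fin 0)).AcceptsIn
                (Sum.elim p.1 p.2) t} := by
          rw [Nat.card_eq_fintype_card, Nat.card_eq_fintype_card, Fintype.card_subtype,
            Fintype.card_subtype]
          apply card_le_card_of_injOn (fun y => (y, fun i : Fin 0 => i.elim0))
          · intro y hy
            simp only [coe_filter, mem_univ, true_and, Set.mem_ofPred_eq] at hy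
            obtain ⟨hyH, t, ht, hr⟩ := hy
            obtain ⟨t', ht', hr'⟩ := C.toMachine_complete y hr
            simp only [coe_filter, mem_univ, true_and, Set.mem_ofPred_eq]
            refine ⟨hyH, t', ?_, (C.toMachine.lift_accepts y _ t').2 ⟨true, hr', rfl⟩⟩
            calc t' ≤ 2 * t := ht'
              _ ≤ 2 * (k * N) := Nat.mul_le_mul_left _ ht
              _ = 2 * k * N := by ring
          · intro y _ y' _ h
            exact congrArg Prod.fst h
        calc H.card * 2 ^ 0 = H.card := by ring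
          _ ≤ _ := hc
          _ ≤ 2 ^ (N / K1) * _ := by
              apply Nat.mul_le_mul _ h5
              exact Nat.pow_le_pow_right (by norm_num) (Nat.div_le_div_left hK12 (by omega)))
    have h5 : Fintype.card ((Fin N ⊕ Fin C.size) ⊕ Bool) * Fintype.card Bool =
        (N + C.size + 2) * 2 := by
      simp
    rw [h5] at h4
    have h6 := size_ineq hK1' h12 hN
    omega
  · refine h3 (Nat.div_le_div_left hK12 (by omega)) M hM (hc.trans (Nat.mul_le_mul_left _ ?_))
    have hle : k * N ≤ 2 * k * N := Nat.mul_le_mul_right _ (by omega)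
    apply Nat.card_le_card_of_injective (fun p => ⟨p.1, p.2.1, by
      obtain ⟨t, ht, ha⟩ := p.2.2
      exact ⟨t, ht.trans hle, ha⟩⟩)
    intro z z' h
    exact Subtype.ext (congrArg (fun w => w.1) h)

end Pool.Agent.TS
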