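import Pool.Agent.TS.Defs

/-! The popularity argument: a large set of inputs accepted by a decision forest contains the
mixes of two large sets of inputs that differ from a common input on two disjoint sets only. -/

namespace Pool.Agent.TS

open Finset

variable {n r : ℕ}

/-- `z` agrees with `x` outside `S` -/
def Off (S : Finset (Fin n)) (x z : Fin n → Bool) : Prop := ∀ j, j ∉ S → z j = x j

instance (S : Finset (Fin n)) (x z : Fin n → Bool) : Decidable (Off S x z) := by
  unfold Off; infer_instance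

lemma Off.symm {S : Finset (Fin n)} {x z : Fin n → Bool} (h : Off S x z) : Off S z x :=
  fun j hj => (h j hj).symm

lemma Off.trans {S : Finset (Fin n)} {x y z : Fin n → Bool} (h : Off S x y) (h' : Off S y z) :
    Off S x z := fun j hj => (h' j hj).trans (h j hj)

lemma card_off (S : Finset (Fin n)) (x : Fin n → Bool) :
    (univ.filter (fun z => Off S x z)).card = 2 ^ S.card := by
  classical
  have h : (univ.filter (fun z => Off S x z)) =
      Fintype.piFinset (fun j => if j ∈ S then (univ : Finset Bool) else {x j}) := by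
    ext z
    simp only [mem_filter, mem_univ, true_and, Fintype.mem_piFinset]
    constructor
    · intro hz j
      by_cases hj : j ∈ S
      · rw [if_pos hj]; exact mem_univ _
      · rw [if_neg hj, mem_singleton]; exact hz j hj
    · intro hz j hj
      have := hz j
      rw [if_neg hj, mem_singleton] at this
      exact this
  rw [h, Fintype.card_piFinset]
  have h2 : ∀ j : Fin n, (if j ∈ S then (univ : Finset Bool) else {x j}).card =
      if j ∈ S then 2 else 1 := by
    intro j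
    split_ifs <;> simp
  rw [prod_congr rfl fun j _ => h2 j, prod_ite, prod_const, prod_const_one, mul_one]
  congr 2
  ext j
  simp

/-- the variables that are not read by the trees in `D` -/
def unread (F : Forest (Fin n) r) (D : Finset (Fin r)) (x : Fin n → Bool) : Finset (Fin n) :=
  univ.filter fun j => ∀ i ∈ D, j ∉ F.V i x

lemma mem_unread {F : Forest (Fin n) r} {D : Finset (Fin r)} {x : Fin n → Bool} {j : Fin n} :
    j ∈ unread F D x ↔ ∀ i ∈ D, j ∉ F.V i x := by
  simp [unread]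

lemma unread_anti {F : Forest (Fin n) r} {D D' : Finset (Fin r)} (h : D' ⊆ D) (x : Fin n → Bool) :
    unread F D x ⊆ unread F D' x := fun _ hj =>
  mem_unread.2 fun i hi => mem_unread.1 hj i (h hi)

lemma tree_eq {F : Forest (Fin n) r} {D : Finset (Fin r)} {x z : Fin n → Bool}
    {S : Finset (Fin n)} (hx : x ∈ F.all) (hS : S ⊆ unread F D x) (hz : Off S x z) {i : Fin r}
    (hi : i ∈ D) : z ∈ F.dom i ∧ F.V i z = F.V i x :=
  F.loc i x z (hx i) fun j hj => hz j fun hjS => mem_unread.1 (hS hjS) i hi hj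

lemma unread_eq {F : Forest (Fin n) r} {D D' : Finset (Fin r)} {x z : Fin n → Bool}
    {S : Finset (Fin n)} (hx : x ∈ F.all) (hS : S ⊆ unread F D x) (hz : Off S x z) (hD : D' ⊆ D) :
    unread F D' z = unread F D' x := by
  ext j
  rw [mem_unread, mem_unread]
  refine forall₂_congr fun i hi => ?_
  rw [(tree_eq hx hS hz (hD hi)).2]

/-- a set chosen in `U`, of size `m` if possible -/
noncomputable def pick (m : ℕ) (U : Finset (Fin n)) : Finset (Fin n) :=
  if h : m ≤ U.card then (exists_subset_card_eq h).choose else ∅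

lemma pick_spec {m : ℕ} {U : Finset (Fin n)} (h : m ≤ U.card) :
    pick m U ⊆ U ∧ (pick m U).card = m := by
  unfold pick
  rw [dif_pos h]
  exact (exists_subset_card_eq h).choose_spec

lemma sum_bad2 (F : Forest (Fin n) r) (A B : Finset (Fin r)) (X : Finset (Fin n → Bool))
    (hX : ∀ x ∈ X, x ∈ F.all) (mS mT t2 : ℕ) (hT : ∀ x ∈ X, mT ≤ (unread F Bᶜ x).card) :
    2 ^ mS * ∑ x ∈ X, ∑ S ∈ powersetCard mS (unread F Aᶜ x),
      (if (X.filter (fun y => Off S x y ∧ pick mT (unread F Bᶜ y) = pick mT (unread F Bᶜ x))).card ≤ t2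
        then (((unread F Aᶜ x).card.choose mS : ℕ) : ℚ)⁻¹ else 0) ≤
    t2 * n.choose mT * 2 ^ n := by
  classical
  set P : (Fin n → Bool) → Finset (Fin n) → Prop := fun x S =>
    (X.filter (fun y => Off S x y ∧ pick mT (unread F Bᶜ y) = pick mT (unread F Bᶜ x))).card ≤ t2
    with hP
  have e1 : 2 ^ mS * ∑ x ∈ X, ∑ S ∈ powersetCard mS (unread F Aᶜ x),
      (if P x S then (((unread F Aᶜ x).card.choose mS : ℕ) : ℚ)⁻¹ else 0) =
      ∑ x ∈ X, ∑ S ∈ powersetCard mS (unread F Aᶜ x), ∑ z ∈ univ.filter (fun z => Off S x z),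
      (if P x S then (((unread F Aᶜ x).card.choose mS : ℕ) : ℚ)⁻¹ else 0) := by
    rw [mul_sum]
    refine sum_congr rfl fun x _ => ?_
    rw [mul_sum]
    refine sum_congr rfl fun S hS => ?_
    rw [sum_const, card_off, (mem_powersetCard.1 hS).2, nsmul_eq_mul]
    push_cast
    rfl
  have e2 : ∑ x ∈ X, ∑ S ∈ powersetCard mS (unread F Aᶜ x), ∑ z ∈ univ.filter (fun z => Off S x z),
      (if P x S then (((unread F Aᶜ x).card.choose mS : ℕ) : ℚ)⁻¹ else 0) ≤
      ∑ z : Fin n → Bool, ∑ S ∈ powersetCard mS (unread F Aᶜ z),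
        ∑ _x ∈ X.filter (fun x => Off S z x ∧ P x S), (((unread F Aᶜ z).card.choose mS : ℕ) : ℚ)⁻¹ := by
    -- both sides as sums over triples
    have l1 : ∀ x ∈ X, ∑ S ∈ powersetCard mS (unread F Aᶜ x), ∑ z ∈ univ.filter (fun z => Off S x z),
      (if P x S then (((unread F Aᶜ x).card.choose mS : ℕ) : ℚ)⁻¹ else 0) =
      ∑ z : Fin n → Bool, ∑ S ∈ (univ : Finset (Finset (Fin n))),
        (if S ∈ powersetCard mS (unread F Aᶜ x) ∧ Off S x z ∧ P x S then
          (((unread F Aᶜ x).card.choose mS : ℕ) : ℚ)⁻¹ else 0) := by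
      intro x hx
      rw [sum_comm, ← sum_filter_add_sum_filter_not univ
        (fun S => S ∈ powersetCard mS (unread F Aᶜ x))]
      have h0 : ∑ S ∈ univ.filter (fun S => ¬ S ∈ powersetCard mS (unread F Aᶜ x)),
          ∑ z : Fin n → Bool,
          (if S ∈ powersetCard mS (unread F Aᶜ x) ∧ Off S x z ∧ P x S then
          (((unread F Aᶜ x).card.choose mS : ℕ) : ℚ)⁻¹ else 0) = 0 := by
        refine sum_eq_zero fun S hS => sum_eq_zero fun z _ => if_neg fun h => ?_
        exact (mem_filter.1 hS).2 h.1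
      rw [h0, add_zero]
      have h1 : univ.filter (fun S => S ∈ powersetCard mS (unread F Aᶜ x)) =
          powersetCard mS (unread F Aᶜ x) := by
        ext S; simp
      rw [h1]
      refine sum_congr rfl fun S hS => ?_
      rw [sum_filter]
      refine sum_congr rfl fun z _ => ?_
      by_cases hz : Off S x z <;> by_cases hp : P x S <;> simp [hz, hp, hS]
    have l2 : ∀ z : Fin n → Bool, ∑ S ∈ powersetCard mS (unread F Aᶜ z),
        ∑ _x ∈ X.filter (fun x => Off S z x ∧ P x S), (((unread F Aᶜ z).card.choose mS : ℕ) : ℚ)⁻¹ =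
        ∑ x ∈ X, ∑ S ∈ (univ : Finset (Finset (Fin n))),
        (if S ∈ powersetCard mS (unread F Aᶜ z) ∧ Off S z x ∧ P x S then
          (((unread F Aᶜ z).card.choose mS : ℕ) : ℚ)⁻¹ else 0) := by
      intro z
      rw [sum_comm, ← sum_filter_add_sum_filter_not univ
        (fun S => S ∈ powersetCard mS (unread F Aᶜ z))]
      have h0 : ∑ S ∈ univ.filter (fun S => ¬ S ∈ powersetCard mS (unread F Aᶜ z)),
          ∑ x ∈ X,
          (if S ∈ powersetCard mS (unread F Aᶜ z) ∧ Off S z x ∧ P x S then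
          (((unread F Aᶜ z).card.choose mS : ℕ) : ℚ)⁻¹ else 0) = 0 := by
        refine sum_eq_zero fun S hS => sum_eq_zero fun z _ => if_neg fun h => ?_
        exact (mem_filter.1 hS).2 h.1
      rw [h0, add_zero]
      have h1 : univ.filter (fun S => S ∈ powersetCard mS (unread F Aᶜ z)) =
          powersetCard mS (unread F Aᶜ z) := by
        ext S; simp
      rw [h1]
      refine sum_congr rfl fun S hS => ?_
      rw [sum_filter]
      refine sum_congr rfl fun x _ => ?_
      by_cases hz : Off S z x <;> by_cases hp : P x S <;> simp [hz, hp, hS]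
    rw [sum_congr rfl l1, sum_congr rfl fun z _ => l2 z]
    conv_rhs => rw [sum_comm]
    refine sum_le_sum fun x hx => sum_le_sum fun z _ => sum_le_sum fun S _ => ?_
    by_cases h : S ∈ powersetCard mS (unread F Aᶜ x) ∧ Off S x z ∧ P x S
    · rw [if_pos h]
      have hS := (mem_powersetCard.1 h.1).1
      have hu : unread F Aᶜ z = unread F Aᶜ x := unread_eq (hX x hx) hS h.2.1 (Subset.refl _)
      rw [hu, if_pos ⟨h.1, h.2.1.symm, h.2.2⟩]
    · rw [if_neg h]
      split_ifs
      · positivity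
      · exact le_rfl
  have e3 : ∀ z : Fin n → Bool, ∀ S ∈ powersetCard mS (unread F Aᶜ z),
      (X.filter (fun x => Off S z x ∧ P x S)).card ≤ t2 * n.choose mT := by
    intro z S hS
    have h1 : (X.filter (fun x => Off S z x ∧ P x S)) ⊆
        (powersetCard mT (univ : Finset (Fin n))).biUnion (fun τ =>
          (X.filter (fun x => Off S z x ∧ P x S)).filter (fun x => pick mT (unread F Bᶜ x) = τ)) := by
      intro x hx
      refine mem_biUnion.2 ⟨pick mT (unread F Bᶜ x), ?_, mem_filter.2 ⟨hx, rfl⟩⟩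
      exact mem_powersetCard.2 ⟨subset_univ _, (pick_spec (hT x (mem_filter.1 hx).1)).2⟩
    calc (X.filter (fun x => Off S z x ∧ P x S)).card ≤ _ := card_le_card h1
      _ ≤ ∑ τ ∈ powersetCard mT (univ : Finset (Fin n)),
          ((X.filter (fun x => Off S z x ∧ P x S)).filter
            (fun x => pick mT (unread F Bᶜ x) = τ)).card := card_biUnion_le
      _ ≤ ∑ τ ∈ powersetCard mT (univ : Finset (Fin n)), t2 := by
          refine sum_le_sum fun τ _ => ?_
          rcases ((X.filter (fun x => Off S z x ∧ P x S)).filter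
            (fun x => pick mT (unread F Bᶜ x) = τ)).eq_empty_or_nonempty with h | ⟨x0, hx0⟩
          · rw [h]; simp
          · obtain ⟨h2, h3⟩ := mem_filter.1 hx0
            obtain ⟨_, h4, h5⟩ := mem_filter.1 h2
            refine le_trans (card_le_card ?_) h5
            intro y hy
            obtain ⟨h6, h7⟩ := mem_filter.1 hy
            obtain ⟨h8, h9, h10⟩ := mem_filter.1 h6
            exact mem_filter.2 ⟨h8, (h4.symm).trans h9, h7.trans h3.symm⟩
      _ = t2 * n.choose mT := by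
          rw [sum_const, card_powersetCard, card_univ, Fintype.card_fin, smul_eq_mul, mul_comm]
  have e4 : ∀ z : Fin n → Bool, ∑ S ∈ powersetCard mS (unread F Aᶜ z),
        ∑ _x ∈ X.filter (fun x => Off S z x ∧ P x S), (((unread F Aᶜ z).card.choose mS : ℕ) : ℚ)⁻¹ ≤
        t2 * n.choose mT := by
    intro z
    set w : ℚ := (((unread F Aᶜ z).card.choose mS : ℕ) : ℚ)⁻¹ with hw
    have hw0 : 0 ≤ w := by positivity
    calc ∑ S ∈ powersetCard mS (unread F Aᶜ z), ∑ _x ∈ X.filter (fun x => Off S z x ∧ P x S), w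
        ≤ ∑ S ∈ powersetCard mS (unread F Aᶜ z), ((t2 * n.choose mT : ℕ) : ℚ) * w := by
          refine sum_le_sum fun S hS => ?_
          rw [sum_const, nsmul_eq_mul]
          exact mul_le_mul_of_nonneg_right (by exact_mod_cast e3 z S hS) hw0
      _ = ((unread F Aᶜ z).card.choose mS : ℕ) * w * (t2 * n.choose mT : ℕ) := by
          rw [sum_const, card_powersetCard, nsmul_eq_mul]; ring
      _ ≤ 1 * (t2 * n.choose mT : ℕ) := by
          apply mul_le_mul_of_nonneg_right _ (by positivity)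
          rw [hw]
          by_cases h0 : (((unread F Aᶜ z).card.choose mS : ℕ) : ℚ) = 0
          · rw [h0]; simp
          · rw [mul_inv_cancel₀ h0]
      _ = _ := by push_cast; ring
  rw [e1]
  refine e2.trans ((sum_le_sum fun z _ => e4 z).trans ?_)
  rw [sum_const, card_univ, Fintype.card_fun, Fintype.card_bool, Fintype.card_fin, nsmul_eq_mul]
  push_cast
  exact le_of_eq (by ring)

lemma sum_bad1 (F : Forest (Fin n) r) (A B : Finset (Fin r)) (X : Finset (Fin n → Bool))
    (hX : ∀ x ∈ X, x ∈ F.all) (mS mT t1 K : ℕ) (hT : ∀ x ∈ X, mT ≤ (unread F Bᶜ x).card)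
    (hS : ∀ x ∈ X, mS ≤ (unread F Aᶜ x).card)
    (hK : ∀ x ∈ X, (unread F (A ∪ B)ᶜ x).card.choose mS ≤ K * (unread F Aᶜ x).card.choose mS) :
    2 ^ mT * ∑ x ∈ X, ∑ S ∈ powersetCard mS (unread F Aᶜ x),
      (if (X.filter (fun y => Off (pick mT (unread F Bᶜ x)) x y ∧ S ⊆ unread F Aᶜ y)).card ≤ t1
        then (((unread F Aᶜ x).card.choose mS : ℕ) : ℚ)⁻¹ else 0) ≤
    t1 * K * 2 ^ n := by
  classical
  set T0 : (Fin n → Bool) → Finset (Fin n) := fun x => pick mT (unread F Bᶜ x) with hT0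
  set P : (Fin n → Bool) → Finset (Fin n) → Prop := fun x S =>
    (X.filter (fun y => Off (T0 x) x y ∧ S ⊆ unread F Aᶜ y)).card ≤ t1 with hP
  have hT0c : ∀ x ∈ X, T0 x ⊆ unread F Bᶜ x ∧ (T0 x).card = mT := fun x hx => pick_spec (hT x hx)
  have hw : ∀ x ∈ X, (((unread F Aᶜ x).card.choose mS : ℕ) : ℚ)⁻¹ ≤
      K * (((unread F (A ∪ B)ᶜ x).card.choose mS : ℕ) : ℚ)⁻¹ := by
    intro x hx
    have h1 : 0 < (unread F Aᶜ x).card.choose mS := Nat.choose_pos (hS x hx)
    have hsub : unread F Aᶜ x ⊆ unread F (A ∪ B)ᶜ x := by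
      apply unread_anti
      intro i hi
      rw [mem_compl] at hi ⊢
      exact fun h => hi (mem_union_left _ h)
    have h2 : 0 < (unread F (A ∪ B)ᶜ x).card.choose mS :=
      Nat.choose_pos ((hS x hx).trans (card_le_card hsub))
    have h1' : (0 : ℚ) < ((unread F Aᶜ x).card.choose mS : ℕ) := by exact_mod_cast h1
    have h2' : (0 : ℚ) < ((unread F (A ∪ B)ᶜ x).card.choose mS : ℕ) := by exact_mod_cast h2
    rw [← div_eq_mul_inv, le_div_iff₀ h2', inv_mul_le_iff₀ h1', mul_comm]
    exact_mod_cast hK x hx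
  have e1 : 2 ^ mT * ∑ x ∈ X, ∑ S ∈ powersetCard mS (unread F Aᶜ x),
      (if P x S then (((unread F Aᶜ x).card.choose mS : ℕ) : ℚ)⁻¹ else 0) =
      ∑ x ∈ X, ∑ z ∈ univ.filter (fun z => Off (T0 x) x z),
        ∑ S ∈ powersetCard mS (unread F Aᶜ x),
        (if P x S then (((unread F Aᶜ x).card.choose mS : ℕ) : ℚ)⁻¹ else 0) := by
    rw [mul_sum]
    refine sum_congr rfl fun x hx => ?_
    rw [sum_const, card_off, (hT0c x hx).2, nsmul_eq_mul]
    push_cast
    rfl
  have e2 : ∑ x ∈ X, ∑ z ∈ univ.filter (fun z => Off (T0 x) x z),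
        ∑ S ∈ powersetCard mS (unread F Aᶜ x),
        (if P x S then (((unread F Aᶜ x).card.choose mS : ℕ) : ℚ)⁻¹ else 0) ≤
      ∑ z : Fin n → Bool, ∑ S ∈ powersetCard mS (unread F (A ∪ B)ᶜ z),
        ∑ _x ∈ X.filter (fun x => Off (T0 z) z x ∧ T0 x = T0 z ∧ S ⊆ unread F Aᶜ x ∧ P x S),
          K * (((unread F (A ∪ B)ᶜ z).card.choose mS : ℕ) : ℚ)⁻¹ := by
    have l1 : ∀ x ∈ X, ∑ z ∈ univ.filter (fun z => Off (T0 x) x z),
        ∑ S ∈ powersetCard mS (unread F Aᶜ x),
        (if P x S then (((unread F Aᶜ x).card.choose mS : ℕ) : ℚ)⁻¹ else 0) =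
      ∑ z : Fin n → Bool, ∑ S ∈ (univ : Finset (Finset (Fin n))),
        (if S ∈ powersetCard mS (unread F Aᶜ x) ∧ Off (T0 x) x z ∧ P x S then
          (((unread F Aᶜ x).card.choose mS : ℕ) : ℚ)⁻¹ else 0) := by
      intro x hx
      rw [sum_filter]
      refine sum_congr rfl fun z _ => ?_
      rw [← sum_filter_add_sum_filter_not univ
        (fun S => S ∈ powersetCard mS (unread F Aᶜ x))]
      have h0 : ∑ S ∈ univ.filter (fun S => ¬ S ∈ powersetCard mS (unread F Aᶜ x)),
          (if S ∈ powersetCard mS (unread F Aᶜ x) ∧ Off (T0 x) x z ∧ P x S then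
          (((unread F Aᶜ x).card.choose mS : ℕ) : ℚ)⁻¹ else 0) = 0 := by
        refine sum_eq_zero fun S hS => if_neg fun h => ?_
        exact (mem_filter.1 hS).2 h.1
      rw [h0, add_zero]
      have h1 : univ.filter (fun S => S ∈ powersetCard mS (unread F Aᶜ x)) =
          powersetCard mS (unread F Aᶜ x) := by
        ext S; simp
      rw [h1]
      by_cases hz : Off (T0 x) x z
      · rw [if_pos hz]
        refine sum_congr rfl fun S hS => ?_
        by_cases hp : P x S <;> simp [hz, hp, hS]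
      · rw [if_neg hz, sum_eq_zero]
        intro S _
        rw [if_neg]
        exact fun h => hz h.2.1
    have l2 : ∀ z : Fin n → Bool, ∑ S ∈ powersetCard mS (unread F (A ∪ B)ᶜ z),
        ∑ _x ∈ X.filter (fun x => Off (T0 z) z x ∧ T0 x = T0 z ∧ S ⊆ unread F Aᶜ x ∧ P x S),
          K * (((unread F (A ∪ B)ᶜ z).card.choose mS : ℕ) : ℚ)⁻¹ =
        ∑ x ∈ X, ∑ S ∈ (univ : Finset (Finset (Fin n))),
        (if S ∈ powersetCard mS (unread F (A ∪ B)ᶜ z) ∧ Off (T0 z) z x ∧ T0 x = T0 z ∧
          S ⊆ unread F Aᶜ x ∧ P x S then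
          K * (((unread F (A ∪ B)ᶜ z).card.choose mS : ℕ) : ℚ)⁻¹ else 0) := by
      intro z
      rw [sum_comm, ← sum_filter_add_sum_filter_not univ
        (fun S => S ∈ powersetCard mS (unread F (A ∪ B)ᶜ z))]
      have h0 : ∑ S ∈ univ.filter (fun S => ¬ S ∈ powersetCard mS (unread F (A ∪ B)ᶜ z)),
          ∑ x ∈ X,
          (if S ∈ powersetCard mS (unread F (A ∪ B)ᶜ z) ∧ Off (T0 z) z x ∧ T0 x = T0 z ∧
          S ⊆ unread F Aᶜ x ∧ P x S then
          K * (((unread F (A ∪ B)ᶜ z).card.choose mS : ℕ) : ℚ)⁻¹ else 0) = 0 := by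
        refine sum_eq_zero fun S hS => sum_eq_zero fun z _ => if_neg fun h => ?_
        exact (mem_filter.1 hS).2 h.1
      rw [h0, add_zero]
      have h1 : univ.filter (fun S => S ∈ powersetCard mS (unread F (A ∪ B)ᶜ z)) =
          powersetCard mS (unread F (A ∪ B)ᶜ z) := by
        ext S; simp
      rw [h1]
      refine sum_congr rfl fun S hS => ?_
      rw [sum_filter]
      refine sum_congr rfl fun x _ => ?_
      by_cases hz : Off (T0 z) z x ∧ T0 x = T0 z ∧ S ⊆ unread F Aᶜ x ∧ P x S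
      · rw [if_pos hz, if_pos ⟨hS, hz⟩]
      · rw [if_neg hz, if_neg fun h => hz h.2]
    rw [sum_congr rfl l1, sum_congr rfl fun z _ => l2 z]
    conv_rhs => rw [sum_comm]
    refine sum_le_sum fun x hx => sum_le_sum fun z _ => sum_le_sum fun S _ => ?_
    by_cases h : S ∈ powersetCard mS (unread F Aᶜ x) ∧ Off (T0 x) x z ∧ P x S
    · rw [if_pos h]
      obtain ⟨h1, h2, h3⟩ := h
      obtain ⟨hSx, hSc⟩ := mem_powersetCard.1 h1
      have hu : unread F Bᶜ z = unread F Bᶜ x :=
        unread_eq (hX x hx) (hT0c x hx).1 h2 (Subset.refl _)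
      have hu' : unread F (A ∪ B)ᶜ z = unread F (A ∪ B)ᶜ x := by
        apply unread_eq (hX x hx) (hT0c x hx).1 h2
        intro i hi
        rw [mem_compl] at hi ⊢
        exact fun h => hi (mem_union_right _ h)
      have hT : T0 z = T0 x := by simp only [hT0, hu]
      have hsub : unread F Aᶜ x ⊆ unread F (A ∪ B)ᶜ x := by
        apply unread_anti
        intro i hi
        rw [mem_compl] at hi ⊢
        exact fun h => hi (mem_union_left _ h)
      rw [if_pos, hu']
      · exact hw x hx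
      · refine ⟨?_, ?_, hT.symm, hSx, h3⟩
        · rw [hu']
          exact mem_powersetCard.2 ⟨hSx.trans hsub, hSc⟩
        · rw [hT]; exact h2.symm
    · rw [if_neg h]
      split_ifs
      · positivity
      · exact le_rfl
  have e3 : ∀ z : Fin n → Bool, ∀ S,
      (X.filter (fun x => Off (T0 z) z x ∧ T0 x = T0 z ∧ S ⊆ unread F Aᶜ x ∧ P x S)).card ≤ t1 := by
    intro z S
    rcases (X.filter (fun x => Off (T0 z) z x ∧ T0 x = T0 z ∧ S ⊆ unread F Aᶜ x ∧
      P x S)).eq_empty_or_nonempty with h | ⟨x0, hx0⟩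
    · rw [h]; simp
    · obtain ⟨h2, h3, h4, h5, h6⟩ := mem_filter.1 hx0
      refine le_trans (card_le_card ?_) h6
      intro y hy
      obtain ⟨g2, g3, g4, g5, g6⟩ := mem_filter.1 hy
      refine mem_filter.2 ⟨g2, ?_, g5⟩
      rw [h4]
      exact (h3.symm).trans g3
  have e4 : ∀ z : Fin n → Bool, ∑ S ∈ powersetCard mS (unread F (A ∪ B)ᶜ z),
        ∑ _x ∈ X.filter (fun x => Off (T0 z) z x ∧ T0 x = T0 z ∧ S ⊆ unread F Aᶜ x ∧ P x S),
          K * (((unread F (A ∪ B)ᶜ z).card.choose mS : ℕ) : ℚ)⁻¹ ≤ t1 * K := by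
    intro z
    set w : ℚ := (((unread F (A ∪ B)ᶜ z).card.choose mS : ℕ) : ℚ)⁻¹ with hw
    have hw0 : 0 ≤ w := by positivity
    calc ∑ S ∈ powersetCard mS (unread F (A ∪ B)ᶜ z),
        ∑ _x ∈ X.filter (fun x => Off (T0 z) z x ∧ T0 x = T0 z ∧ S ⊆ unread F Aᶜ x ∧ P x S), K * w
        ≤ ∑ S ∈ powersetCard mS (unread F (A ∪ B)ᶜ z), (t1 : ℚ) * (K * w) := by
          refine sum_le_sum fun S _ => ?_
          rw [sum_const, nsmul_eq_mul]
          exact mul_le_mul_of_nonneg_right (by exact_mod_cast e3 z S) (by positivity)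
      _ = ((unread F (A ∪ B)ᶜ z).card.choose mS : ℕ) * w * (t1 * K) := by
          rw [sum_const, card_powersetCard, nsmul_eq_mul]; ring
      _ ≤ 1 * (t1 * K) := by
          apply mul_le_mul_of_nonneg_right _ (by positivity)
          rw [hw]
          by_cases h0 : (((unread F (A ∪ B)ᶜ z).card.choose mS : ℕ) : ℚ) = 0
          · rw [h0]; simp
          · rw [mul_inv_cancel₀ h0]
      _ = _ := by ring
  rw [e1]
  refine e2.trans ((sum_le_sum fun z _ => e4 z).trans ?_)
  rw [sum_const, card_univ, Fintype.card_fun, Fintype.card_bool, Fintype.card_fin, nsmul_eq_mul]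
  push_cast
  exact le_of_eq (by ring)

/-- The popularity argument. -/
theorem core (F : Forest (Fin n) r) (hcov : ∀ x j, ∃ i, j ∈ F.V i x) (A B : Finset (Fin r))
    (hAB : Disjoint A B) (X : Finset (Fin n → Bool)) (hX : ∀ x ∈ X, x ∈ F.all)
    (mS mT t1 t2 K : ℕ) (hT : ∀ x ∈ X, mT ≤ (unread F Bᶜ x).card)
    (hS : ∀ x ∈ X, mS ≤ (unread F Aᶜ x).card)
    (hK : ∀ x ∈ X, (unread F (A ∪ B)ᶜ x).card.choose mS ≤ K * (unread F Aᶜ x).card.choose mS)
    (h2 : 2 * (t2 * n.choose mT * 2 ^ n) < X.card * 2 ^ mS)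
    (h1 : 2 * (t1 * K * 2 ^ n) < X.card * 2 ^ mT) :
    ∃ (x : Fin n → Bool) (S T : Finset (Fin n)) (F2 F1 : Finset (Fin n → Bool)),
      Disjoint S T ∧ S.card = mS ∧ T.card = mT ∧ t2 < F2.card ∧ t1 < F1.card ∧
      (∀ y ∈ F2, Off S x y) ∧ (∀ y ∈ F1, Off T x y) ∧
      ∀ y ∈ F2, ∀ y' ∈ F1, (fun j => if j ∈ S then y j else y' j) ∈ F.all := by
  classical
  set T0 : (Fin n → Bool) → Finset (Fin n) := fun x => pick mT (unread F Bᶜ x) with hT0
  have hT0c : ∀ x ∈ X, T0 x ⊆ unread F Bᶜ x ∧ (T0 x).card = mT := fun x hx => pick_spec (hT x hx)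
  -- a good pair
  obtain ⟨x, hx, S, hS', hb2, hb1⟩ : ∃ x ∈ X, ∃ S ∈ powersetCard mS (unread F Aᶜ x),
      t2 < (X.filter (fun y => Off S x y ∧ T0 y = T0 x)).card ∧
      t1 < (X.filter (fun y => Off (T0 x) x y ∧ S ⊆ unread F Aᶜ y)).card := by
    by_contra hcon
    push Not at hcon
    have e2 := sum_bad2 F A B X hX mS mT t2 hT
    have e1 := sum_bad1 F A B X hX mS mT t1 K hT hS hK
    set w : (Fin n → Bool) → ℚ := fun x => (((unread F Aᶜ x).card.choose mS : ℕ) : ℚ)⁻¹ with hw
    set s2 := ∑ x ∈ X, ∑ S ∈ powersetCard mS (unread F Aᶜ x),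
      (if (X.filter (fun y => Off S x y ∧ T0 y = T0 x)).card ≤ t2 then w x else 0) with hs2
    set s1 := ∑ x ∈ X, ∑ S ∈ powersetCard mS (unread F Aᶜ x),
      (if (X.filter (fun y => Off (T0 x) x y ∧ S ⊆ unread F Aᶜ y)).card ≤ t1 then w x else 0)
      with hs1
    have e0 : (X.card : ℚ) ≤ s2 + s1 := by
      have : (X.card : ℚ) = ∑ x ∈ X, ∑ _S ∈ powersetCard mS (unread F Aᶜ x), w x := by
        rw [card_eq_sum_ones, Nat.cast_sum]
        refine sum_congr rfl fun x hx => ?_
        rw [sum_const, card_powersetCard, nsmul_eq_mul, hw, Nat.cast_one, mul_inv_cancel₀]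
        have : 0 < (unread F Aᶜ x).card.choose mS := Nat.choose_pos (hS x hx)
        exact_mod_cast this.ne'
      rw [this, hs2, hs1, ← sum_add_distrib]
      refine sum_le_sum fun x hx => ?_
      rw [← sum_add_distrib]
      refine sum_le_sum fun S hS' => ?_
      have hw0 : 0 ≤ w x := by simp only [hw]; positivity
      by_cases g2 : (X.filter (fun y => Off S x y ∧ T0 y = T0 x)).card ≤ t2
      · rw [if_pos g2]
        split_ifs <;> linarith
      · rw [if_neg g2, if_pos (hcon x hx S hS' (not_le.1 g2))]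
        linarith
    have h2' : (2 : ℚ) * (t2 * n.choose mT * 2 ^ n) < X.card * 2 ^ mS := by exact_mod_cast h2
    have h1' : (2 : ℚ) * (t1 * K * 2 ^ n) < X.card * 2 ^ mT := by exact_mod_cast h1
    have p2 : (0 : ℚ) < 2 ^ mS := by positivity
    have p1 : (0 : ℚ) < 2 ^ mT := by positivity
    have f2 : 2 * s2 < X.card := by
      have : 2 ^ mS * (2 * s2) < 2 ^ mS * (X.card : ℚ) := by
        calc 2 ^ mS * (2 * s2) = 2 * (2 ^ mS * s2) := by ring
          _ ≤ 2 * (t2 * n.choose mT * 2 ^ n) := by linarith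
          _ < X.card * 2 ^ mS := h2'
          _ = _ := by ring
      exact lt_of_mul_lt_mul_left this p2.le
    have f1 : 2 * s1 < X.card := by
      have : 2 ^ mT * (2 * s1) < 2 ^ mT * (X.card : ℚ) := by
        calc 2 ^ mT * (2 * s1) = 2 * (2 ^ mT * s1) := by ring
          _ ≤ 2 * (t1 * K * 2 ^ n) := by linarith
          _ < X.card * 2 ^ mT := h1'
          _ = _ := by ring
      exact lt_of_mul_lt_mul_left this p1.le
    linarith
  obtain ⟨hSx, hSc⟩ := mem_powersetCard.1 hS'
  refine ⟨x, S, T0 x, _, _, ?_, hSc, (hT0c x hx).2, hb2, hb1, ?_, ?_, ?_⟩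
  · rw [disjoint_left]
    intro j hj hj'
    obtain ⟨i, hi⟩ := hcov x j
    have g1 := mem_unread.1 (hSx hj) i
    have g2 := mem_unread.1 ((hT0c x hx).1 hj') i
    by_cases hA : i ∈ A
    · have : i ∈ Bᶜ := by
        rw [mem_compl]; exact fun hB => (disjoint_left.1 hAB) hA hB
      exact g2 this hi
    · exact g1 (by rw [mem_compl]; exact hA) hi
  · intro y hy; exact (mem_filter.1 hy).2.1
  · intro y hy; exact (mem_filter.1 hy).2.1
  · intro y hy y' hy' i
    obtain ⟨hyX, hy1, hy2⟩ := mem_filter.1 hy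
    obtain ⟨hyX', hy1', hy2'⟩ := mem_filter.1 hy'
    have hSy' : Off S y' (fun j => if j ∈ S then y j else y' j) := by
      intro j hj; simp only [if_neg hj]
    have hTy : Off (T0 x) y (fun j => if j ∈ S then y j else y' j) := by
      intro j hj
      by_cases hjS : j ∈ S
      · simp only [if_pos hjS]
      · simp only [if_neg hjS]
        rw [hy1' j hj, hy1 j hjS]
    by_cases hA : i ∈ A
    · -- as on y
      have hB : i ∈ Bᶜ := by
        rw [mem_compl]; exact fun hB => (disjoint_left.1 hAB) hA hB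
      have hsub : T0 x ⊆ unread F Bᶜ y := by rw [← hy2]; exact (hT0c y hyX).1
      exact (tree_eq (hX y hyX) hsub hTy hB).1
    · exact (tree_eq (hX y' hyX') hy2' hSy' (by rw [mem_compl]; exact hA)).1

end Pool.Agent.TS
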