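import Pool.Agent.TS.Defs

/-! Cutting the derivation tree of an accepting computation of a stack machine into pieces. -/

namespace Pool.Agent.TS

open Finset

variable {I Q R : Type}

/-- A run of a piece: started at `q` with the list `h`, the piece returns `v` and leaves the list
`g`; an entry `none` stands for an executed instruction, an entry `some (q, v)` for a hole (a run
from `q` to `v` described by another piece). `V` is the set of variables read. -/
inductive PRun [DecidableEq I] (M : Machine I Q R) (y : I → Bool) :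
    List (Option (Q × R)) → Q → R → List (Option (Q × R)) → Finset I → Prop
  | hole {q : Q} {v : R} {g : List (Option (Q × R))} : PRun M y (some (q, v) :: g) q v g ∅
  | ret {q : Q} {v : R} {g : List (Option (Q × R))} : M.code q = .ret v →
      PRun M y (none :: g) q v g ∅
  | read {q : Q} {i : I} {k : Bool → Q} {v : R} {h g : List (Option (Q × R))} {V : Finset I} :
      M.code q = .read i k → PRun M y h (k (y i)) v g V →
      PRun M y (none :: h) q v g (insert i V)
  | call {q p : Q} {k : R → Q} {u v : R} {h h' g : List (Option (Q × R))} {V V' : Finset I} :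
      M.code q = .call p k → PRun M y h p u h' V → PRun M y h' (k u) v g V' →
      PRun M y (none :: h) q v g (V ∪ V')

variable [DecidableEq I] {M : Machine I Q R} {y z : I → Bool}

lemma PRun.det {h : List (Option (Q × R))} {q : Q} {v : R} {g : List (Option (Q × R))}
    {V : Finset I} (H : PRun M y h q v g V) :
    ∀ {v' : R} {g' : List (Option (Q × R))} {V' : Finset I}, PRun M y h q v' g' V' →
      v = v' ∧ g = g' ∧ V = V' := by
  induction H with
  | hole =>
    intro v' g' V' H'
    cases H' with
    | hole => exact ⟨rfl, rfl, rfl⟩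
  | ret hc =>
    intro v' g' V' H'
    cases H' with
    | ret hc' =>
      rw [hc] at hc'
      injection hc' with e
      exact ⟨e, rfl, rfl⟩
    | read hc' _ => rw [hc] at hc'; exact absurd hc' (by simp)
    | call hc' _ _ => rw [hc] at hc'; exact absurd hc' (by simp)
  | read hc _ ih =>
    intro v' g' V' H'
    cases H' with
    | ret hc' => rw [hc] at hc'; exact absurd hc' (by simp)
    | read hc' H2 =>
      rw [hc] at hc'
      injection hc' with e1 e2
      subst e1 e2
      obtain ⟨a, b, c⟩ := ih H2
      exact ⟨a, b, by rw [c]⟩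
    | call hc' _ _ => rw [hc] at hc'; exact absurd hc' (by simp)
  | call hc _ _ ih1 ih2 =>
    intro v' g' V' H'
    cases H' with
    | ret hc' => rw [hc] at hc'; exact absurd hc' (by simp)
    | read hc' _ => rw [hc] at hc'; exact absurd hc' (by simp)
    | call hc' H1 H2 =>
      rw [hc] at hc'
      injection hc' with e1 e2
      subst e1 e2
      obtain ⟨a, b, c⟩ := ih1 H1
      subst a b c
      obtain ⟨a, b, c⟩ := ih2 H2
      exact ⟨a, b, by rw [c]⟩

lemma PRun.loc {h : List (Option (Q × R))} {q : Q} {v : R} {g : List (Option (Q × R))}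
    {V : Finset I} (H : PRun M y h q v g V) :
    (∀ j ∈ V, z j = y j) → PRun M z h q v g V := by
  induction H with
  | hole => intro _; exact PRun.hole
  | ret hc => intro _; exact PRun.ret hc
  | @read q i k v h g V hc _ ih =>
    intro hz
    refine PRun.read hc ?_
    rw [hz i (mem_insert_self _ _)]
    exact ih (fun j hj => hz j (mem_insert_of_mem hj))
  | call hc _ _ ih1 ih2 =>
    intro hz
    exact PRun.call hc (ih1 (fun j hj => hz j (mem_union_left _ hj)))
      (ih2 (fun j hj => hz j (mem_union_right _ hj)))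

lemma PRun.card_le {h : List (Option (Q × R))} {q : Q} {v : R} {g : List (Option (Q × R))}
    {V : Finset I} (H : PRun M y h q v g V) : V.card + g.length ≤ h.length := by
  induction H with
  | hole => simp
  | ret hc => simp
  | @read q i k v h g V hc _ ih =>
    have := card_insert_le i V
    simp only [List.length_cons]
    omega
  | @call q p k u v h h' g V V' hc _ _ ih1 ih2 =>
    have := card_union_le V V'
    simp only [List.length_cons]
    omega

lemma PRun.suffix {h : List (Option (Q × R))} {q : Q} {v : R} {g : List (Option (Q × R))}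
    {V : Finset I} (H : PRun M y h q v g V) : ∀ a ∈ g, a ∈ h := by
  induction H with
  | hole => intro a ha; exact List.mem_cons_of_mem _ ha
  | ret hc => intro a ha; exact List.mem_cons_of_mem _ ha
  | read hc _ ih => intro a ha; exact List.mem_cons_of_mem _ (ih a ha)
  | call hc _ _ ih1 ih2 => intro a ha; exact List.mem_cons_of_mem _ (ih1 a (ih2 a ha))

lemma PRun.sound {h : List (Option (Q × R))} {q : Q} {v : R} {g : List (Option (Q × R))}
    {V : Finset I} (H : PRun M y h q v g V) :
    (∀ q' v', some (q', v') ∈ h → ∃ t, M.Runs y q' v' t) → ∃ t, M.Runs y q v t := by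
  induction H with
  | hole => intro hh; exact hh _ _ (List.mem_cons_self ..)
  | ret hc => intro _; exact ⟨1, Machine.Runs.ret hc⟩
  | read hc _ ih =>
    intro hh
    obtain ⟨t, ht⟩ := ih (fun q' v' hm => hh q' v' (List.mem_cons_of_mem _ hm))
    exact ⟨t + 1, Machine.Runs.read hc ht⟩
  | call hc H1 _ ih1 ih2 =>
    intro hh
    obtain ⟨t, ht⟩ := ih1 (fun q' v' hm => hh q' v' (List.mem_cons_of_mem _ hm))
    obtain ⟨t', ht'⟩ := ih2 (fun q' v' hm => hh q' v'
      (List.mem_cons_of_mem _ (H1.suffix _ hm)))
    exact ⟨t + t' + 1, Machine.Runs.call hc ht ht'⟩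

lemma PRun.append {h : List (Option (Q × R))} {q : Q} {v : R} {g : List (Option (Q × R))}
    {V : Finset I} (H : PRun M y h q v g V) (a : List (Option (Q × R))) :
    PRun M y (h ++ a) q v (g ++ a) V := by
  induction H with
  | hole => exact PRun.hole
  | ret hc => exact PRun.ret hc
  | read hc _ ih => exact PRun.read hc ih
  | call hc _ _ ih1 ih2 => exact PRun.call hc ih1 ih2

/-- number of holes -/
def holes (h : List (Option (Q × R))) : ℕ := h.countP Option.isSome

/-- A list of completed pieces, the last one first. -/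
def Valid (M : Machine I Q R) (y : I → Bool) (l : ℕ) :
    List ((Q × R) × List (Option (Q × R))) → Prop
  | [] => True
  | p :: L => Valid M y l L ∧ (∃ V, PRun M y p.2 p.1.1 p.1.2 [] V) ∧ p.2.length ≤ 2 * l + 1 ∧
      ∀ a, some a ∈ p.2 → a ∈ L.map Prod.fst

lemma Valid.append {l : ℕ} {L L' : List ((Q × R) × List (Option (Q × R)))}
    (h : Valid M y l L) (h' : Valid M y l L') : Valid M y l (L ++ L') := by
  induction L with
  | nil => exact h'
  | cons p L ih =>
    obtain ⟨h1, h2, h3, h4⟩ := h
    refine ⟨ih h1, h2, h3, ?_⟩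
    intro a ha
    change a ∈ (L ++ L').map Prod.fst
    rw [List.map_append, List.mem_append]
    exact Or.inl (h4 a ha)

/-- total number of holes -/
def tholes (L : List ((Q × R) × List (Option (Q × R)))) : ℕ := (L.map (fun p => holes p.2)).sum

/-- The invariant: completed pieces `L` and a top fragment `h`. -/
structure Frag (M : Machine I Q R) (y : I → Bool) (l : ℕ) (q : Q) (v : R) (t : ℕ)
    (L : List ((Q × R) × List (Option (Q × R)))) (h : List (Option (Q × R))) : Prop where
  valid : Valid M y l L
  run : ∃ V, PRun M y h q v [] V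
  mem : ∀ a, some a ∈ h → a ∈ L.map Prod.fst
  count : tholes L + holes h = L.length
  size : L.length * l + h.length ≤ t
  pos : 0 < h.length

/-- Complete the top fragment if it is too long. -/
lemma Frag.shrink {l : ℕ} {q : Q} {v : R} {t : ℕ}
    {L : List ((Q × R) × List (Option (Q × R)))} {h : List (Option (Q × R))}
    (hf : Frag M y l q v t L h) (hl : 0 < l) (hlen : h.length ≤ 2 * l + 1) :
    ∃ L' h', Frag M y l q v t L' h' ∧ h'.length ≤ l := by
  by_cases hs : h.length ≤ l
  · exact ⟨L, h, hf, hs⟩
  · refine ⟨((q, v), h) :: L, [some (q, v)], ?_, by simp; omega⟩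
    refine ⟨⟨hf.valid, hf.run, hlen, hf.mem⟩, ⟨∅, PRun.hole⟩, ?_, ?_, ?_, by simp⟩
    · intro a ha
      simp only [List.mem_singleton, Option.some.injEq] at ha
      subst ha
      simp
    · have := hf.count
      simp only [tholes, holes, List.map_cons, List.sum_cons, List.length_cons] at this ⊢
      simp only [List.countP_cons, List.countP_nil, Option.isSome_some]
      simp only [if_true]
      omega
    · have := hf.size
      simp only [List.length_cons, List.length_nil]
      rw [Nat.succ_mul]
      omega

lemma exists_frag {l : ℕ} (hl : 0 < l) {q : Q} {v : R} {t : ℕ} (H : M.Runs y q v t) :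
    ∃ L h, Frag M y l q v t L h ∧ h.length ≤ l := by
  induction H with
  | @ret q v hc =>
    refine ⟨[], [none], ⟨trivial, ⟨∅, PRun.ret hc⟩, ?_, ?_, ?_, by simp⟩, by simp; omega⟩
    · intro a ha; simp at ha
    · simp [tholes, holes]
    · simp
  | @read q i k v t hc _ ih =>
    obtain ⟨L, h, hf, hlen⟩ := ih
    obtain ⟨V, hV⟩ := hf.run
    have hf' : Frag M y l q v (t + 1) L (none :: h) := by
      refine ⟨hf.valid, ⟨_, PRun.read hc hV⟩, ?_, ?_, ?_, by simp⟩
      · intro a ha
        rcases List.mem_cons.mp ha with h1 | h1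
        · exact absurd h1 (by simp)
        · exact hf.mem a h1
      · have := hf.count
        simp only [holes] at this ⊢
        simp only [List.countP_cons, Option.isSome_none]
        simpa using this
      · have := hf.size
        simp only [List.length_cons]
        omega
    exact hf'.shrink hl (by simp only [List.length_cons]; omega)
  | @call q p k u v t t' hc _ _ ih1 ih2 =>
    obtain ⟨L1, h1, hf1, hlen1⟩ := ih1
    obtain ⟨L2, h2, hf2, hlen2⟩ := ih2
    obtain ⟨V1, hV1⟩ := hf1.run
    obtain ⟨V2, hV2⟩ := hf2.run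
    have hf' : Frag M y l q v (t + t' + 1) (L1 ++ L2) (none :: (h1 ++ h2)) := by
      refine ⟨hf1.valid.append hf2.valid, ⟨V1 ∪ V2, PRun.call hc (hV1.append h2) ?_⟩,
        ?_, ?_, ?_, by simp⟩
      · simpa using hV2
      · intro a ha
        rw [List.map_append, List.mem_append]
        rcases List.mem_cons.mp ha with h | h
        · exact absurd h (by simp)
        · rcases List.mem_append.mp h with h | h
          · exact Or.inl (hf1.mem a h)
          · exact Or.inr (hf2.mem a h)
      · have e1 := hf1.count
        have e2 := hf2.count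
        simp only [tholes, holes] at e1 e2 ⊢
        simp only [List.countP_cons, Option.isSome_none, List.map_append, List.sum_append,
          List.countP_append, List.length_append]
        simp only [Bool.false_eq_true, if_false]
        omega
      · have e1 := hf1.size
        have e2 := hf2.size
        simp only [List.length_cons, List.length_append]
        rw [Nat.add_mul]
        omega
    refine hf'.shrink hl ?_
    simp only [List.length_cons, List.length_append]
    omega

/-- Padding by pieces that consist of one hole. -/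
lemma exists_pieces {l r : ℕ} (hl : 0 < l) {q : Q} {v : R} {t : ℕ} (H : M.Runs y q v t)
    (ht : t ≤ r * l) :
    ∃ L : List ((Q × R) × List (Option (Q × R))), Valid M y l L ∧ L.length = r + 1 ∧
      tholes L = r ∧ (L.map Prod.fst).head? = some (q, v) := by
  obtain ⟨L, h, hf, hlen⟩ := exists_frag hl H
  have hr : L.length < r := by
    have h1 := hf.size
    have h2 := hf.pos
    have h3 : L.length * l < r * l := by omega
    exact lt_of_mul_lt_mul_right h3 (Nat.zero_le _)
  -- `n` extra pieces
  have key : ∀ n : ℕ, ∃ L' : List ((Q × R) × List (Option (Q × R))), Valid M y l L' ∧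
      L'.length = L.length + 1 + n ∧ tholes L' = L.length + n ∧
      (L'.map Prod.fst).head? = some (q, v) := by
    intro n
    induction n with
    | zero =>
      refine ⟨((q, v), h) :: L, ⟨hf.valid, hf.run, ?_, hf.mem⟩, by simp, ?_, by simp⟩
      · change h.length ≤ 2 * l + 1
        omega
      have := hf.count
      simp only [tholes, List.map_cons, List.sum_cons] at this ⊢
      omega
    | succ n ih =>
      obtain ⟨L', h1, h2, h3, h4⟩ := ih
      refine ⟨((q, v), [some (q, v)]) :: L', ⟨h1, ⟨∅, PRun.hole⟩, ?_, ?_⟩, ?_, ?_, by simp⟩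
      · simp
      · intro a ha
        simp only [List.mem_singleton, Option.some.injEq] at ha
        subst ha
        exact List.mem_of_mem_head? h4
      · simp only [List.length_cons, h2]
        omega
      · simp only [tholes, holes, List.map_cons, List.sum_cons] at h3 ⊢
        simp only [List.countP_cons, List.countP_nil, Option.isSome_some]
        simp only [if_true]
        omega
  obtain ⟨L', h1, h2, h3, h4⟩ := key (r - L.length)
  exact ⟨L', h1, by omega, by omega, h4⟩

/-! ### Profiles -/

/-- A profile: roots and lengths of the `r + 1` pieces and the places and contents of the holes. -/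
abbrev Prof (Q R : Type) (l r : ℕ) : Type :=
  (Fin (r + 1) → Q × R) × (Fin (r + 1) → Fin (2 * l + 2)) ×
    (Fin r → Option ((Fin (r + 1) × Fin (2 * l + 1)) × (Q × R)))

namespace Prof

variable {l r : ℕ}

open Classical in
/-- the hole at a place -/
noncomputable def val (p : Prof Q R l r) (i : Fin (r + 1)) (c : Fin (2 * l + 1)) :
    Option (Q × R) :=
  if h : ∃ y, ∃ a, p.2.2 a = some ((i, c), y) then some h.choose else none

/-- the list of a piece -/
noncomputable def hl (p : Prof Q R l r) (i : Fin (r + 1)) : List (Option (Q × R)) :=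
  List.ofFn (fun c : Fin (p.2.1 i : ℕ) => p.val i ⟨c, by
    have := c.isLt
    have := (p.2.1 i).isLt
    omega⟩)

lemma length_hl (p : Prof Q R l r) (i : Fin (r + 1)) : (p.hl i).length ≤ 2 * l + 1 := by
  have := (p.2.1 i).isLt
  rw [hl, List.length_ofFn]
  omega

/-- consistency of a profile -/
def ok (M : Machine I Q R) (p : Prof Q R l r) : Prop :=
  (p.1 0).1 = M.start ∧ M.acc (p.1 0).2 ∧
    ∀ i a, some a ∈ p.hl i → ∃ j, i < j ∧ p.1 j = a

open Classical in
/-- the forest of a profile -/
noncomputable def forest (M : Machine I Q R) (p : Prof Q R l r) : Forest I (r + 1) where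
  dom i := {x | p.ok M ∧ ∃ V, PRun M x (p.hl i) (p.1 i).1 (p.1 i).2 [] V}
  V i x := if h : ∃ V, PRun M x (p.hl i) (p.1 i).1 (p.1 i).2 [] V then h.choose else ∅
  loc := by
    intro i x z hx hz
    obtain ⟨hok, hV⟩ := hx
    rw [dif_pos hV] at hz
    have h1 := hV.choose_spec
    have h2 := h1.loc hz
    refine ⟨⟨hok, _, h2⟩, ?_⟩
    have hV' : ∃ V, PRun M z (p.hl i) (p.1 i).1 (p.1 i).2 [] V := ⟨_, h2⟩
    rw [dif_pos hV', dif_pos hV]
    exact (hV'.choose_spec.det h2).2.2

lemma card_V (M : Machine I Q R) (p : Prof Q R l r) (x : I → Bool) (i : Fin (r + 1)) :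
    ((p.forest M).V i x).card ≤ 2 * l + 1 := by
  classical
  change (if h : ∃ V, PRun M x (p.hl i) (p.1 i).1 (p.1 i).2 [] V then h.choose
    else ∅ : Finset I).card ≤ _
  split_ifs with h
  · have h1 := h.choose_spec.card_le
    have h2 := p.length_hl i
    simp only [List.length_nil] at h1
    omega
  · simp

lemma sound (M : Machine I Q R) (p : Prof Q R l r) (x : I → Bool)
    (hx : x ∈ (p.forest M).all) : ∃ t, M.AcceptsIn x t := by
  have hok : p.ok M := (hx 0).1
  have key : ∀ i : Fin (r + 1), ∃ t, M.Runs x (p.1 i).1 (p.1 i).2 t := by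
    intro i
    induction i using WellFoundedGT.induction with
    | ind i ih =>
      obtain ⟨V, hV⟩ := (hx i).2
      apply hV.sound
      intro q' v' hm
      obtain ⟨j, hj, hj'⟩ := hok.2.2 i _ hm
      have := ih j hj
      rwa [hj'] at this
  obtain ⟨t, ht⟩ := key 0
  rw [hok.1] at ht
  exact ⟨t, _, ht, hok.2.1⟩

lemma card_prof [Fintype Q] [Fintype R] :
    Fintype.card (Prof Q R l r) ≤
      ((Fintype.card Q * Fintype.card R) ^ 2 * ((r + 1) * (2 * l + 2) ^ 2)) ^ (r + 1) := by
  simp only [Fintype.card_prod, Fintype.card_pi, Fintype.card_fin, Fintype.card_option,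
    prod_const, card_univ]
  set Y := Fintype.card Q * Fintype.card R with hY
  rcases Nat.eq_zero_or_pos Y with h0 | h0
  · rw [h0]
    simp
  · have h1 : ((r + 1) * (2 * l + 1) * Y + 1) ^ r ≤ ((r + 1) * (2 * l + 2) * Y) ^ (r + 1) := by
      have h2 : (r + 1) * (2 * l + 1) * Y + 1 ≤ (r + 1) * (2 * l + 2) * Y := by nlinarith
      calc ((r + 1) * (2 * l + 1) * Y + 1) ^ r ≤ ((r + 1) * (2 * l + 2) * Y) ^ r :=
            Nat.pow_le_pow_left h2 r
        _ ≤ ((r + 1) * (2 * l + 2) * Y) ^ (r + 1) := by
            apply Nat.pow_le_pow_right _ (Nat.le_succ r)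
            positivity
    calc Y ^ (r + 1) * ((2 * l + 2) ^ (r + 1) * ((r + 1) * (2 * l + 1) * Y + 1) ^ r)
        ≤ Y ^ (r + 1) * ((2 * l + 2) ^ (r + 1) * ((r + 1) * (2 * l + 2) * Y) ^ (r + 1)) := by
          gcongr
      _ = (Y ^ 2 * ((r + 1) * (2 * l + 2) ^ 2)) ^ (r + 1) := by
          rw [← mul_pow, ← mul_pow]
          congr 1
          ring

/-- the holes of a list with their places -/
def spots (m : ℕ) (h : List (Option (Q × R))) : List (Fin m × (Q × R)) :=
  (List.finRange m).filterMap (fun c => (h[c.val]?.join).map (fun y => (c, y)))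

lemma mem_spots {m : ℕ} {h : List (Option (Q × R))} {c : Fin m} {a : Q × R} :
    (c, a) ∈ spots m h ↔ h[c.val]? = some (some a) := by
  rw [spots, List.mem_filterMap]
  constructor
  · rintro ⟨c', -, hc'⟩
    rw [Option.map_eq_some_iff] at hc'
    obtain ⟨b, hb, hb'⟩ := hc'
    rw [Prod.mk.injEq] at hb'
    obtain ⟨rfl, rfl⟩ := hb'
    rwa [Option.join_eq_some_iff] at hb
  · intro hc
    refine ⟨c, List.mem_finRange _, ?_⟩
    rw [hc]
    rfl

lemma length_spots {m : ℕ} {h : List (Option (Q × R))} (hm : h.length ≤ m) :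
    (spots m h).length = holes h := by
  induction h generalizing m with
  | nil => simp [spots, holes]
  | cons a h ih =>
    obtain ⟨m, rfl⟩ : ∃ m', m = m' + 1 := ⟨m - 1, by simp at hm; omega⟩
    have h1 := ih (m := m) (by simpa using hm)
    simp only [spots, holes, List.length_filterMap_eq_countP] at h1 ⊢
    rw [List.finRange_succ, List.countP_cons, List.countP_map, List.countP_cons]
    simp only [Function.comp_def, Fin.val_succ, List.getElem?_cons_succ, Fin.val_zero,
      List.getElem?_cons_zero, Option.isSome_map]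
    simp only [Option.isSome_map] at h1
    rw [h1]
    cases a <;> simp

end Prof

lemma Valid.ofFn {l : ℕ} : ∀ {n : ℕ} {G : Fin n → (Q × R) × List (Option (Q × R))},
    Valid M y l (List.ofFn G) → ∀ i, (∃ V, PRun M y (G i).2 (G i).1.1 (G i).1.2 [] V) ∧
      (G i).2.length ≤ 2 * l + 1 ∧ ∀ a, some a ∈ (G i).2 → ∃ j, i < j ∧ (G j).1 = a := by
  intro n
  induction n with
  | zero => intro G _ i; exact i.elim0
  | succ n ih =>
    intro G hG i
    rw [List.ofFn_succ] at hG
    obtain ⟨h1, h2, h3, h4⟩ := hG
    refine Fin.cases ?_ (fun i => ?_) i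
    · refine ⟨h2, h3, fun a ha => ?_⟩
      have := h4 a ha
      rw [List.map_ofFn, List.mem_ofFn'] at this
      obtain ⟨j, hj⟩ := this
      exact ⟨j.succ, Fin.succ_pos j, hj⟩
    · obtain ⟨e1, e2, e3⟩ := ih h1 i
      refine ⟨e1, e2, fun a ha => ?_⟩
      obtain ⟨j, hj, hj'⟩ := e3 a ha
      exact ⟨j.succ, Fin.succ_lt_succ_iff.mpr hj, hj'⟩

theorem cut [Fintype I] [Fintype Q] [Fintype R]
    (M : Machine I Q R) (T l r : ℕ) (hl : 0 < l) (hT : T ≤ r * l) :
    ∃ (P : Type) (_ : Fintype P) (F : P → Forest I (r + 1)),
      Fintype.card P ≤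
        ((Fintype.card Q * Fintype.card R) ^ 2 * ((r + 1) * (2 * l + 2) ^ 2)) ^ (r + 1) ∧
      (∀ p x i, ((F p).V i x).card ≤ 2 * l + 1) ∧
      (∀ p, ∀ x ∈ (F p).all, ∃ t, M.AcceptsIn x t) ∧
      (∀ x t, t ≤ T → M.AcceptsIn x t → ∃ p, x ∈ (F p).all) := by
  classical
  refine ⟨Prof Q R l r, inferInstance, Prof.forest M, Prof.card_prof, fun p x i => p.card_V M x i,
    fun p x hx => p.sound M x hx, ?_⟩
  rintro x t ht ⟨v, hv, hacc⟩
  obtain ⟨L, hL, hlen, hho, hhead⟩ := exists_pieces hl hv (ht.trans hT)
  obtain ⟨G, rfl⟩ : ∃ G : Fin (r + 1) → (Q × R) × List (Option (Q × R)), L = List.ofFn G := by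
    refine ⟨fun i => L[i.val]'(by omega), ?_⟩
    apply List.ext_getElem
    · simp [hlen]
    · intro n h1 h2
      rw [List.getElem_ofFn]
  have hG := hL.ofFn
  have hG0 : (G 0).1 = (M.start, v) := by
    rw [List.ofFn_succ, List.map_cons, List.head?_cons, Option.some.injEq] at hhead
    exact hhead
  set TT : List ((Fin (r + 1) × Fin (2 * l + 1)) × (Q × R)) :=
    (List.ofFn (fun i : Fin (r + 1) =>
      (Prof.spots (2 * l + 1) (G i).2).map (fun e => ((i, e.1), e.2)))).flatten with hTT
  have hTlen : TT.length = r := by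
    rw [hTT, List.length_flatten, List.map_ofFn]
    refine Eq.trans ?_ hho
    rw [tholes, List.map_ofFn]
    congr 2
    funext i
    simp only [Function.comp_apply, List.length_map]
    exact Prof.length_spots (hG i).2.1
  have hTmem : ∀ i c a, ((i, c), a) ∈ TT ↔ (G i).2[c.val]? = some (some a) := by
    intro i c a
    rw [hTT, List.mem_flatten]
    constructor
    · rintro ⟨s, hs, hs'⟩
      rw [List.mem_ofFn'] at hs
      obtain ⟨j, rfl⟩ := hs
      rw [List.mem_map] at hs'
      obtain ⟨⟨c', a'⟩, he, he'⟩ := hs'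
      simp only [Prod.mk.injEq] at he'
      obtain ⟨⟨rfl, rfl⟩, rfl⟩ := he'
      exact Prof.mem_spots.mp he
    · intro h
      refine ⟨_, (List.mem_ofFn' _ _).mpr ⟨i, rfl⟩, ?_⟩
      rw [List.mem_map]
      exact ⟨(c, a), Prof.mem_spots.mpr h, rfl⟩
  let p : Prof Q R l r := (fun i => (G i).1, fun i => ⟨(G i).2.length, by
    have := (hG i).2.1
    omega⟩, fun a => TT[a.val]?)
  have hpex : ∀ e, (∃ a, p.2.2 a = some e) ↔ e ∈ TT := by
    intro e
    rw [List.mem_iff_getElem?]
    constructor
    · rintro ⟨a, ha⟩; exact ⟨a.val, ha⟩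
    · rintro ⟨a, ha⟩
      have : a < TT.length := (List.getElem?_eq_some_iff.mp ha).1
      exact ⟨⟨a, by omega⟩, ha⟩
  have hval : ∀ i c, p.val i c = (G i).2[c.val]?.join := by
    intro i c
    unfold Prof.val
    split_ifs with h
    · have h1 := h.choose_spec
      rw [hpex, hTmem] at h1
      rw [h1]
      rfl
    · symm
      rw [Option.eq_none_iff_forall_ne_some]
      intro a ha
      rw [Option.join_eq_some_iff] at ha
      apply h
      refine ⟨a, ?_⟩
      rw [hpex, hTmem]
      exact ha
  have hhl : ∀ i, p.hl i = (G i).2 := by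
    intro i
    apply List.ext_getElem
    · simp [Prof.hl, p]
    · intro n h1 h2
      simp only [Prof.hl, List.getElem_ofFn]
      rw [hval]
      simp [List.getElem?_eq_getElem h2]
  have hok : p.ok M := by
    refine ⟨by change (G 0).1.1 = _; rw [hG0], by change M.acc (G 0).1.2; rw [hG0]; exact hacc, ?_⟩
    intro i a ha
    rw [hhl] at ha
    exact (hG i).2.2 a ha
  refine ⟨p, fun i => ⟨hok, ?_⟩⟩
  rw [hhl]
  exact (hG i).1

end Pool.Agent.TS
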