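import Pool.Agent.TS.HashDefs

/-! A Hankel matrix over `F_2` whose kernel has no nonzero vector of small weight. -/

namespace Pool.Agent.TS

/-- the product of the Hankel matrix with diagonals `h` and the indicator vector of `S` -/
def hkS {n K : ℕ} (hK : K ≤ n) (S : Finset (Fin n)) :
    (Fin (2 * n) → ZMod 2) →+ (Fin K → ZMod 2) where
  toFun h := fun c => ∑ i ∈ S, h ⟨c + i, by have := c.2; have := i.2; omega⟩
  map_zero' := by funext c; simp
  map_add' a b := by funext c; simp [Finset.sum_add_distrib]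

lemma hkS_surj_aux {n : ℕ} (S : Finset (Fin n)) (hS : S.Nonempty) (y : ℕ → ZMod 2) (k : ℕ) :
    ∃ h : ℕ → ZMod 2, ∀ c < k, ∑ i ∈ S, h (c + i) = y c := by
  classical
  induction k with
  | zero => exact ⟨0, fun c hc => absurd hc (Nat.not_lt_zero c)⟩
  | succ k ih =>
    obtain ⟨h, hh⟩ := ih
    set i0 := S.max' hS with hi0
    have hmem : i0 ∈ S := S.max'_mem hS
    refine ⟨Function.update h (k + i0) (h (k + i0) + (y k - ∑ i ∈ S, h (k + i))), fun c hc => ?_⟩
    rcases Nat.lt_succ_iff_lt_or_eq.1 hc with hc | rfl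
    · rw [← hh c hc]
      refine Finset.sum_congr rfl fun i hi => ?_
      have h1 : i ≤ i0 := S.le_max' i hi
      have h2 : (i : ℕ) ≤ i0 := h1
      rw [Function.update_of_ne (by omega)]
    · rw [← Finset.add_sum_erase S _ hmem, Function.update_self]
      have h3 : ∑ i ∈ S.erase i0, Function.update h (c + i0)
          (h (c + i0) + (y c - ∑ i ∈ S, h (c + i))) (c + i) = ∑ i ∈ S.erase i0, h (c + i) := by
        refine Finset.sum_congr rfl fun i hi => ?_
        have h4 : i ≠ i0 := Finset.ne_of_mem_erase hi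
        have h5 : (i : ℕ) ≠ i0 := fun h => h4 (Fin.ext h)
        rw [Function.update_of_ne (by omega)]
      rw [h3, ← Finset.add_sum_erase S (fun i => h (c + i)) hmem]
      ring

lemma hkS_surj {n K : ℕ} (hK : K ≤ n) (S : Finset (Fin n)) (hS : S.Nonempty) :
    Function.Surjective (hkS hK S) := by
  intro y
  obtain ⟨h, hh⟩ := hkS_surj_aux S hS (fun c => if hc : c < K then y ⟨c, hc⟩ else 0) K
  refine ⟨fun j => h j, ?_⟩
  funext c
  have := hh c c.2
  rw [dif_pos c.2] at this
  exact this

lemma card_small {n : ℕ} (w : ℕ) :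
    (Finset.univ.filter (fun S : Finset (Fin n) => S.Nonempty ∧ S.card ≤ w)).card ≤
      ∑ i ∈ Finset.range (w + 1), n.choose i := by
  classical
  calc _ ≤ ((Finset.range (w + 1)).biUnion
        fun i => Finset.powersetCard i (Finset.univ : Finset (Fin n))).card := by
        apply Finset.card_le_card
        intro S hS
        have h1 := (Finset.mem_filter.1 hS).2
        exact Finset.mem_biUnion.2 ⟨S.card, Finset.mem_range.2 (by omega),
          Finset.mem_powersetCard.2 ⟨Finset.subset_univ _, rfl⟩⟩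
    _ ≤ ∑ i ∈ Finset.range (w + 1), (Finset.powersetCard i (Finset.univ : Finset (Fin n))).card :=
        Finset.card_biUnion_le
    _ = _ := by
        refine Finset.sum_congr rfl fun i _ => ?_
        rw [Finset.card_powersetCard, Finset.card_univ, Fintype.card_fin]

lemma exists_hkS {n K w : ℕ} (hK : K ≤ n)
    (hw : (∑ i ∈ Finset.range (w + 1), n.choose i) < 2 ^ K) :
    ∃ h : Fin (2 * n) → ZMod 2, ∀ S : Finset (Fin n), S.Nonempty → S.card ≤ w →
      hkS hK S h ≠ 0 := by
  classical
  set W := Finset.univ.filter (fun S : Finset (Fin n) => S.Nonempty ∧ S.card ≤ w) with hW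
  set B := W.biUnion fun S => Finset.univ.filter (fun h => hkS hK S h = 0) with hB
  have h1 : B.card * 2 ^ K < 2 ^ K * 2 ^ (2 * n) := by
    calc B.card * 2 ^ K ≤ (∑ S ∈ W, (Finset.univ.filter (fun h => hkS hK S h = 0)).card) * 2 ^ K :=
          Nat.mul_le_mul_right _ Finset.card_biUnion_le
      _ = ∑ S ∈ W, (2 : ℕ) ^ (2 * n) := by
          rw [Finset.sum_mul]
          refine Finset.sum_congr rfl fun S hS => ?_
          have h2 := Pool.Agent.JT.card_ker (hkS hK S)
            (hkS_surj hK S (Finset.mem_filter.1 hS).2.1)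
          rw [Fintype.card_fun, Fintype.card_fun, ZMod.card, Fintype.card_fin,
            Fintype.card_fin] at h2
          convert h2
      _ = W.card * 2 ^ (2 * n) := by rw [Finset.sum_const, smul_eq_mul]
      _ < 2 ^ K * 2 ^ (2 * n) := by
          apply Nat.mul_lt_mul_of_pos_right _ (by positivity)
          exact lt_of_le_of_lt (card_small w) hw
  have h3 : B.card < Fintype.card (Fin (2 * n) → ZMod 2) := by
    rw [Fintype.card_fun, ZMod.card, Fintype.card_fin]
    rw [mul_comm] at h1
    exact Nat.lt_of_mul_lt_mul_left h1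
  obtain ⟨h, hh⟩ : ∃ h, h ∉ B := by
    by_contra hcon
    push Not at hcon
    have : B = Finset.univ := Finset.eq_univ_iff_forall.2 hcon
    rw [this, Finset.card_univ] at h3
    exact lt_irrefl _ h3
  refine ⟨h, fun S hS hc h0 => hh ?_⟩
  exact Finset.mem_biUnion.2 ⟨S, Finset.mem_filter.2 ⟨Finset.mem_univ _, hS, hc⟩,
    Finset.mem_filter.2 ⟨Finset.mem_univ _, h0⟩⟩

theorem exists_hankel {n K w : ℕ} (hK : K ≤ n)
    (hw : (∑ i ∈ Finset.range (w + 1), n.choose i) < 2 ^ K) :
    ∃ h : ℕ → Bool, ∀ x y : Fin n → Bool, x ≠ y →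
      (Finset.univ.filter (fun i => x i ≠ y i)).card ≤ w → hk (K := K) h x ≠ hk (K := K) h y := by
  classical
  obtain ⟨g, hg⟩ := exists_hkS hK hw
  refine ⟨fun j => if hj : j < 2 * n then decide (g ⟨j, hj⟩ = 1) else false,
    fun x y hxy hc heq => ?_⟩
  set S := Finset.univ.filter (fun i => x i ≠ y i) with hS
  have hne : S.Nonempty := by
    obtain ⟨i, hi⟩ := Function.ne_iff.1 hxy
    exact ⟨i, Finset.mem_filter.2 ⟨Finset.mem_univ _, hi⟩⟩
  apply hg S hne hc
  funext c
  have h1 := congrFun heq c
  unfold hk at h1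
  have h2 : ∀ z : Fin n → Bool, ((∑ i : Fin n, (z i).toNat *
      ((fun j => if hj : j < 2 * n then decide (g ⟨j, hj⟩ = 1) else false) (c + i : ℕ) :
        Bool).toNat : ℕ) : ZMod 2) =
      ∑ i : Fin n, (if z i then 1 else 0) * g ⟨c + i, by have := c.2; have := i.2; omega⟩ := by
    intro z
    rw [Nat.cast_sum]
    refine Finset.sum_congr rfl fun i _ => ?_
    have hlt : (c + i : ℕ) < 2 * n := by have := c.2; have := i.2; omega
    simp only [hlt, dif_pos]
    rw [Nat.cast_mul]
    congr 1
    · cases z i <;> simp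
    · have : ∀ t : ZMod 2, ((decide (t = 1)).toNat : ZMod 2) = t := by decide
      exact this _
  have h3 : ∀ a b : ℕ, decide (a % 2 = 1) = decide (b % 2 = 1) → (a : ZMod 2) = b := by
    intro a b hab
    rw [ZMod.natCast_eq_natCast_iff']
    have := decide_eq_decide.1 hab
    omega
  have h4 := h3 _ _ h1
  rw [h2 x, h2 y] at h4
  have h5 : ∀ i : Fin n, (if x i then (1 : ZMod 2) else 0) - (if y i then 1 else 0) =
      if x i ≠ y i then 1 else 0 := by
    intro i
    cases x i <;> cases y i <;> decide
  change ∑ i ∈ S, g ⟨c + i, _⟩ = 0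
  rw [hS, Finset.sum_filter]
  refine Eq.trans ?_ (sub_eq_zero.2 h4)
  rw [← Finset.sum_sub_distrib]
  refine Finset.sum_congr rfl fun i _ => ?_
  rw [← sub_mul, h5 i]
  split_ifs <;> simp

/-- a bound for the number of vectors of small weight -/
theorem choose_sum_lt {n w b : ℕ} (hw : 1 ≤ w) (hb : 1 ≤ b) (hn : n ≤ 2 ^ b * w) :
    ∑ i ∈ Finset.range (w + 1), n.choose i < 2 ^ (w * (b + 2)) := by
  have hpow : (0 : ℝ) < 2 ^ (w * (b + 2)) := by positivity
  by_cases hnw : n < w
  · -- the sum is at most `2 ^ n`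
    have h1 : ∑ i ∈ Finset.range (w + 1), n.choose i ≤ 2 ^ n := by
      rw [← Nat.sum_range_choose]
      rw [← Finset.sum_subset (s₁ := Finset.range (n + 1))
        (Finset.range_subset_range.2 (by omega))]
      intro i _ hi
      rw [Finset.mem_range] at hi
      exact Nat.choose_eq_zero_of_lt (by omega)
    refine lt_of_le_of_lt h1 (Nat.pow_lt_pow_right (by norm_num) ?_)
    calc n < w := hnw
      _ ≤ w * (b + 2) := Nat.le_mul_of_pos_right _ (by omega)
  · push Not at hnw
    have hw0 : (0 : ℝ) < w := by exact_mod_cast hw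
    have hn0 : (0 : ℝ) < n := by exact_mod_cast (lt_of_lt_of_le hw hnw)
    have hx0 : (0 : ℝ) < w / n := by positivity
    have hx1 : (w : ℝ) / n ≤ 1 := by
      rw [div_le_one hn0]; exact_mod_cast hnw
    have h1 : (∑ i ∈ Finset.range (w + 1), (n.choose i : ℝ)) * ((w : ℝ) / n) ^ w ≤
        (1 + (w : ℝ) / n) ^ n := by
      rw [add_comm (1 : ℝ), add_pow, Finset.sum_mul]
      calc _ ≤ ∑ i ∈ Finset.range (w + 1), ((w : ℝ) / n) ^ i * 1 ^ (n - i) * (n.choose i) := by
            refine Finset.sum_le_sum fun i hi => ?_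
            rw [one_pow, mul_one, mul_comm]
            apply mul_le_mul_of_nonneg_right _ (by positivity)
            apply pow_le_pow_of_le_one hx0.le hx1
            have := Finset.mem_range.1 hi
            omega
        _ ≤ _ := by
            apply Finset.sum_le_sum_of_subset_of_nonneg
            · exact Finset.range_subset_range.2 (by omega)
            · intros; positivity
    have h2 : (1 + (w : ℝ) / n) ^ n ≤ Real.exp w := by
      calc (1 + (w : ℝ) / n) ^ n ≤ (Real.exp ((w : ℝ) / n)) ^ n := by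
            apply pow_le_pow_left₀ (by positivity)
            have := Real.add_one_le_exp ((w : ℝ) / n)
            linarith
        _ = Real.exp w := by
            rw [← Real.exp_nat_mul]
            congr 1
            field_simp
    have h3 : Real.exp w < 4 ^ w := by
      have : Real.exp (w : ℝ) = (Real.exp 1) ^ w := by
        rw [← Real.exp_nat_mul]; simp
      rw [this]
      apply pow_lt_pow_left₀ _ (Real.exp_pos 1).le (by omega)
      have := Real.exp_one_lt_d9
      linarith
    have h4 : (1 : ℝ) ≤ ((w : ℝ) / n) ^ w * (2 ^ b) ^ w := by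
      rw [← mul_pow]
      apply one_le_pow₀
      rw [div_mul_eq_mul_div, one_le_div hn0, mul_comm]
      exact_mod_cast hn
    have h5 : (∑ i ∈ Finset.range (w + 1), (n.choose i : ℝ)) < 2 ^ (w * (b + 2)) := by
      have hs : 0 ≤ ∑ i ∈ Finset.range (w + 1), (n.choose i : ℝ) := by positivity
      calc (∑ i ∈ Finset.range (w + 1), (n.choose i : ℝ))
          ≤ (∑ i ∈ Finset.range (w + 1), (n.choose i : ℝ)) *
              (((w : ℝ) / n) ^ w * (2 ^ b) ^ w) := le_mul_of_one_le_right hs h4
        _ = ((∑ i ∈ Finset.range (w + 1), (n.choose i : ℝ)) * ((w : ℝ) / n) ^ w) *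
              (2 ^ b) ^ w := by ring
        _ ≤ Real.exp w * (2 ^ b) ^ w := by
            apply mul_le_mul_of_nonneg_right (h1.trans h2) (by positivity)
        _ < 4 ^ w * (2 ^ b) ^ w := by
            apply mul_lt_mul_of_pos_right h3 (by positivity)
        _ = 2 ^ (w * (b + 2)) := by
            rw [show (4 : ℝ) = 2 ^ 2 by norm_num, ← pow_mul, ← pow_mul, ← pow_add]
            congr 1
            ring
    exact_mod_cast h5

end Pool.Agent.TS
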