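import Pool.Agent.TS.LangDefs
import Pool.Agent.JT.Hash2

/-! The Hankel matrix, and the specification of the hash part. -/

namespace Pool.Agent.TS

/-- product (modulo 2) of the Hankel matrix with the diagonals `h` and the vector `x` -/
def hk {n K : ℕ} (h : ℕ → Bool) (x : Fin n → Bool) : Fin K → Bool := fun c =>
  decide ((∑ i : Fin n, (x i).toNat * (h (c + i)).toNat) % 2 = 1)

end Pool.Agent.TS
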