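import Mathlib

/-! The explicit polynomial time language (elementary description). A word `w` of length `N` is
cut into 8 pieces of length `n = N / 8` (and a rest): piece 0 begins with `1^j 0 1^D 0` (two
parameters), piece 1 is `x`, pieces 2, 3 are the diagonals `h` of a Hankel matrix, pieces 4, ..., 7
contain the coefficients `a_s` of a polynomial. -/

namespace Pool.Agent.TS

/-- bit number `i` of the word, as a number -/
def bt (w : List Bool) (i : ℕ) : ℕ := (w.getD i false).toNat

/-- length of the pieces -/
def nn (w : List Bool) : ℕ := w.length / 8

/-- length of the run of ones that starts at position `s` -/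
def run (w : List Bool) (s : ℕ) : ℕ :=
  ∑ i ∈ Finset.range w.length, if ∀ i' < i + 1, bt w (s + i') = 1 then 1 else 0

/-- first parameter -/
def pj (w : List Bool) : ℕ := run w 0

/-- second parameter -/
def pD (w : List Bool) : ℕ := run w (pj w + 1)

/-- size of the small set -/
def pm (w : List Bool) : ℕ := nn w / (2 * pD w)

/-- number of conditions -/
def pl (w : List Bool) : ℕ := pm w / 32

/-- number of rows of the Hankel matrix -/
def pN (w : List Bool) : ℕ := (pj w + 8) ^ 2 * pm w

/-- number of coefficients of the polynomial -/
def pt (w : List Bool) : ℕ := (128 * (pj w + 8) ^ 2) ^ 2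

/-- length of the coefficients -/
def pA (w : List Bool) : ℕ := pN w * pt w ^ 2 + pl w

/-- bits of `y = (Hankel matrix of h) x` -/
def yb (w : List Bool) (c : ℕ) : ℕ :=
  if c < pN w then (∑ i ∈ Finset.range (nn w), bt w (nn w + i) * bt w (2 * nn w + (c + i))) % 2
  else 0

/-- coefficient of `X^c` in the coefficient `a_s` -/
def ab (w : List Bool) (s c : ℕ) : ℕ := if c < pA w then bt w (4 * nn w + (s * pA w + c)) else 0

/-- coefficient of `X^c` in Horner's scheme for the polynomial with the coefficients `a_s`,
evaluated at `y(X)` modulo 2, after `i` steps -/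
def hz (w : List Bool) : ℕ → ℕ → ℕ
  | 0, _ => 0
  | i + 1, c => ((∑ i' ∈ Finset.range (c + 1), hz w i i' * yb w (c - i')) +
      ab w (pt w - 1 - i) c) % 2

/-- the language: the `l` top coefficients of the value vanish -/
def lang (w : List Bool) : Prop := ∀ c < pl w, hz w (pt w) (pA w - 1 - c) = 0

instance : DecidablePred lang := fun w => by unfold lang; infer_instance

end Pool.Agent.TS
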