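import Mathlib

/-! Choice of the parameters. -/

namespace Pool.Agent.TS

/-- the average number of trees that read a variable -/
def kap (k : ℕ) : ℕ := 32 * k

/-- the number of colours of the first group -/
def rho (k : ℕ) : ℕ := 2 ^ (38 + 4 * Nat.clog 2 k)

/-- logarithm of `(4 ρ)^κ` -/
def jj (k : ℕ) : ℕ := kap k * (40 + 4 * Nat.clog 2 k)

variable {k : ℕ}

lemma clog_pos (hk : 2 ≤ k) : 1 ≤ Nat.clog 2 k := Nat.clog_pos (by norm_num) hk

lemma le_clog (k : ℕ) : k ≤ 2 ^ Nat.clog 2 k := Nat.le_pow_clog (by norm_num) k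

lemma clog_lt (hk : 2 ≤ k) : 2 ^ Nat.clog 2 k ≤ 2 * k := by
  have h1 : 2 ^ (Nat.clog 2 k - 1) < k := Nat.pow_pred_clog_lt_self (by norm_num) (by omega)
  have h2 := clog_pos hk
  obtain ⟨c, hc⟩ : ∃ c, Nat.clog 2 k = c + 1 := ⟨Nat.clog 2 k - 1, by omega⟩
  rw [hc] at h1 ⊢
  simp only [Nat.add_sub_cancel] at h1
  rw [pow_succ]; omega

lemma jj_ge (hk : 2 ≤ k) : 2816 ≤ jj k := by
  unfold jj kap
  have := clog_pos hk
  nlinarith

lemma rho_pow (k : ℕ) : (4 * rho k) ^ kap k = 2 ^ jj k := by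
  unfold rho jj
  have : 4 * 2 ^ (38 + 4 * Nat.clog 2 k) = 2 ^ (40 + 4 * Nat.clog 2 k) := by
    rw [show 40 + 4 * Nat.clog 2 k = 2 + (38 + 4 * Nat.clog 2 k) by ring, pow_add 2 2]
    norm_num
  rw [this, ← pow_mul, mul_comm]

lemma jj_le_pow (hk : 2 ≤ k) : 2 ^ (12 * jj k) ≤ k ^ (20000 * k) := by
  have h1 : 2 ^ (40 + 4 * Nat.clog 2 k) ≤ k ^ 48 := by
    calc 2 ^ (40 + 4 * Nat.clog 2 k) = 2 ^ 40 * (2 ^ Nat.clog 2 k) ^ 4 := by
          rw [pow_add, ← pow_mul]; ring_nf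
      _ ≤ 2 ^ 40 * (2 * k) ^ 4 := by gcongr; exact clog_lt hk
      _ = 2 ^ 44 * k ^ 4 := by ring
      _ ≤ k ^ 44 * k ^ 4 := by gcongr
      _ = k ^ 48 := by rw [← pow_add]
  unfold jj kap
  calc 2 ^ (12 * (32 * k * (40 + 4 * Nat.clog 2 k))) = (2 ^ (40 + 4 * Nat.clog 2 k)) ^ (384 * k) := by
        rw [← pow_mul]; ring_nf
    _ ≤ (k ^ 48) ^ (384 * k) := Nat.pow_le_pow_left h1 _
    _ = k ^ (18432 * k) := by rw [← pow_mul]; ring_nf
    _ ≤ k ^ (20000 * k) := Nat.pow_le_pow_right (by omega) (by omega)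

lemma rho_ge (hk : 2 ≤ k) : 1024 * kap k * (jj k + 8) ≤ rho k := by
  have h1 := le_clog k
  have h2 := clog_pos hk
  unfold jj kap rho
  set c := Nat.clog 2 k with hc
  have h3 : c < 2 ^ c := Nat.lt_two_pow_self
  have h4 : 40 + 4 * c ≤ 44 * 2 ^ c := by omega
  have h5 : 1 ≤ 2 ^ c := Nat.one_le_two_pow
  calc 1024 * (32 * k) * (32 * k * (40 + 4 * c) + 8)
      ≤ 1024 * (32 * 2 ^ c) * (32 * 2 ^ c * (44 * 2 ^ c) + 8 * (2 ^ c * 2 ^ c)) := by
        gcongr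
        nlinarith
    _ = 1024 * 32 * 1416 * 2 ^ (3 * c) := by rw [mul_comm 3 c, pow_mul 2 c 3]; ring
    _ ≤ 2 ^ 38 * 2 ^ (4 * c) := by
        apply Nat.mul_le_mul (by norm_num)
        exact Nat.pow_le_pow_right (by norm_num) (by omega)
    _ = 2 ^ (38 + 4 * c) := by rw [← pow_add]

lemma sq_le_two_pow {j : ℕ} (hj : 4 ≤ j) : j * j ≤ 2 ^ j := by
  induction j, hj using Nat.le_induction with
  | base => norm_num
  | succ j hj ih => rw [pow_succ]; nlinarith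

/-- `j + 8` is tiny compared with `2 ^ j` -/
lemma add_eight_le {j : ℕ} (hj : 400 ≤ j) : j + 8 ≤ 2 ^ (j / 40) := by
  have h1 : ∀ q, 10 ≤ q → 40 * (q + 1) + 8 ≤ 2 ^ q := by
    intro q hq
    induction q, hq using Nat.le_induction with
    | base => norm_num
    | succ q hq ih => rw [pow_succ]; omega
  have h2 := h1 (j / 40) (by omega)
  omega

lemma lam_pow {j : ℕ} (hj : 400 ≤ j) : 2 ^ 43 * (j + 8) ^ 14 ≤ 2 ^ j := by
  have h1 := add_eight_le hj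
  calc 2 ^ 43 * (j + 8) ^ 14 ≤ 2 ^ 43 * (2 ^ (j / 40)) ^ 14 := by gcongr
    _ = 2 ^ (43 + (j / 40) * 14) := by rw [pow_add, ← pow_mul]
    _ ≤ 2 ^ j := Nat.pow_le_pow_right (by norm_num) (by omega)

lemma t_le {j : ℕ} (hj : 400 ≤ j) : 128 * (j + 8) ^ 2 ≤ 2 ^ j := by
  refine le_trans ?_ (lam_pow hj)
  apply Nat.mul_le_mul (by norm_num)
  exact Nat.pow_le_pow_right (by omega) (by norm_num)

section main

variable {N n j m l : ℕ}

lemma n_ge (hj : 2816 ≤ j) (hN : 2 ^ (12 * j) ≤ N) (hn : N / 8 = n) : 2 ^ (11 * j) ≤ n := by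
  rw [← hn, Nat.le_div_iff_mul_le (by norm_num)]
  refine le_trans ?_ hN
  calc 2 ^ (11 * j) * 8 = 2 ^ (11 * j + 3) := by rw [pow_add]; norm_num
    _ ≤ _ := Nat.pow_le_pow_right (by norm_num) (by omega)

lemma m_ge (hj : 2816 ≤ j) (hn : 2 ^ (11 * j) ≤ n) (hm : m = n / (2 * 2 ^ j)) :
    2 ^ (9 * j) ≤ m := by
  rw [hm, Nat.le_div_iff_mul_le (by positivity)]
  refine le_trans ?_ hn
  calc 2 ^ (9 * j) * (2 * 2 ^ j) = 2 ^ (10 * j + 1) := by
        rw [show 10 * j + 1 = 9 * j + (1 + j) by ring, pow_add, pow_add 2 1, pow_one]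
    _ ≤ _ := Nat.pow_le_pow_right (by norm_num) (by omega)

lemma n_le (hm : m = n / (2 * 2 ^ j)) (hm1 : 1 ≤ m) : n ≤ 2 ^ (j + 2) * m := by
  have h1 : n < (m + 1) * (2 * 2 ^ j) := by
    rw [hm]
    have := Nat.lt_div_mul_add (a := n) (b := 2 * 2 ^ j) (by positivity)
    rw [Nat.add_mul, one_mul]
    exact this
  have h2 : (m + 1) * (2 * 2 ^ j) ≤ (2 * m) * (2 * 2 ^ j) := Nat.mul_le_mul_right _ (by omega)
  have h3 : (2 * m) * (2 * 2 ^ j) = 2 ^ (j + 2) * m := by rw [pow_add]; ring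
  omega

lemma K_le (hj : 400 ≤ j) (hm : 2 * 2 ^ j * m ≤ n) : (j + 8) ^ 2 * m ≤ n := by
  refine le_trans (Nat.mul_le_mul_right m ?_) hm
  have := t_le hj
  omega

/-- the seed fits into the input -/
lemma fit {K t A : ℕ} (hj : 400 ≤ j) (hm : 2 * 2 ^ j * m ≤ n) (hl : l = m / 32)
    (hK : K = (j + 8) ^ 2 * m) (ht : t = 128 * (j + 8) ^ 2) (hA : A = K * (t * t) ^ 2 + l) :
    t * t * A ≤ 4 * n := by
  have h1 := lam_pow hj
  have hl' : l ≤ m := by rw [hl]; exact Nat.div_le_self _ _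
  have h2 : t * t * A ≤ 2 ^ 43 * (j + 8) ^ 14 * m := by
    have e1 : t * t * l ≤ 2 ^ 42 * (j + 8) ^ 14 * m := by
      rw [ht]
      calc 128 * (j + 8) ^ 2 * (128 * (j + 8) ^ 2) * l = 2 ^ 14 * (j + 8) ^ 4 * l := by ring
        _ ≤ 2 ^ 42 * (j + 8) ^ 14 * m := by
            apply Nat.mul_le_mul _ hl'
            apply Nat.mul_le_mul (by norm_num)
            exact Nat.pow_le_pow_right (by omega) (by norm_num)
    have e2 : t * t * (K * (t * t) ^ 2) = 2 ^ 42 * (j + 8) ^ 14 * m := by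
      rw [hK, ht]; ring
    calc t * t * A = t * t * (K * (t * t) ^ 2) + t * t * l := by rw [hA]; ring
      _ ≤ 2 ^ 42 * (j + 8) ^ 14 * m + 2 ^ 42 * (j + 8) ^ 14 * m := by rw [e2]; omega
      _ = _ := by ring
  calc t * t * A ≤ 2 ^ 43 * (j + 8) ^ 14 * m := h2
    _ ≤ 2 ^ j * m := Nat.mul_le_mul_right _ h1
    _ ≤ 2 * 2 ^ j * m := by
        apply Nat.mul_le_mul_right; omega
    _ ≤ n := hm
    _ ≤ _ := by omega

lemma seed_ineq {K t : ℕ} (hm : 200 ≤ m) (hl : l = m / 32)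
    (hK : K = (j + 8) ^ 2 * m) (ht : t = 128 * (j + 8) ^ 2) :
    2 * t * K + l + 1 < l * (t * t) := by
  have h1 : m ≤ 32 * l + 31 := by omega
  have h2 : l ≤ m := by omega
  set Λ := (j + 8) ^ 4 with hΛ
  have hΛ1 : 1 ≤ Λ := Nat.one_le_pow _ _ (by omega)
  have e1 : 2 * t * K = 256 * Λ * m := by rw [hK, ht, hΛ]; ring
  have e2 : l * (t * t) = 16384 * Λ * l := by rw [ht, hΛ]; ring
  rw [e1, e2]
  have h3 : 512 * Λ * m ≤ 16384 * Λ * l + 512 * 31 * Λ := by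
    calc 512 * Λ * m ≤ 512 * Λ * (32 * l + 31) := Nat.mul_le_mul_left _ h1
      _ = _ := by ring
  have h4 : 256 * Λ * m + l + 1 + 512 * 31 * Λ < 512 * Λ * m := by
    have e3 : l + 1 ≤ Λ * (m + 1) := by nlinarith
    have e4 : Λ * (m + 1) + 512 * 31 * Λ < 256 * Λ * m := by
      have : Λ * (m + 1 + 512 * 31) < Λ * (256 * m) := Nat.mul_lt_mul_of_pos_left (by omega) hΛ1
      calc Λ * (m + 1) + 512 * 31 * Λ = Λ * (m + 1 + 512 * 31) := by ring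
        _ < Λ * (256 * m) := this
        _ = _ := by ring
    have e5 : 512 * Λ * m = 256 * Λ * m + 256 * Λ * m := by ring
    omega
  omega

variable {el r κ : ℕ}

/-- the length of the pieces -/
lemma el_pos (hj : 2816 ≤ j) (hn : 2 ^ (11 * j) ≤ n) (hκ : κ ≤ 2 ^ j)
    (hel : el = n / (1024 * κ * 2 ^ j)) (hκ0 : 0 < κ) : 1 ≤ el := by
  rw [hel, Nat.le_div_iff_mul_le (by positivity), one_mul]
  refine le_trans ?_ hn
  calc 1024 * κ * 2 ^ j ≤ 1024 * 2 ^ j * 2 ^ j := by gcongr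
    _ = 2 ^ (2 * j + 10) := by rw [pow_add, two_mul, pow_add]; ring
    _ ≤ _ := Nat.pow_le_pow_right (by norm_num) (by omega)

lemma el_le (hel : el = n / (1024 * κ * 2 ^ j)) : 1024 * κ * 2 ^ j * el ≤ n := by
  rw [hel]; exact Nat.mul_div_le _ _

lemma n_le_el (hel : el = n / (1024 * κ * 2 ^ j)) (hκ0 : 0 < κ) (h1 : 1 ≤ el) :
    n ≤ 2048 * κ * 2 ^ j * el := by
  have h2 : n < el * (1024 * κ * 2 ^ j) + 1024 * κ * 2 ^ j := by
    rw [hel]; exact Nat.lt_div_mul_add (by positivity)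
  have h3 : 1024 * κ * 2 ^ j ≤ el * (1024 * κ * 2 ^ j) := Nat.le_mul_of_pos_left _ h1
  have h4 : el * (1024 * κ * 2 ^ j) + el * (1024 * κ * 2 ^ j) = 2048 * κ * 2 ^ j * el := by ring
  omega

lemma r_le (hj : 2816 ≤ j) (hN : N ≤ 9 * n) (hr : r = k * N / el + 1)
    (h2 : n ≤ 2048 * κ * 2 ^ j * el) (hκ : κ = 32 * k) (hκj : κ ≤ j) : r + 1 ≤ 2 ^ (3 * j) := by
  have h3 : k * N / el ≤ 18432 * k * κ * 2 ^ j := by
    apply Nat.div_le_of_le_mul
    calc k * N ≤ k * (9 * (2048 * κ * 2 ^ j * el)) := by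
          apply Nat.mul_le_mul_left
          omega
      _ = _ := by ring
  have h4 : k * κ ≤ 2 ^ j := by
    refine le_trans ?_ (sq_le_two_pow (by omega : 4 ≤ j))
    apply Nat.mul_le_mul _ hκj
    omega
  have h5 : 18432 * k * κ * 2 ^ j ≤ 18432 * 2 ^ j * 2 ^ j := by
    calc 18432 * k * κ * 2 ^ j = 18432 * (k * κ) * 2 ^ j := by ring
      _ ≤ _ := by gcongr
  have h6 : 1 ≤ 2 ^ j := Nat.one_le_two_pow
  have h6' : 1 ≤ 2 ^ j * 2 ^ j := Nat.one_le_iff_ne_zero.2 (by positivity)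
  calc r + 1 ≤ 18432 * 2 ^ j * 2 ^ j + 2 := by rw [hr]; omega
    _ ≤ 2 ^ 15 * (2 ^ j * 2 ^ j) := by rw [mul_assoc]; norm_num; omega
    _ = 2 ^ (2 * j + 15) := by rw [pow_add, two_mul, pow_add]; ring
    _ ≤ 2 ^ (3 * j) := Nat.pow_le_pow_right (by norm_num) (by omega)

lemma T_le (hr : r = k * N / el + 1) (h1 : 1 ≤ el) : k * N ≤ r * el := by
  rw [hr]
  have := Nat.lt_div_mul_add (a := k * N) (b := el) h1
  rw [Nat.add_mul, one_mul]
  exact this.le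

lemma h128_ineq {L : ℕ} (hr : r = k * N / el + 1) (h1 : 1 ≤ el) (hk : 1 ≤ k) (hNn : n ≤ N)
    (hL : L = 2 * el + 1 + (n / (r + 1) + 1)) (hel : 1024 * κ * 2 ^ j * el ≤ n) :
    128 * L * κ * 2 ^ j ≤ n := by
  have h2 := T_le hr h1
  have h3 : n / (r + 1) ≤ el := by
    apply Nat.div_le_of_le_mul
    calc n ≤ k * N := by nlinarith
      _ ≤ r * el := h2
      _ ≤ (r + 1) * el := Nat.mul_le_mul_right _ (by omega)
  calc 128 * L * κ * 2 ^ j ≤ 128 * (5 * el) * κ * 2 ^ j := by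
        gcongr
        omega
    _ ≤ 1024 * κ * 2 ^ j * el := by
        have : 128 * (5 * el) * κ * 2 ^ j = 640 * (κ * 2 ^ j * el) := by ring
        have h' : 1024 * κ * 2 ^ j * el = 1024 * (κ * 2 ^ j * el) := by ring
        omega
    _ ≤ n := hel

lemma kap_ineq (hr : r = k * N / el + 1) (hk : 2 ≤ k) (hN : N ≤ 9 * n)
    (heln : el ≤ n) (hrn : r + 1 ≤ n) : (r + 1) * (2 * el + 1) + n ≤ (32 * k) * n := by
  have h2 : (k * N / el) * el ≤ k * N := Nat.div_mul_le_self _ _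
  have h3 : r * el ≤ k * N + el := by rw [hr, Nat.add_mul, one_mul]; omega
  have h4 : (r + 1) * (2 * el + 1) = 2 * (r * el) + 2 * el + (r + 1) := by ring
  have h5 : k * N ≤ k * (9 * n) := Nat.mul_le_mul_left _ hN
  have h6 : 2 * n ≤ k * n := Nat.mul_le_mul_right _ hk
  have h7 : 32 * k * n = 32 * (k * n) := by ring
  have h8 : k * (9 * n) = 9 * (k * n) := by ring
  omega

/-- logarithms are small -/
lemma log_small {u : ℕ} (hj : 2816 ≤ j) (hu : 12 * j ≤ u) :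
    (u + 1) * 2 ^ (3 * j + 6) * 2 ^ (j + 6) ≤ 2 ^ u := by
  have h1 : ∀ v, 3 ≤ v → 2 * v + 2 ≤ 2 ^ v := by
    intro v hv
    induction v, hv using Nat.le_induction with
    | base => norm_num
    | succ v hv ih => rw [pow_succ]; omega
  have h2 := h1 (u / 2) (by omega)
  calc (u + 1) * 2 ^ (3 * j + 6) * 2 ^ (j + 6) ≤ 2 ^ (u / 2) * 2 ^ (3 * j + 6) * 2 ^ (j + 6) := by
        gcongr
        omega
    _ = 2 ^ (u / 2 + (3 * j + 6) + (j + 6)) := by ring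
    _ ≤ _ := Nat.pow_le_pow_right (by norm_num) (by omega)

lemma pi_ineq {s : ℕ} (hj : 2816 ≤ j) (hN : 2 ^ (12 * j) ≤ N) (hs : s * 2 ^ (12 * j) ≤ N)
    (hNm : N ≤ 2 ^ (j + 6) * m) (hr : r + 1 ≤ 2 ^ (3 * j)) :
    8 * ((2 * s + 3 * (Nat.log 2 N + 1)) * (r + 1)) ≤ m := by
  have h1 : 32 * s * 2 ^ (3 * j) ≤ m := by
    have : 2 ^ (j + 6) * (32 * s * 2 ^ (3 * j)) ≤ 2 ^ (j + 6) * m := by
      refine le_trans ?_ hNm
      refine le_trans ?_ hs
      calc 2 ^ (j + 6) * (32 * s * 2 ^ (3 * j)) = s * 2 ^ (4 * j + 11) := by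
            ring
        _ ≤ _ := by
            apply Nat.mul_le_mul_left
            exact Nat.pow_le_pow_right (by norm_num) (by omega)
    exact Nat.le_of_mul_le_mul_left this (by positivity)
  have h2 : (Nat.log 2 N + 1) * 2 ^ (3 * j + 6) ≤ m := by
    have hu : 12 * j ≤ Nat.log 2 N := Nat.le_log_of_pow_le (by norm_num) hN
    have hN0 : N ≠ 0 := by
      have : 0 < 2 ^ (12 * j) := by positivity
      omega
    have h3 := log_small hj hu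
    have h4 : 2 ^ Nat.log 2 N ≤ N := Nat.pow_log_le_self 2 hN0
    have : 2 ^ (j + 6) * ((Nat.log 2 N + 1) * 2 ^ (3 * j + 6)) ≤ 2 ^ (j + 6) * m := by
      calc 2 ^ (j + 6) * ((Nat.log 2 N + 1) * 2 ^ (3 * j + 6)) =
            (Nat.log 2 N + 1) * 2 ^ (3 * j + 6) * 2 ^ (j + 6) := by ring
        _ ≤ 2 ^ Nat.log 2 N := h3
        _ ≤ N := h4
        _ ≤ _ := hNm
    exact Nat.le_of_mul_le_mul_left this (by positivity)
  have h3 : 8 * ((2 * s + 3 * (Nat.log 2 N + 1)) * (r + 1)) ≤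
      8 * ((2 * s + 3 * (Nat.log 2 N + 1)) * 2 ^ (3 * j)) := by gcongr
  have h4 : 2 * (8 * ((2 * s + 3 * (Nat.log 2 N + 1)) * 2 ^ (3 * j))) ≤ 2 * m := by
    calc 2 * (8 * ((2 * s + 3 * (Nat.log 2 N + 1)) * 2 ^ (3 * j)))
        = 32 * s * 2 ^ (3 * j) + 48 * ((Nat.log 2 N + 1) * 2 ^ (3 * j)) := by ring
      _ ≤ m + m := by
          apply Nat.add_le_add h1
          refine le_trans ?_ h2
          rw [pow_add]
          have : (Nat.log 2 N + 1) * (2 ^ (3 * j) * 2 ^ 6) = 64 * ((Nat.log 2 N + 1) * 2 ^ (3 * j)) := by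
            ring
          rw [this]
          omega
      _ = 2 * m := by ring
  omega

lemma card_ineq {s q' : ℕ} (hq : q' < 2 ^ s) (hr : r + 1 ≤ N) (hel : 2 * el + 2 ≤ N) :
    (q' ^ 2 * ((r + 1) * (2 * el + 2) ^ 2)) ^ (r + 1) ≤
      2 ^ ((2 * s + 3 * (Nat.log 2 N + 1)) * (r + 1)) := by
  rw [pow_mul]
  apply Nat.pow_le_pow_left
  have hN : N < 2 ^ (Nat.log 2 N + 1) := Nat.lt_pow_succ_log_self (by norm_num) N
  calc q' ^ 2 * ((r + 1) * (2 * el + 2) ^ 2) ≤ (2 ^ s) ^ 2 * (N * N ^ 2) := by gcongr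
    _ ≤ (2 ^ s) ^ 2 * (2 ^ (Nat.log 2 N + 1) * (2 ^ (Nat.log 2 N + 1)) ^ 2) := by gcongr
    _ = _ := by ring

/-- the exponents in the popularity argument -/
lemma final_one {s p t : ℕ} (hj : 2816 ≤ j) (hm : 2 ^ (9 * j) ≤ m) (hl : l = m / 32)
    (hp : 8 * p ≤ m) (hs : 8 * s ≤ m) (ht : t ≤ 2 ^ j) :
    2 * t ^ 3 * 2 ^ ((m + 3) / 4) * 2 ^ (l + 1 + s + 1 + p) < 2 ^ m := by
  have h1 : 9 * j < 2 ^ (9 * j) := Nat.lt_two_pow_self
  have h2 : 64 * j ≤ m := by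
    refine le_trans ?_ hm
    calc 64 * j ≤ 2 ^ 6 * 2 ^ j := Nat.mul_le_mul (by norm_num) Nat.lt_two_pow_self.le
      _ = 2 ^ (6 + j) := by rw [pow_add]
      _ ≤ _ := Nat.pow_le_pow_right (by norm_num) (by omega)
  calc 2 * t ^ 3 * 2 ^ ((m + 3) / 4) * 2 ^ (l + 1 + s + 1 + p)
      ≤ 2 * (2 ^ j) ^ 3 * 2 ^ ((m + 3) / 4) * 2 ^ (l + 1 + s + 1 + p) := by gcongr
    _ = 2 ^ (1 + j * 3 + (m + 3) / 4 + (l + 1 + s + 1 + p)) := by
        ring
    _ < 2 ^ m := Nat.pow_lt_pow_right (by norm_num) (by omega)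

lemma final_two {s p t B : ℕ} (hj : 2816 ≤ j) (hm : 2 ^ (9 * j) ≤ m) (hl : l = m / 32)
    (hp : 8 * p ≤ m) (hs : 8 * s ≤ m) (ht : t ≤ 2 ^ j) (hB : B < 2 ^ (m * (j + 4))) :
    2 * t * B * 2 ^ (l + 1 + s + 1 + p) < 2 ^ ((j + 8) * m) := by
  have h2 : 64 * j ≤ m := by
    refine le_trans ?_ hm
    calc 64 * j ≤ 2 ^ 6 * 2 ^ j := Nat.mul_le_mul (by norm_num) Nat.lt_two_pow_self.le
      _ = 2 ^ (6 + j) := by rw [pow_add]
      _ ≤ _ := Nat.pow_le_pow_right (by norm_num) (by omega)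
  calc 2 * t * B * 2 ^ (l + 1 + s + 1 + p)
      ≤ 2 * 2 ^ j * 2 ^ (m * (j + 4)) * 2 ^ (l + 1 + s + 1 + p) := by gcongr
    _ = 2 ^ (1 + j + m * (j + 4) + (l + 1 + s + 1 + p)) := by
        ring
    _ < 2 ^ ((j + 8) * m) := by
        apply Nat.pow_lt_pow_right (by norm_num)
        have : (j + 8) * m = m * (j + 4) + 4 * m := by ring
        rw [this]
        omega

end main

/-- the loss in the number of choices of the large set -/
lemma loss {κ ρ j m : ℕ} (h : 1024 * κ * (j + 8) ≤ ρ) :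
    (1 + 128 * κ / (ρ + 1) : ℝ) ^ ((j + 8) * m) ≤ 2 ^ ((m + 3) / 4) := by
  set a : ℝ := 128 * κ / (ρ + 1) with ha
  have ha0 : 0 ≤ a := by positivity
  have h1 : (1 + a) ^ (4 * (j + 8)) ≤ 2 := by
    have e1 : 1 + a ≤ Real.exp a := by rw [add_comm]; exact Real.add_one_le_exp a
    have e2 : ((4 * (j + 8) : ℕ) : ℝ) * a ≤ 1 / 2 := by
      have hρ : (0 : ℝ) < ρ + 1 := by positivity
      rw [ha, mul_div_assoc', div_le_iff₀ hρ]
      have : (1024 * κ * (j + 8) : ℝ) ≤ ρ := by exact_mod_cast h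
      push_cast
      nlinarith
    calc (1 + a) ^ (4 * (j + 8)) ≤ (Real.exp a) ^ (4 * (j + 8)) :=
          pow_le_pow_left₀ (by positivity) e1 _
      _ = Real.exp (((4 * (j + 8) : ℕ) : ℝ) * a) := by rw [Real.exp_nat_mul]
      _ ≤ Real.exp (1 / 2) := Real.exp_le_exp.2 e2
      _ ≤ 2 := by
          have h3 : Real.exp (1 / 2) ^ 2 ≤ 2 ^ 2 := by
            rw [← Real.exp_nat_mul]
            norm_num
            have := Real.exp_one_lt_d9
            linarith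
          exact le_of_sq_le_sq h3 (by norm_num)
  calc (1 + a) ^ ((j + 8) * m) ≤ (1 + a) ^ ((4 * (j + 8)) * ((m + 3) / 4)) := by
        apply pow_le_pow_right₀ (by linarith)
        have : m ≤ 4 * ((m + 3) / 4) := by omega
        calc (j + 8) * m ≤ (j + 8) * (4 * ((m + 3) / 4)) := Nat.mul_le_mul_left _ this
          _ = _ := by ring
    _ = ((1 + a) ^ (4 * (j + 8))) ^ ((m + 3) / 4) := by rw [pow_mul]
    _ ≤ 2 ^ ((m + 3) / 4) := pow_le_pow_left₀ (by positivity) h1 _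

end Pool.Agent.TS
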