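import Mathlib

/-! Random assignments of trees to three groups. -/

namespace Pool.Agent.TS

open Finset

variable {n r M : ℕ}

lemma card_col (J : Finset (Fin r)) (D : Finset (Fin M)) :
    (univ.filter (fun χ : Fin r → Fin M => ∀ i ∈ J, χ i ∈ D)).card * M ^ J.card =
      D.card ^ J.card * M ^ r := by
  classical
  have h : (univ.filter (fun χ : Fin r → Fin M => ∀ i ∈ J, χ i ∈ D)) =
      Fintype.piFinset (fun i => if i ∈ J then D else univ) := by
    ext χ
    simp only [mem_filter, mem_univ, true_and, Fintype.mem_piFinset]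
    refine forall_congr' fun i => ?_
    by_cases hi : i ∈ J <;> simp [hi]
  rw [h, Fintype.card_piFinset]
  have h2 : ∀ i : Fin r, (if i ∈ J then D else univ).card = if i ∈ J then D.card else M := by
    intro i
    split_ifs <;> simp
  rw [prod_congr rfl fun i _ => h2 i, prod_ite, prod_const, prod_const]
  have h3 : (univ.filter (fun i : Fin r => i ∈ J)) = J := by ext i; simp
  have h4 : (univ.filter (fun i : Fin r => ¬ i ∈ J)).card + J.card = r := by
    have := card_filter_add_card_filter_not (s := (univ : Finset (Fin r))) (fun i => i ∈ J)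
    rw [h3, card_univ, Fintype.card_fin] at this
    omega
  rw [h3, mul_assoc, ← pow_add, h4]

lemma card_col' (hM : 0 < M) (J : Finset (Fin r)) (D : Finset (Fin M)) :
    ((univ.filter (fun χ : Fin r → Fin M => ∀ i ∈ J, χ i ∈ D)).card : ℝ) =
      ((D.card : ℝ) / M) ^ J.card * M ^ r := by
  have h := card_col J D
  have hM' : (0 : ℝ) < M := by exact_mod_cast hM
  have h' : ((univ.filter (fun χ : Fin r → Fin M => ∀ i ∈ J, χ i ∈ D)).card : ℝ) * M ^ J.card =
      D.card ^ J.card * M ^ r := by exact_mod_cast h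
  rw [div_pow, div_mul_eq_mul_div, eq_div_iff (by positivity), h']

/-- number of the variables all of whose trees have colours in `D` -/
def cnt (J : Fin n → Finset (Fin r)) (D : Finset (Fin M)) (χ : Fin r → Fin M) : ℕ :=
  (univ.filter (fun j => ∀ i ∈ J j, χ i ∈ D)).card

lemma sum_cnt (hM : 0 < M) (J : Fin n → Finset (Fin r)) (D : Finset (Fin M)) :
    ∑ χ : Fin r → Fin M, (cnt J D χ : ℝ) = (∑ j, ((D.card : ℝ) / M) ^ (J j).card) * M ^ r := by
  have h1 : ∀ χ : Fin r → Fin M, (cnt J D χ : ℝ) = ∑ j, if ∀ i ∈ J j, χ i ∈ D then (1 : ℝ) else 0 := by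
    intro χ
    rw [cnt, card_filter]
    push_cast
    rfl
  rw [sum_congr rfl fun χ _ => h1 χ, sum_comm, sum_mul]
  refine sum_congr rfl fun j _ => ?_
  rw [← card_col' hM, card_filter]
  push_cast
  rfl

lemma sum_cnt_sq (hM : 0 < M) (J : Fin n → Finset (Fin r)) (D : Finset (Fin M)) :
    ∑ χ : Fin r → Fin M, (cnt J D χ : ℝ) ^ 2 =
      (∑ j, ∑ j', ((D.card : ℝ) / M) ^ (J j ∪ J j').card) * M ^ r := by
  classical
  have h1 : ∀ χ : Fin r → Fin M, (cnt J D χ : ℝ) ^ 2 =
      ∑ j, ∑ j', if ∀ i ∈ J j ∪ J j', χ i ∈ D then (1 : ℝ) else 0 := by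
    intro χ
    rw [cnt, card_filter, sq]
    push_cast
    rw [sum_mul_sum]
    refine sum_congr rfl fun j _ => sum_congr rfl fun j' _ => ?_
    have : (∀ i ∈ J j ∪ J j', χ i ∈ D) ↔ (∀ i ∈ J j, χ i ∈ D) ∧ (∀ i ∈ J j', χ i ∈ D) := by
      simp only [mem_union]
      constructor
      · intro h; exact ⟨fun i hi => h i (Or.inl hi), fun i hi => h i (Or.inr hi)⟩
      · rintro ⟨h, h'⟩ i (hi | hi)
        · exact h i hi
        · exact h' i hi
    by_cases h : (∀ i ∈ J j, χ i ∈ D)
    · by_cases h' : (∀ i ∈ J j', χ i ∈ D)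
      · rw [if_pos h, if_pos h', if_pos (this.2 ⟨h, h'⟩), mul_one]
      · rw [if_neg h', if_neg fun g => h' (this.1 g).2, mul_zero]
    · rw [if_neg h, if_neg fun g => h (this.1 g).1, zero_mul]
  rw [sum_congr rfl fun χ _ => h1 χ, sum_comm, sum_mul]
  refine sum_congr rfl fun j _ => ?_
  rw [sum_comm, sum_mul]
  refine sum_congr rfl fun j' _ => ?_
  rw [← card_col' hM, card_filter]
  push_cast
  rfl

/-- Chebyshev's sum inequality -/
lemma cheb (J : Fin n → Finset (Fin r)) (κ : ℕ) (hn : 0 < n) (hJ : ∑ j, (J j).card ≤ κ * n)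
    {q : ℝ} (q0 : 0 ≤ q) (q1 : q ≤ 1) :
    ∑ j, q ^ (J j).card * (J j).card ≤ κ * ∑ j, q ^ (J j).card := by
  have h1 : Antivary (fun j : Fin n => q ^ (J j).card) (fun j => ((J j).card : ℝ)) := by
    intro i j hij
    have h0 : ((J i).card : ℝ) < ((J j).card : ℝ) := hij
    have : (J i).card < (J j).card := by exact_mod_cast h0
    exact pow_le_pow_of_le_one q0 q1 this.le
  have h2 := h1.card_mul_sum_le_sum_mul_sum
  rw [Fintype.card_fin] at h2
  have h3 : ∑ j, ((J j).card : ℝ) ≤ κ * n := by exact_mod_cast hJ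
  have h4 : 0 ≤ ∑ j, q ^ (J j).card := sum_nonneg fun j _ => by positivity
  have hn' : (0 : ℝ) < n := by exact_mod_cast hn
  have h5 : (n : ℝ) * ∑ j, q ^ (J j).card * (J j).card ≤ n * (κ * ∑ j, q ^ (J j).card) := by
    calc (n : ℝ) * ∑ j, q ^ (J j).card * (J j).card
        ≤ (∑ j, q ^ (J j).card) * ∑ j, ((J j).card : ℝ) := h2
      _ ≤ (∑ j, q ^ (J j).card) * (κ * n) := mul_le_mul_of_nonneg_left h3 h4
      _ = _ := by ring
  exact le_of_mul_le_mul_left h5 hn'

/-- Jensen's inequality -/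
lemma jensen (J : Fin n → Finset (Fin r)) (κ : ℕ) (hJ : ∑ j, (J j).card ≤ κ * n)
    {q : ℝ} (q0 : 0 < q) (q1 : q ≤ 1) :
    (n : ℝ) * q ^ κ ≤ ∑ j, q ^ (J j).card := by
  have hlog : Real.log q ≤ 0 := Real.log_nonpos q0.le q1
  have h1 : ∀ j, q ^ κ * (1 + ((J j).card - κ) * Real.log q) ≤ q ^ (J j).card := by
    intro j
    have e1 : q ^ (J j).card = q ^ κ * Real.exp (((J j).card - κ) * Real.log q) := by
      rw [← Real.exp_log q0, ← Real.exp_nat_mul, ← Real.exp_nat_mul, ← Real.exp_add, Real.exp_log q0]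
      congr 1
      ring
    rw [e1]
    apply mul_le_mul_of_nonneg_left _ (by positivity)
    have := Real.add_one_le_exp (((J j).card - κ) * Real.log q)
    linarith
  calc (n : ℝ) * q ^ κ ≤ q ^ κ * (n + (∑ j, ((J j).card : ℝ) - κ * n) * Real.log q) := by
        rw [mul_comm]
        apply mul_le_mul_of_nonneg_left _ (by positivity)
        have h3 : ∑ j, ((J j).card : ℝ) ≤ κ * n := by exact_mod_cast hJ
        have : 0 ≤ (∑ j, ((J j).card : ℝ) - κ * n) * Real.log q :=
          mul_nonneg_of_nonpos_of_nonpos (by linarith) hlog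
        linarith
    _ = ∑ j, q ^ κ * (1 + ((J j).card - κ) * Real.log q) := by
        rw [← mul_sum, sum_add_distrib, ← sum_mul, sum_sub_distrib, sum_const, sum_const, card_univ,
          Fintype.card_fin, nsmul_eq_mul, nsmul_eq_mul, mul_one, mul_comm (n : ℝ) (κ : ℝ)]
    _ ≤ _ := sum_le_sum fun j _ => h1 j

/-- second moment -/
lemma second (hM : 0 < M) (J : Fin n → Finset (Fin r)) (κ L : ℕ) (hn : 0 < n)
    (hJ : ∑ j, (J j).card ≤ κ * n) (hL : ∀ i, (univ.filter (fun j => i ∈ J j)).card ≤ L)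
    (D : Finset (Fin M)) (hD : 0 < D.card) :
    ∑ χ : Fin r → Fin M, ((cnt J D χ : ℝ) - ∑ j, ((D.card : ℝ) / M) ^ (J j).card) ^ 2 ≤
      L * κ * (∑ j, ((D.card : ℝ) / M) ^ (J j).card) * M ^ r := by
  classical
  set q : ℝ := (D.card : ℝ) / M with hq
  have hM' : (0 : ℝ) < M := by exact_mod_cast hM
  have q0 : 0 < q := by
    have : (0 : ℝ) < D.card := by exact_mod_cast hD
    positivity
  have q1 : q ≤ 1 := by
    rw [hq, div_le_one hM']
    have : D.card ≤ M := by simpa using card_le_univ D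
    exact_mod_cast this
  set μ := ∑ j, q ^ (J j).card with hμ
  have e1 : ∑ χ : Fin r → Fin M, ((cnt J D χ : ℝ) - μ) ^ 2 =
      ((∑ j, ∑ j', q ^ (J j ∪ J j').card) - μ ^ 2) * M ^ r := by
    have : ∀ χ : Fin r → Fin M, ((cnt J D χ : ℝ) - μ) ^ 2 =
        (cnt J D χ : ℝ) ^ 2 - 2 * μ * cnt J D χ + μ ^ 2 := fun χ => by ring
    rw [sum_congr rfl fun χ _ => this χ, sum_add_distrib, sum_sub_distrib, sum_cnt_sq hM, ← mul_sum,
      sum_cnt hM, sum_const, card_univ, Fintype.card_fun, Fintype.card_fin, Fintype.card_fin,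
      nsmul_eq_mul]
    push_cast
    rw [← hq, ← hμ]
    ring
  rw [e1]
  apply mul_le_mul_of_nonneg_right _ (by positivity)
  have e2 : ∀ j, ∑ j', q ^ (J j ∪ J j').card ≤ q ^ (J j).card * μ + q ^ (J j).card * (J j).card * L := by
    intro j
    have f1 : ∀ j', q ^ (J j ∪ J j').card ≤ q ^ (J j).card * q ^ (J j').card +
        ∑ i ∈ J j, if i ∈ J j' then q ^ (J j).card else 0 := by
      intro j'
      by_cases hd : Disjoint (J j) (J j')
      · rw [card_union_of_disjoint hd, pow_add]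
        have : 0 ≤ ∑ i ∈ J j, if i ∈ J j' then q ^ (J j).card else 0 :=
          sum_nonneg fun i _ => by split_ifs <;> positivity
        linarith
      · rw [not_disjoint_iff] at hd
        obtain ⟨i, hi, hi'⟩ := hd
        have h1 : q ^ (J j).card ≤ ∑ i ∈ J j, if i ∈ J j' then q ^ (J j).card else 0 := by
          have := single_le_sum (f := fun i => if i ∈ J j' then q ^ (J j).card else 0)
            (fun i _ => by positivity) hi
          simp only [hi', if_true] at this
          exact this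
        have h2 : q ^ (J j ∪ J j').card ≤ q ^ (J j).card :=
          pow_le_pow_of_le_one q0.le q1 (card_le_card subset_union_left)
        have h3 : 0 ≤ q ^ (J j).card * q ^ (J j').card := by positivity
        linarith
    refine (sum_le_sum fun j' _ => f1 j').trans ?_
    rw [sum_add_distrib, ← mul_sum, ← hμ]
    apply add_le_add le_rfl
    rw [sum_comm]
    calc ∑ i ∈ J j, ∑ j', (if i ∈ J j' then q ^ (J j).card else 0)
        ≤ ∑ i ∈ J j, (L : ℝ) * q ^ (J j).card := by
          refine sum_le_sum fun i _ => ?_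
          rw [← sum_filter, sum_const, nsmul_eq_mul]
          apply mul_le_mul_of_nonneg_right _ (by positivity)
          exact_mod_cast hL i
      _ = _ := by rw [sum_const, nsmul_eq_mul]; ring
  calc (∑ j, ∑ j', q ^ (J j ∪ J j').card) - μ ^ 2
      ≤ ∑ j, (q ^ (J j).card * μ + q ^ (J j).card * (J j).card * L) - μ ^ 2 :=
        sub_le_sub_right (sum_le_sum fun j _ => e2 j) _
    _ = (∑ j, q ^ (J j).card * (J j).card) * L := by
        rw [sum_add_distrib, ← sum_mul, ← sum_mul, ← hμ]; ring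
    _ ≤ (κ * μ) * L := mul_le_mul_of_nonneg_right (cheb J κ hn hJ q0.le q1) (by positivity)
    _ = _ := by ring

lemma count_low (hM : 0 < M) (J : Fin n → Finset (Fin r)) (κ L : ℕ) (hn : 0 < n)
    (hJ : ∑ j, (J j).card ≤ κ * n) (hL : ∀ i, (univ.filter (fun j => i ∈ J j)).card ≤ L)
    (D : Finset (Fin M)) (hD : 0 < D.card)
    (h : 128 * (L : ℝ) * κ ≤ n * ((D.card : ℝ) / M) ^ κ) :
    32 * ((univ.filter (fun χ : Fin r → Fin M =>
      ¬ (∑ j, ((D.card : ℝ) / M) ^ (J j).card) / 2 ≤ cnt J D χ)).card : ℝ) ≤ M ^ r := by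
  classical
  have h2 := second hM J κ L hn hJ hL D hD
  set q : ℝ := (D.card : ℝ) / M with hq
  have hM' : (0 : ℝ) < M := by exact_mod_cast hM
  have q0 : 0 < q := by
    have : (0 : ℝ) < D.card := by exact_mod_cast hD
    positivity
  have q1 : q ≤ 1 := by
    rw [hq, div_le_one hM']
    have : D.card ≤ M := by simpa using card_le_univ D
    exact_mod_cast this
  have hj := jensen J κ hJ q0 q1
  set μ := ∑ j, q ^ (J j).card with hμ
  have hμ0 : 0 < μ := by
    have : (0 : ℝ) < n * q ^ κ := by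
      have : (0 : ℝ) < n := by exact_mod_cast hn
      positivity
    linarith
  set Bd := univ.filter (fun χ : Fin r → Fin M => ¬ μ / 2 ≤ cnt J D χ) with hBd
  have h3 : (Bd.card : ℝ) * (μ / 2) ^ 2 ≤ ∑ χ : Fin r → Fin M, ((cnt J D χ : ℝ) - μ) ^ 2 := by
    calc (Bd.card : ℝ) * (μ / 2) ^ 2 = ∑ _χ ∈ Bd, (μ / 2) ^ 2 := by rw [sum_const, nsmul_eq_mul]
      _ ≤ ∑ χ ∈ Bd, ((cnt J D χ : ℝ) - μ) ^ 2 := by
          refine sum_le_sum fun χ hχ => ?_
          have h4 := not_le.1 (mem_filter.1 hχ).2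
          have h5 : μ / 2 ≤ μ - cnt J D χ := by linarith
          have h6 : ((cnt J D χ : ℝ) - μ) ^ 2 = (μ - cnt J D χ) ^ 2 := by ring
          rw [h6]
          exact pow_le_pow_left₀ (by positivity) h5 2
      _ ≤ _ := sum_le_sum_of_subset_of_nonneg (subset_univ _) fun _ _ _ => by positivity
  have h4 : (Bd.card : ℝ) * (μ / 2) ^ 2 ≤ L * κ * μ * M ^ r := h3.trans h2
  have h5 : (Bd.card : ℝ) * μ ≤ 4 * L * κ * M ^ r := by
    have : ((Bd.card : ℝ) * μ) * μ ≤ (4 * L * κ * M ^ r) * μ := by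
      calc ((Bd.card : ℝ) * μ) * μ = 4 * ((Bd.card : ℝ) * (μ / 2) ^ 2) := by ring
        _ ≤ 4 * (L * κ * μ * M ^ r) := by linarith
        _ = _ := by ring
    exact le_of_mul_le_mul_right this hμ0
  have h6 : (32 * (Bd.card : ℝ)) * μ ≤ M ^ r * μ := by
    calc (32 * (Bd.card : ℝ)) * μ = 32 * ((Bd.card : ℝ) * μ) := by ring
      _ ≤ 32 * (4 * L * κ * M ^ r) := by linarith
      _ = (128 * L * κ) * M ^ r := by ring
      _ ≤ μ * M ^ r := mul_le_mul_of_nonneg_right (h.trans hj) (by positivity)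
      _ = _ := by ring
  exact le_of_mul_le_mul_right h6 hμ0

/-- Most assignments of the trees to the groups `0`, `1, ..., ρ` and the rest are good. -/
theorem prob {ρ : ℕ} (hM : M = 4 * ρ) (hρ : 0 < ρ) (J : Fin n → Finset (Fin r)) (κ L : ℕ)
    (hn : 0 < n) (hJ : ∑ j, (J j).card ≤ κ * n)
    (hL : ∀ i, (univ.filter (fun j => i ∈ J j)).card ≤ L) (h : 128 * L * κ * M ^ κ ≤ n)
    (D0 DA DAB : Finset (Fin M)) (h0 : D0.card = 1) (hA : DA.card = ρ) (hAB : DAB.card = ρ + 1)
    (hsub : DA ⊆ DAB) :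
    8 * (univ.filter (fun χ : Fin r → Fin M =>
      ¬ (n ≤ 2 * M ^ κ * cnt J D0 χ ∧ n ≤ 2 * 4 ^ κ * cnt J DAB χ ∧
        (ρ + 1) * cnt J DAB χ ≤ (ρ + 1) * cnt J DA χ + 32 * κ * cnt J DAB χ))).card ≤ M ^ r := by
  classical
  have hM0 : 0 < M := by omega
  have hM' : (0 : ℝ) < M := by exact_mod_cast hM0
  have hρ' : (0 : ℝ) < ρ := by exact_mod_cast hρ
  have hMρ : (M : ℝ) = 4 * ρ := by rw [hM]; push_cast; ring
  have hh : 128 * (L : ℝ) * κ * M ^ κ ≤ n := by exact_mod_cast h
  have hM4 : (4 : ℝ) ≤ M := by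
    rw [hMρ]
    have : (1 : ℝ) ≤ ρ := by exact_mod_cast hρ
    linarith
  -- first event
  have c1 : 128 * (L : ℝ) * κ ≤ n * ((D0.card : ℝ) / M) ^ κ := by
    rw [h0, Nat.cast_one, one_div, inv_pow, ← div_eq_mul_inv, le_div_iff₀ (by positivity)]
    exact hh
  have q1 : (1 : ℝ) / 4 ≤ (DAB.card : ℝ) / M := by
    rw [hAB, hMρ, div_le_div_iff₀ (by norm_num) (by positivity)]
    push_cast
    linarith
  have c2 : 128 * (L : ℝ) * κ ≤ n * ((DAB.card : ℝ) / M) ^ κ := by
    have e1 : (1 / 4 : ℝ) ^ κ ≤ ((DAB.card : ℝ) / M) ^ κ := pow_le_pow_left₀ (by norm_num) q1 κ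
    have e2 : 128 * (L : ℝ) * κ * 4 ^ κ ≤ n := by
      refine le_trans ?_ hh
      exact mul_le_mul_of_nonneg_left (pow_le_pow_left₀ (by norm_num) hM4 κ) (by positivity)
    have e3 : (1 / 4 : ℝ) ^ κ * 4 ^ κ = 1 := by rw [← mul_pow]; norm_num
    calc 128 * (L : ℝ) * κ = (128 * (L : ℝ) * κ * 4 ^ κ) * (1 / 4 : ℝ) ^ κ := by
          rw [mul_assoc _ (4 ^ κ), mul_comm (4 ^ κ), e3, mul_one]
      _ ≤ n * (1 / 4 : ℝ) ^ κ := mul_le_mul_of_nonneg_right e2 (by positivity)
      _ ≤ _ := mul_le_mul_of_nonneg_left e1 (by positivity)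
  have b1 := count_low hM0 J κ L hn hJ hL D0 (by omega) c1
  have b2 := count_low hM0 J κ L hn hJ hL DAB (by omega) c2
  have j1 := jensen J κ hJ (q := (D0.card : ℝ) / M) (by rw [h0]; positivity)
    (by rw [h0, div_le_one hM']; push_cast; linarith)
  have hABc : (DAB.card : ℝ) ≤ M := by
    have : DAB.card ≤ M := by simpa using card_le_univ DAB
    exact_mod_cast this
  have j2 := jensen J κ hJ (q := (DAB.card : ℝ) / M) (by rw [hAB]; positivity)
    (by rw [div_le_one hM']; exact hABc)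
  set q : ℝ := (DAB.card : ℝ) / M with hq
  have hq0 : 0 < q := by linarith
  have hq1 : q ≤ 1 := by rw [hq, div_le_one hM']; exact hABc
  set μ := ∑ j, q ^ (J j).card with hμ
  have hμ0 : 0 < μ := by
    have : (0 : ℝ) < n * q ^ κ := by
      have : (0 : ℝ) < n := by exact_mod_cast hn
      positivity
    linarith
  -- third event
  have hle : ∀ χ : Fin r → Fin M, cnt J DA χ ≤ cnt J DAB χ := by
    intro χ
    apply card_le_card
    intro j hj
    exact mem_filter.2 ⟨mem_univ _, fun i hi => hsub ((mem_filter.1 hj).2 i hi)⟩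
  have b3 : 16 * ((univ.filter (fun χ : Fin r → Fin M =>
      16 * κ * μ < (ρ + 1) * ((cnt J DAB χ : ℝ) - cnt J DA χ))).card : ℝ) ≤ M ^ r := by
    set Bd := univ.filter (fun χ : Fin r → Fin M =>
      16 * κ * μ < (ρ + 1) * ((cnt J DAB χ : ℝ) - cnt J DA χ)) with hBd
    rcases Nat.eq_zero_or_pos κ with hκ | hκ
    · -- no variable is read
      subst hκ
      have hz : ∀ j, J j = ∅ := by
        intro j
        rw [zero_mul] at hJ
        have := Finset.single_le_sum (f := fun j => (J j).card) (fun _ _ => Nat.zero_le _) (mem_univ j)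
        rw [← card_eq_zero]
        omega
      have : Bd = ∅ := by
        rw [hBd, filter_eq_empty_iff]
        intro χ _
        have e1 : cnt J DA χ = n := by simp [cnt, hz]
        have e2 : cnt J DAB χ = n := by simp [cnt, hz]
        rw [e1, e2, sub_self, mul_zero, Nat.cast_zero, mul_zero, zero_mul]
        exact lt_irrefl 0
      rw [this, card_empty, Nat.cast_zero, mul_zero]
      positivity
    · have hκ' : (0 : ℝ) < κ := by exact_mod_cast hκ
      have s1 : ∑ χ : Fin r → Fin M, ((cnt J DAB χ : ℝ) - cnt J DA χ) * (ρ + 1) ≤ κ * μ * M ^ r := by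
        rw [← sum_mul, sum_sub_distrib, sum_cnt hM0, sum_cnt hM0, ← sub_mul, ← hq, ← hμ]
        have e1 : ∀ j, q ^ (J j).card * (1 - (J j).card / (ρ + 1)) ≤ ((DA.card : ℝ) / M) ^ (J j).card := by
          intro j
          have f1 : (DA.card : ℝ) / M = q * (1 + -(1 / (ρ + 1))) := by
            have hρ1 : (ρ : ℝ) + 1 ≠ 0 := by positivity
            have hM1 : (M : ℝ) ≠ 0 := hM'.ne'
            rw [hq, hA, hAB]
            push_cast
            rw [div_mul_eq_mul_div, div_left_inj' hM1, mul_add, mul_neg, mul_one_div_cancel hρ1]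
            ring
          rw [f1, mul_pow]
          apply mul_le_mul_of_nonneg_left _ (by positivity)
          have f2 : -2 ≤ -(1 / ((ρ : ℝ) + 1)) := by
            have : 1 / ((ρ : ℝ) + 1) ≤ 1 := by
              rw [div_le_one (by positivity)]; linarith
            linarith
          have := one_add_mul_le_pow f2 (J j).card
          calc (1 : ℝ) - (J j).card / (ρ + 1) = 1 + (J j).card * (-(1 / (ρ + 1))) := by ring
            _ ≤ _ := this
        have e2 : μ - ∑ j, ((DA.card : ℝ) / M) ^ (J j).card ≤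
            (∑ j, q ^ (J j).card * (J j).card) / (ρ + 1) := by
          rw [hμ, ← sum_sub_distrib, sum_div]
          refine sum_le_sum fun j _ => ?_
          have := e1 j
          have e3 : q ^ (J j).card * (1 - (J j).card / (ρ + 1)) =
            q ^ (J j).card - q ^ (J j).card * (J j).card / (ρ + 1) := by ring
          linarith
        have e4 := cheb J κ hn hJ hq0.le hq1
        calc (μ - ∑ j, ((DA.card : ℝ) / M) ^ (J j).card) * M ^ r * (ρ + 1)
            ≤ ((∑ j, q ^ (J j).card * (J j).card) / (ρ + 1)) * M ^ r * (ρ + 1) := by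
              apply mul_le_mul_of_nonneg_right _ (by positivity)
              exact mul_le_mul_of_nonneg_right e2 (by positivity)
          _ = (∑ j, q ^ (J j).card * (J j).card) * M ^ r := by
              have hρ1 : (ρ : ℝ) + 1 ≠ 0 := by positivity
              rw [div_mul_eq_mul_div, div_mul_cancel₀ _ hρ1]
          _ ≤ _ := mul_le_mul_of_nonneg_right e4 (by positivity)
      have s2 : (Bd.card : ℝ) * (16 * κ * μ) ≤
          ∑ χ : Fin r → Fin M, ((cnt J DAB χ : ℝ) - cnt J DA χ) * (ρ + 1) := by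
        calc (Bd.card : ℝ) * (16 * κ * μ) = ∑ _χ ∈ Bd, (16 * κ * μ) := by
              rw [sum_const, nsmul_eq_mul]
          _ ≤ ∑ χ ∈ Bd, ((cnt J DAB χ : ℝ) - cnt J DA χ) * (ρ + 1) := by
              refine sum_le_sum fun χ hχ => ?_
              rw [mul_comm]
              have := (mem_filter.1 hχ).2
              linarith
          _ ≤ _ := by
              apply sum_le_sum_of_subset_of_nonneg (subset_univ _)
              intro χ _ _
              have : (cnt J DA χ : ℝ) ≤ cnt J DAB χ := by exact_mod_cast hle χ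
              exact mul_nonneg (by linarith) (by positivity)
      have s3 : (16 * (Bd.card : ℝ)) * (κ * μ) ≤ M ^ r * (κ * μ) := by
        calc (16 * (Bd.card : ℝ)) * (κ * μ) = (Bd.card : ℝ) * (16 * κ * μ) := by ring
          _ ≤ κ * μ * M ^ r := s2.trans s1
          _ = _ := by ring
      exact le_of_mul_le_mul_right s3 (mul_pos hκ' hμ0)
  -- union bound
  set E1 := univ.filter (fun χ : Fin r → Fin M =>
      ¬ (∑ j, ((D0.card : ℝ) / M) ^ (J j).card) / 2 ≤ cnt J D0 χ) with hE1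
  set E2 := univ.filter (fun χ : Fin r → Fin M => ¬ μ / 2 ≤ cnt J DAB χ) with hE2
  set E3 := univ.filter (fun χ : Fin r → Fin M =>
      16 * κ * μ < (ρ + 1) * ((cnt J DAB χ : ℝ) - cnt J DA χ)) with hE3
  have hcov : (univ.filter (fun χ : Fin r → Fin M =>
      ¬ (n ≤ 2 * M ^ κ * cnt J D0 χ ∧ n ≤ 2 * 4 ^ κ * cnt J DAB χ ∧
        (ρ + 1) * cnt J DAB χ ≤ (ρ + 1) * cnt J DA χ + 32 * κ * cnt J DAB χ))) ⊆
      E1 ∪ (E2 ∪ E3) := by
    intro χ hχ
    by_contra hcon
    rw [mem_union, mem_union, not_or, not_or] at hcon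
    obtain ⟨g1, g2, g3⟩ := hcon
    have g1' : (∑ j, ((D0.card : ℝ) / M) ^ (J j).card) / 2 ≤ cnt J D0 χ := by
      by_contra g; exact g1 (mem_filter.2 ⟨mem_univ _, g⟩)
    have g2' : μ / 2 ≤ cnt J DAB χ := by
      by_contra g; exact g2 (mem_filter.2 ⟨mem_univ _, g⟩)
    have g3' : (ρ + 1) * ((cnt J DAB χ : ℝ) - cnt J DA χ) ≤ 16 * κ * μ := by
      by_contra g; exact g3 (mem_filter.2 ⟨mem_univ _, not_le.1 g⟩)
    apply (mem_filter.1 hχ).2
    refine ⟨?_, ?_, ?_⟩
    · have : (n : ℝ) ≤ 2 * M ^ κ * cnt J D0 χ := by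
        have e1 : (n : ℝ) * (1 / M : ℝ) ^ κ ≤ 2 * cnt J D0 χ := by
          rw [h0, Nat.cast_one] at j1 g1'
          linarith
        have e2 : (1 / M : ℝ) ^ κ * M ^ κ = 1 := by
          rw [← mul_pow, one_div, inv_mul_cancel₀ hM'.ne', one_pow]
        calc (n : ℝ) = (n * (1 / M : ℝ) ^ κ) * M ^ κ := by rw [mul_assoc, e2, mul_one]
          _ ≤ (2 * cnt J D0 χ) * M ^ κ := mul_le_mul_of_nonneg_right e1 (by positivity)
          _ = _ := by ring
      exact_mod_cast this
    · have : (n : ℝ) ≤ 2 * 4 ^ κ * cnt J DAB χ := by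
        have e0 : (1 / 4 : ℝ) ^ κ ≤ q ^ κ := pow_le_pow_left₀ (by norm_num) q1 κ
        have e1 : (n : ℝ) * (1 / 4 : ℝ) ^ κ ≤ 2 * cnt J DAB χ := by
          have : (n : ℝ) * (1 / 4 : ℝ) ^ κ ≤ n * q ^ κ := mul_le_mul_of_nonneg_left e0 (by positivity)
          linarith
        have e2 : (1 / 4 : ℝ) ^ κ * 4 ^ κ = 1 := by rw [← mul_pow]; norm_num
        calc (n : ℝ) = (n * (1 / 4 : ℝ) ^ κ) * 4 ^ κ := by rw [mul_assoc, e2, mul_one]
          _ ≤ (2 * cnt J DAB χ) * 4 ^ κ := mul_le_mul_of_nonneg_right e1 (by positivity)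
          _ = _ := by ring
      exact_mod_cast this
    · have : ((ρ : ℝ) + 1) * cnt J DAB χ ≤ (ρ + 1) * cnt J DA χ + 32 * κ * cnt J DAB χ := by
        have : 16 * κ * μ ≤ 32 * κ * cnt J DAB χ := by
          have hκ' : (0 : ℝ) ≤ κ := by positivity
          calc 16 * κ * μ = (32 * κ) * (μ / 2) := by ring
            _ ≤ (32 * κ) * cnt J DAB χ := mul_le_mul_of_nonneg_left g2' (by positivity)
        linarith
      exact_mod_cast this
  have h1 := (card_le_card hcov).trans ((card_union_le _ _).trans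
    (Nat.add_le_add_left (card_union_le _ _) _))
  clear_value E1 E2 E3
  clear hcov
  generalize (univ.filter (fun χ : Fin r → Fin M =>
      ¬ (n ≤ 2 * M ^ κ * cnt J D0 χ ∧ n ≤ 2 * 4 ^ κ * cnt J DAB χ ∧
        (ρ + 1) * cnt J DAB χ ≤ (ρ + 1) * cnt J DA χ + 32 * κ * cnt J DAB χ))).card = b at h1 ⊢
  have h2 : (b : ℝ) ≤ E1.card + (E2.card + E3.card) := by exact_mod_cast h1
  have h3 : (0 : ℝ) ≤ M ^ r := by positivity
  have hfin : (8 : ℝ) * b ≤ M ^ r := by linarith
  exact_mod_cast hfin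

end Pool.Agent.TS
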