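import Pool.Agent.TS.Core
import Pool.Agent.TS.Prob

/-! Choice of a decision forest and of the groups of its trees. -/

namespace Pool.Agent.TS

open Finset

lemma ratio {s s' w κ ρ q : ℕ} (h1 : (ρ + 1) * s' ≤ (ρ + 1) * s + 32 * κ * s') (hρ : 64 * κ ≤ ρ + 1)
    (hw : 4 * w ≤ s') (hq : (1 + 128 * κ / (ρ + 1) : ℝ) ^ w ≤ 2 ^ q) :
    2 * w ≤ s ∧ s'.choose w ≤ 2 ^ q * s.choose w := by
  have h2 : s' ≤ 2 * s := by
    have : (ρ + 1) * s' ≤ (ρ + 1) * (2 * s) := by nlinarith
    exact Nat.le_of_mul_le_mul_left this (by positivity)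
  refine ⟨by omega, ?_⟩
  set a : ℝ := 128 * κ / (ρ + 1) with ha
  have ha0 : 0 ≤ a := by positivity
  have hρ0 : (0 : ℝ) < ρ + 1 := by positivity
  have h3 : (s' : ℝ) - s ≤ a * s / 2 := by
    have e1 : ((ρ : ℝ) + 1) * s' ≤ (ρ + 1) * s + 32 * κ * s' := by exact_mod_cast h1
    have e2 : (s' : ℝ) ≤ 2 * s := by exact_mod_cast h2
    have e3 : ((ρ : ℝ) + 1) * (s' - s) ≤ (ρ + 1) * (a * s / 2) := by
      have e4 : ((ρ : ℝ) + 1) * (a * s / 2) = 64 * κ * s := by
        rw [ha]; field_simp; ring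
      rw [e4]
      have hκ : (0 : ℝ) ≤ κ := by positivity
      nlinarith
    exact le_of_mul_le_mul_left e3 hρ0
  have h4 : ∀ v ≤ w, (s'.descFactorial v : ℝ) ≤ (1 + a) ^ v * s.descFactorial v := by
    intro v
    induction v with
    | zero => intro _; simp
    | succ v ih =>
      intro hv
      rw [Nat.descFactorial_succ, Nat.descFactorial_succ]
      push_cast
      have e1 : ((s' - v : ℕ) : ℝ) ≤ (1 + a) * ((s - v : ℕ) : ℝ) := by
        rw [Nat.cast_sub (by omega), Nat.cast_sub (by omega)]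
        have e2 : 2 * (v : ℝ) ≤ s := by
          have : 2 * v ≤ s := by omega
          exact_mod_cast this
        nlinarith
      calc ((s' - v : ℕ) : ℝ) * (s'.descFactorial v : ℝ)
          ≤ ((1 + a) * ((s - v : ℕ) : ℝ)) * ((1 + a) ^ v * s.descFactorial v) :=
            mul_le_mul e1 (ih (by omega)) (by positivity) (by positivity)
        _ = _ := by ring
  have h5 := h4 w le_rfl
  rw [Nat.descFactorial_eq_factorial_mul_choose, Nat.descFactorial_eq_factorial_mul_choose] at h5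
  push_cast at h5
  have hf : (0 : ℝ) < (w.factorial : ℝ) := by exact_mod_cast Nat.factorial_pos w
  have h6 : (s'.choose w : ℝ) ≤ (1 + a) ^ w * s.choose w := by
    have : (w.factorial : ℝ) * s'.choose w ≤ w.factorial * ((1 + a) ^ w * s.choose w) := by
      calc (w.factorial : ℝ) * s'.choose w ≤ (1 + a) ^ w * (w.factorial * s.choose w) := h5
        _ = _ := by ring
    exact le_of_mul_le_mul_left this hf
  have h7 : (s'.choose w : ℝ) ≤ 2 ^ q * s.choose w :=
    h6.trans (mul_le_mul_of_nonneg_right hq (by positivity))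
  exact_mod_cast h7

lemma card_fin_filter (N : ℕ) (P : ℕ → Prop) [DecidablePred P] :
    (univ.filter (fun c : Fin N => P c)).card = ((range N).filter P).card := by
  rw [card_filter, card_filter, Fin.sum_univ_eq_sum_range (fun i => if P i then 1 else 0)]

lemma card_unread {n r M : ℕ} (F : Forest (Fin n) r) (x : Fin n → Bool) (χ : Fin r → Fin M)
    (D : Finset (Fin M)) (A : Finset (Fin r)) (hA : ∀ i, i ∈ A ↔ χ i ∈ D) :
    (unread F Aᶜ x).card = cnt (fun j => univ.filter (fun i => j ∈ F.V i x)) D χ := by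
  unfold unread cnt
  congr 1
  ext j
  simp only [mem_filter, mem_univ, true_and, mem_compl, hA]
  constructor
  · intro h i hi
    by_contra hc
    exact h i hc hi
  · intro h i hi hj
    exact hi (h i hj)

open Classical in
/-- The main combinatorial result: among the inputs accepted by one of few forests there are the
mixes of two large sets. -/
theorem param {P : Type} [Fintype P] {n r κ ρ L m w t e q : ℕ} (F : P → Forest (Fin n) r)
    (hcov : ∀ p x j, ∃ i, j ∈ (F p).V i x) (hL : ∀ p x i, ((F p).V i x).card ≤ L)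
    (hκ : ∀ p x, ∑ i, ((F p).V i x).card ≤ κ * n) (hn : 0 < n) (hρ : 0 < ρ)
    (h128 : 128 * L * κ * (4 * ρ) ^ κ ≤ n) (hm : 2 * (4 * ρ) ^ κ * m ≤ n)
    (hw : 8 * 4 ^ κ * w ≤ n) (hρκ : 64 * κ ≤ ρ + 1)
    (hq : (1 + 128 * κ / (ρ + 1) : ℝ) ^ w ≤ 2 ^ q)
    (X : Finset (Fin n → Bool)) (hX0 : X.Nonempty) (hX : ∀ x ∈ X, ∃ p, x ∈ (F p).all)
    (hXc : 2 ^ n * (2 * Fintype.card P) ≤ 2 ^ e * X.card)
    (h2 : 2 * t * n.choose m * 2 ^ e < 2 ^ w) (h1 : 2 * t ^ 3 * 2 ^ q * 2 ^ e < 2 ^ m) :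
    ∃ (p : P) (x : Fin n → Bool) (S T : Finset (Fin n)) (F2 F1 : Finset (Fin n → Bool)),
      Disjoint S T ∧ S.card = w ∧ T.card = m ∧ t < F2.card ∧ t ^ 3 < F1.card ∧
      (∀ y ∈ F2, Off S x y) ∧ (∀ y ∈ F1, Off T x y) ∧
      ∀ y ∈ F2, ∀ y' ∈ F1, (fun j => if j ∈ S then y j else y' j) ∈ (F p).all := by
  -- one forest
  have hP0 : 0 < Fintype.card P := by
    obtain ⟨x, hx⟩ := hX0
    obtain ⟨p, _⟩ := hX x hx
    exact Fintype.card_pos_iff.2 ⟨p⟩
  have hXpos : 0 < X.card := card_pos.2 hX0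
  obtain ⟨p, hp⟩ : ∃ p, X.card ≤ (X.filter (fun x => x ∈ (F p).all)).card * Fintype.card P := by
    by_contra hcon
    push Not at hcon
    have e1 : X.card ≤ ∑ p : P, (X.filter (fun x => x ∈ (F p).all)).card := by
      refine le_trans (card_le_card ?_) card_biUnion_le
      intro x hx
      obtain ⟨p, hp⟩ := hX x hx
      exact mem_biUnion.2 ⟨p, mem_univ _, mem_filter.2 ⟨hx, hp⟩⟩
    have e2 : ∑ p : P, (X.filter (fun x => x ∈ (F p).all)).card * Fintype.card P <
        ∑ _p : P, X.card :=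
      sum_lt_sum_of_nonempty (univ_nonempty_iff.2 (Fintype.card_pos_iff.1 hP0)) fun p _ => hcon p
    rw [← sum_mul, sum_const, card_univ, smul_eq_mul, mul_comm (Fintype.card P)] at e2
    have := Nat.mul_le_mul_right (Fintype.card P) e1
    omega
  set Xp := X.filter (fun x => x ∈ (F p).all) with hXp
  have hXp0 : 0 < Xp.card := by
    by_contra h0
    have : Xp.card = 0 := by omega
    rw [this, zero_mul] at hp
    omega
  -- groups of colours
  set D0 : Finset (Fin (4 * ρ)) := univ.filter (fun c => (c : ℕ) = 0) with hD0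
  set DA : Finset (Fin (4 * ρ)) := univ.filter (fun c => 1 ≤ (c : ℕ) ∧ (c : ℕ) ≤ ρ) with hDA
  set DAB : Finset (Fin (4 * ρ)) := univ.filter (fun c => (c : ℕ) ≤ ρ) with hDAB
  have c0 : D0.card = 1 := by
    rw [hD0, card_fin_filter (4 * ρ) (fun c => c = 0)]
    have : (range (4 * ρ)).filter (fun c => c = 0) = {0} := by
      ext c; simp only [mem_filter, mem_range, mem_singleton]; omega
    rw [this, card_singleton]
  have cA : DA.card = ρ := by
    rw [hDA, card_fin_filter (4 * ρ) (fun c => 1 ≤ c ∧ c ≤ ρ)]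
    have : (range (4 * ρ)).filter (fun c => 1 ≤ c ∧ c ≤ ρ) = Icc 1 ρ := by
      ext c; simp only [mem_filter, mem_range, mem_Icc]; omega
    rw [this, Nat.card_Icc]; omega
  have cAB : DAB.card = ρ + 1 := by
    rw [hDAB, card_fin_filter (4 * ρ) (fun c => c ≤ ρ)]
    have : (range (4 * ρ)).filter (fun c => c ≤ ρ) = range (ρ + 1) := by
      ext c; simp only [mem_filter, mem_range]; omega
    rw [this, card_range]
  have hsub : DA ⊆ DAB := by
    intro c hc
    exact mem_filter.2 ⟨mem_univ _, (mem_filter.1 hc).2.2⟩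
  -- the assignment
  let J : (Fin n → Bool) → Fin n → Finset (Fin r) := fun x j => univ.filter (fun i => j ∈ (F p).V i x)
  let good : (Fin n → Bool) → (Fin r → Fin (4 * ρ)) → Prop := fun x χ =>
    n ≤ 2 * (4 * ρ) ^ κ * cnt (J x) D0 χ ∧ n ≤ 2 * 4 ^ κ * cnt (J x) DAB χ ∧
        (ρ + 1) * cnt (J x) DAB χ ≤ (ρ + 1) * cnt (J x) DA χ + 32 * κ * cnt (J x) DAB χ
  have hprob : ∀ x, 8 * (univ.filter (fun χ => ¬ good x χ)).card ≤ (4 * ρ) ^ r := by
    intro x
    refine prob rfl hρ (J x) κ L hn ?_ ?_ h128 D0 DA DAB c0 cA cAB hsub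
    · refine le_trans (le_of_eq ?_) (hκ p x)
      simp only [J, card_filter]
      rw [sum_comm]
      refine sum_congr rfl fun i _ => ?_
      rw [← card_filter]
      congr 1
      ext j; simp
    · intro i
      refine le_trans (le_of_eq ?_) (hL p x i)
      congr 1
      ext j; simp [J]
  obtain ⟨χ, hχ⟩ : ∃ χ : Fin r → Fin (4 * ρ), 8 * (Xp.filter (fun x => ¬ good x χ)).card ≤ Xp.card := by
    by_contra hcon
    push Not at hcon
    have e1 : ∑ χ : Fin r → Fin (4 * ρ), 8 * (Xp.filter (fun x => ¬ good x χ)).card =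
        ∑ x ∈ Xp, 8 * (univ.filter (fun χ => ¬ good x χ)).card := by
      rw [← mul_sum, ← mul_sum]
      congr 1
      simp only [card_filter]
      rw [sum_comm]
    have e2 : ∑ x ∈ Xp, 8 * (univ.filter (fun χ => ¬ good x χ)).card ≤ Xp.card * (4 * ρ) ^ r := by
      calc ∑ x ∈ Xp, 8 * (univ.filter (fun χ => ¬ good x χ)).card ≤ ∑ _x ∈ Xp, (4 * ρ) ^ r :=
            sum_le_sum fun x _ => hprob x
        _ = _ := by rw [sum_const, smul_eq_mul]
    have hne : (univ : Finset (Fin r → Fin (4 * ρ))).Nonempty := by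
      rw [← card_pos, card_univ, Fintype.card_fun, Fintype.card_fin, Fintype.card_fin]
      positivity
    have e3 : ∑ _χ : Fin r → Fin (4 * ρ), Xp.card <
        ∑ χ : Fin r → Fin (4 * ρ), 8 * (Xp.filter (fun x => ¬ good x χ)).card :=
      sum_lt_sum_of_nonempty hne fun χ _ => hcon χ
    rw [sum_const, card_univ, Fintype.card_fun, Fintype.card_fin, Fintype.card_fin, smul_eq_mul,
      e1, mul_comm] at e3
    omega
  set Xg := Xp.filter (fun x => good x χ) with hXg
  have hXgc : Xp.card ≤ 2 * Xg.card := by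
    have h9 : Xg.card + (Xp.filter (fun x => ¬ good x χ)).card = Xp.card := by
      rw [hXg]
      exact card_filter_add_card_filter_not (s := Xp) (fun x => good x χ)
    omega
  have hXg0 : 0 < Xg.card := by omega
  set A : Finset (Fin r) := univ.filter (fun i => χ i ∈ DA) with hA
  set B : Finset (Fin r) := univ.filter (fun i => χ i ∈ D0) with hB
  have hmA : ∀ i, i ∈ A ↔ χ i ∈ DA := fun i => by simp [hA]
  have hmB : ∀ i, i ∈ B ↔ χ i ∈ D0 := fun i => by simp [hB]
  have hmAB : ∀ i, i ∈ A ∪ B ↔ χ i ∈ DAB := by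
    intro i
    rw [mem_union, hmA, hmB, hDA, hD0, hDAB]
    simp only [mem_filter, mem_univ, true_and]
    omega
  have uA : ∀ x, (unread (F p) Aᶜ x).card = cnt (J x) DA χ := fun x => card_unread (F p) x χ DA A hmA
  have uB : ∀ x, (unread (F p) Bᶜ x).card = cnt (J x) D0 χ := fun x => card_unread (F p) x χ D0 B hmB
  have uAB : ∀ x, (unread (F p) (A ∪ B)ᶜ x).card = cnt (J x) DAB χ := fun x =>
    card_unread (F p) x χ DAB (A ∪ B) hmAB
  have hgood : ∀ x ∈ Xg, good x χ := fun x hx => (mem_filter.1 hx).2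
  have hr : ∀ x ∈ Xg, 2 * w ≤ (unread (F p) Aᶜ x).card ∧
      (unread (F p) (A ∪ B)ᶜ x).card.choose w ≤ 2 ^ q * (unread (F p) Aᶜ x).card.choose w := by
    intro x hx
    obtain ⟨g1, g2, g3⟩ := hgood x hx
    rw [uA, uAB]
    refine ratio g3 hρκ ?_ hq
    have : (2 * 4 ^ κ) * (4 * w) ≤ (2 * 4 ^ κ) * cnt (J x) DAB χ := by
      calc (2 * 4 ^ κ) * (4 * w) = 8 * 4 ^ κ * w := by ring
        _ ≤ n := hw
        _ ≤ _ := g2
    exact Nat.le_of_mul_le_mul_left this (by positivity)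
  have hbig : 2 ^ n ≤ 2 ^ e * Xg.card := by
    have : Fintype.card P * 2 * 2 ^ n ≤ Fintype.card P * 2 * (2 ^ e * Xg.card) := by
      calc Fintype.card P * 2 * 2 ^ n = 2 ^ n * (2 * Fintype.card P) := by ring
        _ ≤ 2 ^ e * X.card := hXc
        _ ≤ 2 ^ e * (Xp.card * Fintype.card P) := Nat.mul_le_mul_left _ hp
        _ ≤ 2 ^ e * ((2 * Xg.card) * Fintype.card P) := by gcongr
        _ = _ := by ring
    exact Nat.le_of_mul_le_mul_left this (by positivity)
  obtain ⟨x, S, T, F2, F1, r1, r2, r3, r4, r5, r6, r7, r8⟩ := core (F p) (hcov p) A B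
    (by
      rw [disjoint_left]
      intro i hi hi'
      rw [hmA, hDA, mem_filter] at hi
      rw [hmB, hD0, mem_filter] at hi'
      omega)
    Xg (fun x hx => (mem_filter.1 (mem_filter.1 hx).1).2) w m (t ^ 3) t (2 ^ q)
    (by
      intro x hx
      rw [uB]
      obtain ⟨g1, _, _⟩ := hgood x hx
      have : (2 * (4 * ρ) ^ κ) * m ≤ (2 * (4 * ρ) ^ κ) * cnt (J x) D0 χ := hm.trans g1
      exact Nat.le_of_mul_le_mul_left this (by positivity))
    (fun x hx => by have := (hr x hx).1; omega)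
    (fun x hx => (hr x hx).2)
    (by
      calc 2 * (t * n.choose m * 2 ^ n) ≤ 2 * (t * n.choose m * (2 ^ e * Xg.card)) := by gcongr
        _ = (2 * t * n.choose m * 2 ^ e) * Xg.card := by ring
        _ < 2 ^ w * Xg.card := Nat.mul_lt_mul_of_pos_right h2 hXg0
        _ = _ := by ring)
    (by
      calc 2 * (t ^ 3 * 2 ^ q * 2 ^ n) ≤ 2 * (t ^ 3 * 2 ^ q * (2 ^ e * Xg.card)) := by gcongr
        _ = (2 * t ^ 3 * 2 ^ q * 2 ^ e) * Xg.card := by ring
        _ < 2 ^ m * Xg.card := Nat.mul_lt_mul_of_pos_right h1 hXg0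
        _ = _ := by ring)
  exact ⟨p, x, S, T, F2, F1, r1, r2, r3, r4, r5, r6, r7, r8⟩

end Pool.Agent.TS
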