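import Pool.Agent.TS.Defs

/-! Restrictions of decision forests. -/

namespace Pool.Agent.TS

open Finset

/-- substitution: coordinate `i` of the input is the variable number `src i` or the constant `b i` -/
def ext {I : Type} {n : ℕ} (src : I → Option (Fin n)) (b : I → Bool) (x : Fin n → Bool) : I → Bool :=
  fun i => (src i).elim (b i) x

/-- restriction of a forest; every variable is added to the variables of one tree -/
def Forest.pull {I : Type} [DecidableEq I] {n r : ℕ} (F : Forest I r) (src : I → Option (Fin n))
    (b : I → Bool) (cov : Fin n → Fin r) : Forest (Fin n) r where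
  dom i := {x | ext src b x ∈ F.dom i}
  V i x := eraseNone ((F.V i (ext src b x)).image src) ∪ univ.filter (fun j => cov j = i)
  loc := by
    intro i x z hx hz
    have h : ∀ a ∈ F.V i (ext src b x), ext src b z a = ext src b x a := by
      intro a ha
      unfold ext
      cases hs : src a with
      | none => rfl
      | some j =>
        simp only [Option.elim]
        apply hz
        apply mem_union_left
        rw [mem_eraseNone]
        exact mem_image.2 ⟨a, ha, hs⟩
    obtain ⟨h1, h2⟩ := F.loc i _ _ hx h
    exact ⟨h1, by simp only [h2]⟩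

lemma Forest.mem_pull_all {I : Type} [DecidableEq I] {n r : ℕ} (F : Forest I r)
    (src : I → Option (Fin n)) (b : I → Bool) (cov : Fin n → Fin r) (x : Fin n → Bool) :
    x ∈ (F.pull src b cov).all ↔ ext src b x ∈ F.all := Iff.rfl

/-- the balanced assignment of the variables to the trees -/
def bal (n r : ℕ) (j : Fin n) : Fin (r + 1) := ⟨j % (r + 1), Nat.mod_lt _ (Nat.succ_pos r)⟩

lemma card_bal (n r : ℕ) (i : Fin (r + 1)) :
    (univ.filter (fun j : Fin n => bal n r j = i)).card ≤ n / (r + 1) + 1 := by
  rw [← card_range (n / (r + 1) + 1)]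
  apply card_le_card_of_injOn (fun j : Fin n => (j : ℕ) / (r + 1))
  · intro j _
    have := Nat.div_le_div_right (c := r + 1) j.2.le
    simp only [coe_range, Set.mem_Iio]
    omega
  · intro j hj j' hj' h
    have h1 : (j : ℕ) % (r + 1) = i := congrArg Fin.val (mem_filter.1 hj).2
    have h2 : (j' : ℕ) % (r + 1) = i := congrArg Fin.val (mem_filter.1 hj').2
    simp only at h
    apply Fin.ext
    rw [← Nat.div_add_mod (j : ℕ) (r + 1), ← Nat.div_add_mod (j' : ℕ) (r + 1), h, h1, h2]

lemma Forest.pull_cov {I : Type} [DecidableEq I] {n r : ℕ} (F : Forest I (r + 1))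
    (src : I → Option (Fin n)) (b : I → Bool) (x : Fin n → Bool) (j : Fin n) :
    ∃ i, j ∈ (F.pull src b (bal n r)).V i x :=
  ⟨bal n r j, mem_union_right _ (mem_filter.2 ⟨mem_univ _, rfl⟩)⟩

lemma Forest.pull_card' {I : Type} [DecidableEq I] {n r : ℕ} (F : Forest I (r + 1))
    (src : I → Option (Fin n)) (b : I → Bool) (x : Fin n → Bool) (i : Fin (r + 1)) :
    ((F.pull src b (bal n r)).V i x).card ≤ (F.V i (ext src b x)).card +
      (univ.filter (fun j => bal n r j = i)).card := by
  refine (card_union_le _ _).trans (Nat.add_le_add_right ?_ _)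
  refine le_trans ?_ (card_image_le (s := F.V i (ext src b x)) (f := src))
  have := card_eraseNone_le (s := (F.V i (ext src b x)).image src)
  exact this

lemma Forest.pull_card {I : Type} [DecidableEq I] {n r L : ℕ} (F : Forest I (r + 1))
    (hF : ∀ x i, (F.V i x).card ≤ L)
    (src : I → Option (Fin n)) (b : I → Bool) (x : Fin n → Bool) (i : Fin (r + 1)) :
    ((F.pull src b (bal n r)).V i x).card ≤ L + (n / (r + 1) + 1) :=
  (F.pull_card' src b x i).trans (add_le_add (hF _ _) (card_bal n r i))

lemma Forest.pull_sum {I : Type} [DecidableEq I] {n r L : ℕ} (F : Forest I (r + 1))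
    (hF : ∀ x i, (F.V i x).card ≤ L)
    (src : I → Option (Fin n)) (b : I → Bool) (x : Fin n → Bool) :
    ∑ i, ((F.pull src b (bal n r)).V i x).card ≤ (r + 1) * L + n := by
  calc ∑ i, ((F.pull src b (bal n r)).V i x).card
      ≤ ∑ i, (L + (univ.filter (fun j => bal n r j = i)).card) :=
        sum_le_sum fun i _ => (F.pull_card' src b x i).trans (Nat.add_le_add_right (hF _ _) _)
    _ = (r + 1) * L + n := by
        rw [sum_add_distrib, sum_const, card_univ, Fintype.card_fin, smul_eq_mul]
        congr 1
        have := card_eq_sum_card_fiberwise (f := bal n r) (s := (univ : Finset (Fin n)))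
          (t := (univ : Finset (Fin (r + 1)))) (fun _ _ => by simp)
        rw [card_univ, Fintype.card_fin] at this
        exact this.symm

end Pool.Agent.TS
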