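import Pool.Agent.TS.HashDefs
import Pool.Agent.TS.Core

/-! Seeds of the polynomial hash for which the set of hash values that satisfy the condition
contains no large grid. -/

namespace Pool.Agent.TS

open Finset
open Pool.Agent.JT (HC count_k count_one)

variable {n K l t A : ℕ}

/-- sum modulo 2 -/
def vx (u v : Fin K → Bool) : Fin K → Bool := fun c => xor (u c) (v c)

lemma vx_comm (u v : Fin K → Bool) : vx u v = vx v u := by
  funext c; simp only [vx, Bool.xor_comm]

lemma vx_cancel (u v : Fin K → Bool) : vx u (vx u v) = v := by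
  funext c; simp [vx]

lemma vx_inj {u v w : Fin K → Bool} (h : vx u v = vx u w) : v = w := by
  rw [← vx_cancel u v, h, vx_cancel]

/-- no `t × t` grid with `t²` different elements in `Y` -/
def GridFree (t : ℕ) (Y : Set (Fin K → Bool)) : Prop :=
  ∀ u v : Fin t → Fin K → Bool,
    Function.Injective (fun p : Fin t × Fin t => vx (u p.1) (v p.2)) → ∃ i j, vx (u i) (v j) ∉ Y

open Classical in
/-- few seeds give a set with a grid -/
theorem bad_grid (t K l A : ℕ) (hm : K * (t * t) * (t * t) + l ≤ A) :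
    (univ.filter (fun a : Fin (t * t) → Fin A → Bool =>
      ¬ GridFree t {y : Fin K → Bool | HC l a y})).card * 2 ^ (l * (t * t)) ≤
      2 ^ (2 * t * K) * 2 ^ (t * t * A) := by
  set Bd := univ.filter (fun a : Fin (t * t) → Fin A → Bool =>
      ¬ GridFree t {y : Fin K → Bool | HC l a y}) with hBd
  let Tr := (Fin t → Fin K → Bool) × (Fin t → Fin K → Bool)
  have hTr : Fintype.card Tr = 2 ^ (2 * t * K) := by
    simp only [Tr, Fintype.card_prod, Fintype.card_fun, Fintype.card_bool, Fintype.card_fin]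
    rw [← pow_mul, ← pow_add]
    congr 1
    ring
  let Val : Finset Tr := univ.filter (fun ρ =>
    Function.Injective (fun p : Fin t × Fin t => vx (ρ.1 p.1) (ρ.2 p.2)))
  have hsub : Bd ⊆ Val.biUnion (fun ρ => univ.filter (fun a : Fin (t * t) → Fin A → Bool =>
      ∀ s : Fin (t * t), HC l a (vx (ρ.1 (finProdFinEquiv.symm s).1)
        (ρ.2 (finProdFinEquiv.symm s).2)))) := by
    intro a ha
    have ha' := (mem_filter.1 ha).2
    unfold GridFree at ha'
    push Not at ha'
    obtain ⟨u, v, hu, hF⟩ := ha'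
    refine mem_biUnion.2 ⟨(u, v), mem_filter.2 ⟨mem_univ _, hu⟩,
      mem_filter.2 ⟨mem_univ _, fun s => hF _ _⟩⟩
  calc Bd.card * 2 ^ (l * (t * t)) ≤ (∑ ρ ∈ Val, (univ.filter
        (fun a : Fin (t * t) → Fin A → Bool =>
          ∀ s : Fin (t * t), HC l a (vx (ρ.1 (finProdFinEquiv.symm s).1)
        (ρ.2 (finProdFinEquiv.symm s).2)))).card) * 2 ^ (l * (t * t)) :=
        Nat.mul_le_mul_right _ ((card_le_card hsub).trans card_biUnion_le)
    _ = ∑ ρ ∈ Val, 2 ^ (t * t * A) := by
        rw [sum_mul]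
        refine sum_congr rfl fun ρ hρ => ?_
        have hu := (mem_filter.1 hρ).2
        refine count_k hm (fun s : Fin (t * t) => vx (ρ.1 (finProdFinEquiv.symm s).1)
          (ρ.2 (finProdFinEquiv.symm s).2)) ?_
        intro s s' hss
        exact finProdFinEquiv.symm.injective (hu hss)
    _ = Val.card * 2 ^ (t * t * A) := by rw [sum_const, smul_eq_mul]
    _ ≤ 2 ^ (2 * t * K) * 2 ^ (t * t * A) := by
        apply Nat.mul_le_mul_right
        rw [← hTr]
        exact card_le_univ _

open Classical in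
/-- There is a seed for which the set is grid-free and large. -/
theorem exists_seed (t n K l A : ℕ) (ht : 0 < t) (g : (Fin n → Bool) → Fin K → Bool)
    (hm : K * (t * t) * (t * t) + l ≤ A) (hl : 2 * t * K + l + 1 < l * (t * t)) :
    ∃ a : Fin (t * t) → Fin A → Bool, GridFree t {y : Fin K → Bool | HC l a y} ∧
      2 ^ n ≤ 2 ^ (l + 1) * (univ.filter (fun x => HC l a (g x))).card := by
  by_contra hcon
  push Not at hcon
  set N := 2 ^ (t * t * A) with hN
  have hNpos : 0 < N := by positivity
  have hcardA : Fintype.card (Fin (t * t) → Fin A → Bool) = N := by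
    rw [Fintype.card_fun, Fintype.card_fun, Fintype.card_bool, Fintype.card_fin, Fintype.card_fin,
      ← pow_mul, hN, mul_comm A]
  -- double counting
  have h1 : 2 ^ n * N = 2 ^ l *
      ∑ a : Fin (t * t) → Fin A → Bool, (univ.filter (fun x => HC l a (g x))).card := by
    have e1 : ∑ a : Fin (t * t) → Fin A → Bool, (univ.filter (fun x => HC l a (g x))).card =
        ∑ x : Fin n → Bool, (univ.filter (fun a : Fin (t * t) → Fin A → Bool =>
          HC l a (g x))).card := by
      simp only [card_filter]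
      rw [sum_comm]
    rw [e1, mul_sum, sum_congr rfl (g := fun _ => N), sum_const, card_univ, Fintype.card_fun,
      Fintype.card_bool, Fintype.card_fin, smul_eq_mul]
    intro x _
    rw [mul_comm]
    exact count_one (by positivity) (by omega) (g x)
  -- seeds with a grid
  set Bd := univ.filter (fun a : Fin (t * t) → Fin A → Bool =>
    ¬ GridFree t {y : Fin K → Bool | HC l a y}) with hBd
  have h2 : 2 ^ (l + 1) * ∑ a : Fin (t * t) → Fin A → Bool,
      (univ.filter (fun x => HC l a (g x))).card ≤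
      2 ^ (l + 1) * 2 ^ n * Bd.card + 2 ^ n * N := by
    rw [mul_sum, ← sum_filter_add_sum_filter_not univ
      (fun a : Fin (t * t) → Fin A → Bool => ¬ GridFree t {y : Fin K → Bool | HC l a y})]
    apply add_le_add
    · rw [← hBd, mul_comm (2 ^ (l + 1) * 2 ^ n) Bd.card, ← smul_eq_mul Bd.card, ← sum_const]
      refine sum_le_sum fun a _ => ?_
      apply Nat.mul_le_mul_left
      refine (card_le_univ _).trans ?_
      rw [Fintype.card_fun, Fintype.card_bool, Fintype.card_fin]
    · calc _ ≤ ∑ _a ∈ univ.filter (fun a : Fin (t * t) → Fin A → Bool =>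
            ¬¬ GridFree t {y : Fin K → Bool | HC l a y}), 2 ^ n :=
            sum_le_sum fun a ha => (hcon a (not_not.1 (mem_filter.1 ha).2)).le
        _ ≤ ∑ _a : Fin (t * t) → Fin A → Bool, 2 ^ n :=
            sum_le_sum_of_subset (filter_subset _ _)
        _ = 2 ^ n * N := by
            rw [sum_const, smul_eq_mul, card_univ, hcardA, mul_comm]
  have h3 : Bd.card * 2 ^ (l * (t * t)) ≤ 2 ^ (2 * t * K) * N := bad_grid t K l A hm
  -- combine
  generalize (∑ a : Fin (t * t) → Fin A → Bool,
      (univ.filter (fun x => HC l a (g x))).card) = Sg at h1 h2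
  have h4 : 2 * (2 ^ n * N) = 2 ^ (l + 1) * Sg := by
    rw [h1]; ring
  have h5 : 2 ^ n * N ≤ 2 ^ (l + 1) * 2 ^ n * Bd.card := by omega
  have h6 : 2 ^ (n + l * (t * t)) * N ≤ 2 ^ (l + 1 + n + 2 * t * K) * N := by
    calc 2 ^ (n + l * (t * t)) * N = (2 ^ n * N) * 2 ^ (l * (t * t)) := by rw [pow_add]; ring
      _ ≤ (2 ^ (l + 1) * 2 ^ n * Bd.card) * 2 ^ (l * (t * t)) := Nat.mul_le_mul_right _ h5
      _ = 2 ^ (l + 1) * 2 ^ n * (Bd.card * 2 ^ (l * (t * t))) := by ring
      _ ≤ 2 ^ (l + 1) * 2 ^ n * (2 ^ (2 * t * K) * N) := Nat.mul_le_mul_left _ h3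
      _ = 2 ^ (l + 1 + n + 2 * t * K) * N := by
          rw [pow_add 2 (l + 1 + n), pow_add 2 (l + 1) n]; ring
  have h7 := Nat.le_of_mul_le_mul_right h6 hNpos
  have h8 := (Nat.pow_le_pow_iff_right (by norm_num)).1 h7
  omega

open Classical in
/-- a large set contains `t` elements whose sums with the elements of `U` are different -/
lemma greedy (t : ℕ) (U V : Finset (Fin K → Bool)) (hU : U.card = t) (hV : t ^ 3 < V.card) :
    ∃ W ⊆ V, W.card = t ∧ ∀ u ∈ U, ∀ u' ∈ U, ∀ w ∈ W, ∀ w' ∈ W, vx u w = vx u' w' →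
      u = u' ∧ w = w' := by
  set P : Finset (Fin K → Bool) → Prop := fun W => ∀ u ∈ U, ∀ u' ∈ U, ∀ w ∈ W, ∀ w' ∈ W,
    vx u w = vx u' w' → u = u' ∧ w = w' with hP
  obtain ⟨W, hW, hmax⟩ := exists_max_image (V.powerset.filter P) card
    ⟨∅, mem_filter.2 ⟨mem_powerset.2 (empty_subset _), by simp [hP]⟩⟩
  obtain ⟨hWV, hWP⟩ := mem_filter.1 hW
  rw [mem_powerset] at hWV
  by_cases hc : t ≤ W.card
  · obtain ⟨W', hW', hc'⟩ := exists_subset_card_eq hc
    exact ⟨W', hW'.trans hWV, hc', fun u hu u' hu' w hw w' hw' h =>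
      hWP u hu u' hu' w (hW' hw) w' (hW' hw') h⟩
  · exfalso
    push Not at hc
    -- every element of V is forbidden
    have hcov : V ⊆ W ∪ (U ×ˢ U ×ˢ W).image (fun p => vx p.1 (vx p.2.1 p.2.2)) := by
      intro v hv
      by_contra hcon
      rw [mem_union, not_or] at hcon
      obtain ⟨hvW, hvI⟩ := hcon
      have hf : ∀ u ∈ U, ∀ u' ∈ U, ∀ w ∈ W, vx u v = vx u' w → False := by
        intro u hu u' hu' w hw h
        apply hvI
        refine mem_image.2 ⟨(u, u', w), ?_, ?_⟩
        · rw [mem_product, mem_product]; exact ⟨hu, hu', hw⟩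
        · simp only
          rw [← h, vx_cancel]
      have hPi : P (insert v W) := by
        intro u hu u' hu' w hw w' hw' h
        rw [mem_insert] at hw hw'
        rcases hw with rfl | hw <;> rcases hw' with rfl | hw'
        · refine ⟨?_, rfl⟩
          rw [vx_comm u, vx_comm u'] at h
          exact vx_inj h
        · exact (hf u hu u' hu' w' hw' h).elim
        · exact (hf u' hu' u hu w hw h.symm).elim
        · exact hWP u hu u' hu' w hw w' hw' h
      have := hmax (insert v W) (mem_filter.2 ⟨mem_powerset.2 (insert_subset hv hWV), hPi⟩)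
      rw [card_insert_of_notMem hvW] at this
      omega
    have h1 := (card_le_card hcov).trans (card_union_le _ _)
    have h2 : ((U ×ˢ U ×ˢ W).image (fun p => vx p.1 (vx p.2.1 p.2.2))).card ≤
        t * (t * W.card) := by
      refine card_image_le.trans ?_
      rw [card_product, card_product, hU]
    rcases Nat.eq_zero_or_pos t with h0 | h0
    · omega
    · have h3 : W.card + t * (t * W.card) ≤ t ^ 3 := by
        have h4 : W.card ≤ t - 1 := by omega
        obtain ⟨s, rfl⟩ : ∃ s, t = s + 1 := ⟨t - 1, by omega⟩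
        have h5 : W.card ≤ s := by omega
        calc W.card + (s + 1) * ((s + 1) * W.card) ≤ s + (s + 1) * ((s + 1) * s) := by gcongr
          _ ≤ (s + 1) ^ 3 := by nlinarith [sq_nonneg s]
      omega

open Classical in
/-- a grid-free set contains no mixes of two large sets -/
theorem no_mix {w : ℕ} (h : ℕ → Bool) (hinj : ∀ x y : Fin n → Bool, x ≠ y →
      (univ.filter (fun i => x i ≠ y i)).card ≤ w → hk (K := K) h x ≠ hk (K := K) h y)
    (Y : Set (Fin K → Bool)) (hY : GridFree t Y) (x : Fin n → Bool) (S T : Finset (Fin n))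
    (F2 F1 : Finset (Fin n → Bool)) (hd : Disjoint S T) (hS : S.card ≤ w) (hT : T.card ≤ w)
    (h2 : t ≤ F2.card) (h1 : t ^ 3 < F1.card) (g2 : ∀ y ∈ F2, Off S x y)
    (g1 : ∀ y ∈ F1, Off T x y)
    (hmix : ∀ y ∈ F2, ∀ y' ∈ F1, hk (K := K) h (fun j => if j ∈ S then y j else y' j) ∈ Y) :
    False := by
  have key : ∀ (D : Finset (Fin n)), D.card ≤ w → ∀ y y' : Fin n → Bool, Off D x y → Off D x y' →
      hk (K := K) h y = hk (K := K) h y' → y = y' := by
    intro D hD y y' hy hy' he
    by_contra hne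
    refine hinj y y' hne ((card_le_card ?_).trans hD) he
    intro i hi
    by_contra hiD
    exact (mem_filter.1 hi).2 ((hy i hiD).trans (hy' i hiD).symm)
  obtain ⟨F2', hF2', hc2⟩ := exists_subset_card_eq h2
  set U := F2'.image (fun y => vx (hk (K := K) h x) (hk (K := K) h y)) with hU
  have hUc : U.card = t := by
    rw [hU, card_image_of_injOn, hc2]
    intro y hy y' hy' he
    exact key S hS y y' (g2 y (hF2' hy)) (g2 y' (hF2' hy')) (vx_inj he)
  set V := F1.image (fun y => hk (K := K) h y) with hV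
  have hVc : V.card = F1.card := by
    rw [hV, card_image_of_injOn]
    intro y hy y' hy' he
    exact key T hT y y' (g1 y hy) (g1 y' hy') he
  obtain ⟨W, hWV, hWc, hW⟩ := greedy t U V hUc (by rw [hVc]; exact h1)
  -- enumerate
  let eu := U.equivFinOfCardEq hUc
  let ew := W.equivFinOfCardEq hWc
  obtain ⟨i, j, hij⟩ := hY (fun i => (eu.symm i : Fin K → Bool)) (fun j => (ew.symm j : Fin K → Bool))
    (by
      rintro ⟨i, j⟩ ⟨i', j'⟩ he
      obtain ⟨e1, e2⟩ := hW _ (eu.symm i).2 _ (eu.symm i').2 _ (ew.symm j).2 _ (ew.symm j').2 he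
      exact Prod.ext (eu.symm.injective (Subtype.ext e1)) (ew.symm.injective (Subtype.ext e2)))
  apply hij
  obtain ⟨y, hy, hyu⟩ := mem_image.1 (eu.symm i).2
  obtain ⟨y', hy', hyv⟩ := mem_image.1 (hWV (ew.symm j).2)
  rw [← hyu, ← hyv]
  have hm := hmix y (hF2' hy) y' hy'
  have e : hk (K := K) h (fun j => if j ∈ S then y j else y' j) =
      vx (vx (hk (K := K) h x) (hk (K := K) h y)) (hk (K := K) h y') := by
    funext c
    have hb : ∀ m m' : ℕ, (m % 2 = m' % 2) → decide (m % 2 = 1) = decide (m' % 2 = 1) := by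
      intro m m' h; rw [h]
    have hx3 : ∀ a b c : ℕ, xor (xor (decide (a % 2 = 1)) (decide (b % 2 = 1)))
        (decide (c % 2 = 1)) = decide ((a + b + c) % 2 = 1) := by
      intro a b c
      rcases Nat.mod_two_eq_zero_or_one a with h1 | h1 <;>
      rcases Nat.mod_two_eq_zero_or_one b with h2 | h2 <;>
      rcases Nat.mod_two_eq_zero_or_one c with h3 | h3 <;>
      simp [h1, h2, h3, Nat.add_mod]
    simp only [vx, hk]
    rw [hx3, ← sum_add_distrib, ← sum_add_distrib]
    apply hb
    rw [← ZMod.natCast_eq_natCast_iff', Nat.cast_sum, Nat.cast_sum]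
    refine sum_congr rfl fun j _ => ?_
    push_cast
    by_cases hj : j ∈ S
    · have hjT : j ∉ T := disjoint_left.1 hd hj
      rw [if_pos hj, g1 y' hy' j hjT]
      have : (2 : ZMod 2) = 0 := rfl
      linear_combination (-((x j).toNat : ZMod 2) * ((h (c + j)).toNat : ZMod 2)) * this
    · rw [if_neg hj, g2 y (hF2' hy) j hj]
      have : (2 : ZMod 2) = 0 := rfl
      linear_combination (-((x j).toNat : ZMod 2) * ((h (c + j)).toNat : ZMod 2)) * this
  rw [← e]
  exact hm

end Pool.Agent.TS
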