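import Pool.Agent.TS.LangDefs
import Pool.Agent.Lib.PolyTime.Iter

/-! The explicit language is decidable in polynomial time. -/

namespace Pool.Agent.TS

open Pool.Agent.PolyTime

section pf

variable {α : Type} [Ctx α]

lemma pf_bt {A : List Bool → α → ℕ} (hA : PF A) : PF (fun w a => bt w (A w a)) := PF.inp hA

lemma pf_nn : PF (fun w (_ : α) => nn w) := PF.div PF.len (PF.const 8)

lemma pf_run {A : List Bool → α → ℕ} (hA : PF A) : PF (fun w a => run w (A w a)) := by
  have h1 : PD (fun w (p : α × ℕ) => ∀ i' < p.2 + 1, bt w (A w p.1 + i') = 1) :=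
    PD.forall_lt (PF.snd.add (PF.const 1))
      (P := fun w (p : (α × ℕ) × ℕ) => bt w (A w p.1.1 + p.2) = 1)
      (PD.eq (pf_bt (hA.fst.fst.add PF.snd)) (PF.const 1))
  exact PF.sum PF.len (PF.ite h1 (PF.const 1) (PF.const 0))

lemma pf_pj : PF (fun w (_ : α) => pj w) := pf_run (PF.const 0)

lemma pf_pD : PF (fun w (_ : α) => pD w) := pf_run (pf_pj.add (PF.const 1))

lemma pf_pm : PF (fun w (_ : α) => pm w) := pf_nn.div ((PF.const 2).mul pf_pD)

lemma pf_pl : PF (fun w (_ : α) => pl w) := pf_pm.div (PF.const 32)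

lemma pf_pN : PF (fun w (_ : α) => pN w) := ((pf_pj.add (PF.const 8)).pow 2).mul pf_pm

lemma pf_pt : PF (fun w (_ : α) => pt w) :=
  ((PF.const 128).mul ((pf_pj.add (PF.const 8)).pow 2)).pow 2

lemma pf_pA : PF (fun w (_ : α) => pA w) := (pf_pN.mul (pf_pt.pow 2)).add pf_pl

lemma pf_yb {A : List Bool → α → ℕ} (hA : PF A) : PF (fun w a => yb w (A w a)) := by
  have h1 : PF (fun w (p : α × ℕ) => bt w (nn w + p.2) * bt w (2 * nn w + (A w p.1 + p.2))) :=
    (pf_bt (pf_nn.add PF.snd)).mul
      (pf_bt (((PF.const 2).mul pf_nn).add (hA.fst.add PF.snd)))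
  exact PF.ite (PD.lt hA pf_pN) ((PF.sum pf_nn h1).mod (PF.const 2)) (PF.const 0)

lemma pf_ab {S A : List Bool → α → ℕ} (hS : PF S) (hA : PF A) :
    PF (fun w a => ab w (S w a) (A w a)) :=
  PF.ite (PD.lt hA pf_pA) (pf_bt (((PF.const 4).mul pf_nn).add ((hS.mul pf_pA).add hA)))
    (PF.const 0)

end pf

/-! ### Bits -/

lemma bt_le (w : List Bool) (i : ℕ) : bt w i ≤ 1 := Bool.toNat_le _

lemma bt_map (L : ℕ) (B : ℕ → ℕ) (hB : ∀ p < L, B p ≤ 1) (p : ℕ) :
    bt ((List.range L).map (fun p => decide (B p ≠ 0))) p = if p < L then B p else 0 := by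
  unfold bt
  by_cases hp : p < L
  · rw [if_pos hp, List.getD_eq_getElem _ _ (by simpa using hp)]
    simp only [List.getElem_map, List.getElem_range]
    have := hB p hp
    interval_cases h : B p <;> simp
  · rw [if_neg hp, List.getD_eq_default _ _ (by simpa using hp)]
    rfl

lemma map_bt (w : List Bool) : (List.range w.length).map (fun i => decide (bt w i ≠ 0)) = w := by
  apply List.ext_getElem
  · simp
  · intro n h1 h2
    simp only [List.getElem_map, List.getElem_range]
    unfold bt
    rw [List.getD_eq_getElem _ _ h2]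
    cases w[n] <;> simp

lemma bt_of_le {w : List Bool} {p : ℕ} (h : w.length ≤ p) : bt w p = 0 := by
  unfold bt
  rw [List.getD_eq_default _ _ h]
  rfl

lemma run_eq {w : List Bool} {s m : ℕ} (h1 : ∀ i < m, bt w (s + i) = 1)
    (h2 : bt w (s + m) ≠ 1) (hm : m ≤ w.length) : run w s = m := by
  unfold run
  have : ∀ i, (∀ i' < i + 1, bt w (s + i') = 1) ↔ i < m := by
    intro i
    constructor
    · intro h
      by_contra hcon
      exact h2 (h m (by omega))
    · intro h i' hi'
      exact h1 i' (by omega)
  simp only [this]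
  rw [Finset.sum_boole]
  have : (Finset.range w.length).filter (fun i => i < m) = Finset.range m := by
    ext i
    simp only [Finset.mem_filter, Finset.mem_range]
    omega
  rw [this]
  simp

/-! ### The machine state: `1^N 0 w H 1^i 0^(t-i)` -/

/-- length of the encoded word -/
def lenw (s : List Bool) : ℕ := run s 0

/-- the encoded word -/
def dec (s : List Bool) : List Bool :=
  (List.range (lenw s)).map (fun i => decide (bt s (lenw s + 1 + i) ≠ 0))

/-- beginning of the work area -/
def off (s : List Bool) : ℕ := 2 * lenw s + 1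

/-- step counter -/
def kk (s : List Bool) : ℕ := run s (off s + pA (dec s))

/-- new coefficient -/
def newH (s : List Bool) (c : ℕ) : ℕ :=
  ((∑ i' ∈ Finset.range (c + 1), bt s (off s + i') * yb (dec s) (c - i')) +
    ab (dec s) (pt (dec s) - 1 - kk s) c) % 2

/-- new bits -/
def stepB (s : List Bool) (p : ℕ) : ℕ :=
  if p < off s then bt s p
  else if p < off s + pA (dec s) then newH s (p - off s)
  else if p = off s + pA (dec s) + kk s then 1 else bt s p

/-- one step of Horner's scheme -/
def stepf (s : List Bool) : List Bool :=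
  (List.range s.length).map (fun p => decide (stepB s p ≠ 0))

lemma pf_lenw {α : Type} [Ctx α] : PF (fun s (_ : α) => lenw s) := pf_run (PF.const 0)

lemma pfb_dec : PFBits dec :=
  ⟨lenw, fun s i => bt s (lenw s + 1 + i), pf_lenw,
    pf_bt ((pf_lenw.add (PF.const 1)).add PF.snd), fun _ => rfl⟩

lemma pf_off {α : Type} [Ctx α] : PF (fun s (_ : α) => off s) :=
  ((PF.const 2).mul pf_lenw).add (PF.const 1)

lemma pf_pAd {α : Type} [Ctx α] : PF (fun s (_ : α) => pA (dec s)) := pf_pA.comp pfb_dec

lemma pf_ptd {α : Type} [Ctx α] : PF (fun s (_ : α) => pt (dec s)) := pf_pt.comp pfb_dec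

lemma pf_pld {α : Type} [Ctx α] : PF (fun s (_ : α) => pl (dec s)) := pf_pl.comp pfb_dec

lemma pf_kk {α : Type} [Ctx α] : PF (fun s (_ : α) => kk s) := pf_run (pf_off.add pf_pAd)

lemma pf_ybd {α : Type} [Ctx α] {A : List Bool → α → ℕ} (hA : PF A) :
    PF (fun s a => yb (dec s) (A s a)) :=
  PF.subst (F := fun s (p : α × ℕ) => yb (dec s) p.2) hA
    (PF.comp (F := fun w (p : α × ℕ) => yb w p.2) pfb_dec (pf_yb PF.snd))

lemma pf_abd {α : Type} [Ctx α] {S A : List Bool → α → ℕ} (hS : PF S) (hA : PF A) :
    PF (fun s a => ab (dec s) (S s a) (A s a)) :=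
  PF.subst (F := fun s (p : α × ℕ) => ab (dec s) (S s p.1) p.2) hA
    (PF.subst (F := fun s (p : (α × ℕ) × ℕ) => ab (dec s) p.2 p.1.2) hS.fst
      (PF.comp (F := fun w (p : (α × ℕ) × ℕ) => ab w p.2 p.1.2) pfb_dec
        (pf_ab PF.snd PF.snd.fst)))

lemma pf_newH {α : Type} [Ctx α] {A : List Bool → α → ℕ} (hA : PF A) :
    PF (fun s a => newH s (A s a)) := by
  have h1 : PF (fun s (p : α × ℕ) => bt s (off s + p.2) * yb (dec s) (A s p.1 - p.2)) :=
    (pf_bt (pf_off.add PF.snd)).mul (pf_ybd (hA.fst.sub PF.snd))
  exact ((PF.sum (hA.add (PF.const 1)) h1).add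
    (pf_abd ((pf_ptd.sub (PF.const 1)).sub pf_kk) hA)).mod (PF.const 2)

lemma pf_stepB {α : Type} [Ctx α] {A : List Bool → α → ℕ} (hA : PF A) :
    PF (fun s a => stepB s (A s a)) :=
  PF.ite (PD.lt hA pf_off) (pf_bt hA)
    (PF.ite (PD.lt hA (pf_off.add pf_pAd)) (pf_newH (hA.sub pf_off))
      (PF.ite (PD.eq hA ((pf_off.add pf_pAd).add pf_kk)) (PF.const 1) (pf_bt hA)))

lemma pfb_stepf : PFBits stepf :=
  ⟨fun s => s.length, stepB, PF.len, pf_stepB PF.snd, fun _ => rfl⟩

/-! ### Correctness -/

/-- bits of the state after `i` steps -/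
def stB (w : List Bool) (i p : ℕ) : ℕ :=
  if p < w.length then 1 else if p = w.length then 0
  else if p < 2 * w.length + 1 then bt w (p - w.length - 1)
  else if p < 2 * w.length + 1 + pA w then hz w i (p - (2 * w.length + 1))
  else if p < 2 * w.length + 1 + pA w + i then 1 else 0

/-- length of the state -/
def stL (w : List Bool) : ℕ := 2 * w.length + 1 + pA w + pt w

/-- the state after `i` steps -/
def st (w : List Bool) (i : ℕ) : List Bool :=
  (List.range (stL w)).map (fun p => decide (stB w i p ≠ 0))

lemma hz_le (w : List Bool) (i c : ℕ) : hz w i c ≤ 1 := by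
  cases i with
  | zero => exact Nat.zero_le _
  | succ i =>
    rw [hz]
    have : ∀ n : ℕ, n % 2 ≤ 1 := fun n => by omega
    exact this _

lemma stB_le (w : List Bool) (i p : ℕ) : stB w i p ≤ 1 := by
  unfold stB
  have h1 := bt_le w (p - w.length - 1)
  have h2 := hz_le w i (p - (2 * w.length + 1))
  split_ifs <;> omega

lemma bt_st (w : List Bool) (i p : ℕ) : bt (st w i) p = if p < stL w then stB w i p else 0 :=
  bt_map _ _ (fun p _ => stB_le w i p) p

lemma length_st (w : List Bool) (i : ℕ) : (st w i).length = stL w := by simp [st]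

lemma lenw_st (w : List Bool) (i : ℕ) : lenw (st w i) = w.length := by
  unfold lenw
  apply run_eq
  · intro j hj
    rw [bt_st, if_pos (by unfold stL; omega)]
    unfold stB
    rw [if_pos (by omega)]
  · rw [bt_st, if_pos (by unfold stL; omega)]
    unfold stB
    rw [if_neg (by omega), if_pos (by omega)]
    omega
  · rw [length_st]
    unfold stL
    omega

lemma dec_st (w : List Bool) (i : ℕ) : dec (st w i) = w := by
  unfold dec
  rw [lenw_st]
  conv_rhs => rw [← map_bt w]
  apply List.map_congr_left
  intro p hp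
  rw [List.mem_range] at hp
  have key : bt (st w i) (w.length + 1 + p) = bt w p := by
    rw [bt_st, if_pos (by unfold stL; omega)]
    unfold stB
    rw [if_neg (by omega), if_neg (by omega), if_pos (by omega)]
    congr 1
    omega
  rw [key]

lemma off_st (w : List Bool) (i : ℕ) : off (st w i) = 2 * w.length + 1 := by
  unfold off
  rw [lenw_st]

lemma kk_st (w : List Bool) {i : ℕ} (hi : i ≤ pt w) : kk (st w i) = i := by
  unfold kk
  rw [off_st, dec_st]
  apply run_eq
  · intro j hj
    rw [bt_st, if_pos (by unfold stL; omega)]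
    unfold stB
    rw [if_neg (by omega), if_neg (by omega), if_neg (by omega), if_neg (by omega),
      if_pos (by omega)]
  · rw [bt_st]
    split_ifs
    · unfold stB
      rw [if_neg (by omega), if_neg (by omega), if_neg (by omega), if_neg (by omega),
        if_neg (by omega)]
      omega
    · omega
  · rw [length_st]
    unfold stL
    omega

lemma bt_H (w : List Bool) (i : ℕ) {c : ℕ} (hc : c < pA w) :
    bt (st w i) (2 * w.length + 1 + c) = hz w i c := by
  rw [bt_st, if_pos (by unfold stL; omega)]
  unfold stB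
  rw [if_neg (by omega), if_neg (by omega), if_neg (by omega), if_pos (by omega)]
  congr 1
  omega

lemma stepf_st (w : List Bool) {i : ℕ} (hi : i < pt w) : stepf (st w i) = st w (i + 1) := by
  unfold stepf
  rw [length_st]
  conv_rhs => unfold st
  apply List.map_congr_left
  intro p hp
  rw [List.mem_range] at hp
  have key : stepB (st w i) p = stB w (i + 1) p := by
    unfold stepB
    rw [off_st, dec_st, kk_st w hi.le]
    by_cases h1 : p < 2 * w.length + 1
    · rw [if_pos h1, bt_st, if_pos hp]
      unfold stB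
      by_cases h2 : p < w.length
      · rw [if_pos h2, if_pos h2]
      · rw [if_neg h2, if_neg h2]
        by_cases h3 : p = w.length
        · rw [if_pos h3, if_pos h3]
        · rw [if_neg h3, if_neg h3, if_pos h1, if_pos h1]
    · rw [if_neg h1]
      by_cases h2 : p < 2 * w.length + 1 + pA w
      · rw [if_pos h2]
        unfold newH stB
        rw [if_neg (by omega), if_neg (by omega), if_neg h1, if_pos h2, hz, off_st, dec_st,
          kk_st w hi.le]
        have hsum : (∑ i' ∈ Finset.range (p - (2 * w.length + 1) + 1),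
            bt (st w i) (2 * w.length + 1 + i') * yb w (p - (2 * w.length + 1) - i')) =
            ∑ i' ∈ Finset.range (p - (2 * w.length + 1) + 1),
            hz w i i' * yb w (p - (2 * w.length + 1) - i') := by
          apply Finset.sum_congr rfl
          intro i' hi'
          rw [Finset.mem_range] at hi'
          rw [bt_H w i (by omega)]
        rw [hsum]
      · rw [if_neg h2]
        by_cases h3 : p = 2 * w.length + 1 + pA w + i
        · rw [if_pos h3]
          unfold stB
          rw [if_neg (by omega), if_neg (by omega), if_neg h1, if_neg h2, if_pos (by omega)]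
        · rw [if_neg h3, bt_st, if_pos hp]
          unfold stB
          rw [if_neg (by omega), if_neg (by omega), if_neg h1, if_neg h2]
          by_cases h4 : p < 2 * w.length + 1 + pA w + i
          · rw [if_pos h4, if_neg (by omega), if_neg (by omega), if_neg h1, if_neg h2,
              if_pos (by omega)]
          · rw [if_neg h4, if_neg (by omega), if_neg (by omega), if_neg h1, if_neg h2,
              if_neg (by omega)]
  rw [key]

lemma iterate_st (w : List Bool) {i : ℕ} (hi : i ≤ pt w) : stepf^[i] (st w 0) = st w i := by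
  induction i with
  | zero => rfl
  | succ i ih => rw [Function.iterate_succ_apply', ih (by omega), stepf_st w (by omega)]

/-- bits of the initial state -/
def iniB (w : List Bool) (p : ℕ) : ℕ :=
  if p < w.length then 1 else if p = w.length then 0
  else if p < 2 * w.length + 1 then bt w (p - w.length - 1) else 0

lemma iniB_eq (w : List Bool) (p : ℕ) : iniB w p = stB w 0 p := by
  unfold iniB stB
  have : hz w 0 (p - (2 * w.length + 1)) = 0 := rfl
  rw [this]
  split_ifs <;> first | rfl | omega

lemma pfb_ini : PFBits (fun w => st w 0) := by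
  refine ⟨stL, iniB, ?_, ?_, fun w => ?_⟩
  · exact ((((PF.const 2).mul PF.len).add (PF.const 1)).add pf_pA).add pf_pt
  · exact PF.ite (PD.lt PF.snd PF.len) (PF.const 1) (PF.ite (PD.eq PF.snd PF.len) (PF.const 0)
      (PF.ite (PD.lt PF.snd (((PF.const 2).mul PF.len).add (PF.const 1)))
        (pf_bt ((PF.snd.sub PF.len).sub (PF.const 1))) (PF.const 0)))
  · unfold st
    apply List.map_congr_left
    intro p _
    rw [iniB_eq]

/-- the final test -/
def fin (s : List Bool) : List Bool :=
  [decide (∀ c < pl (dec s), bt s (off s + (pA (dec s) - 1 - c)) = 0)]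

lemma pfb_fin : PFBits fin := by
  classical
  refine ⟨fun _ => 1, fun s _ => if ∀ c < pl (dec s), bt s (off s + (pA (dec s) - 1 - c)) = 0
    then 1 else 0, PF.const 1, ?_, fun s => ?_⟩
  · have h1 : PD (fun s (_ : Unit × ℕ) =>
        ∀ c < pl (dec s), bt s (off s + (pA (dec s) - 1 - c)) = 0) :=
      PD.forall_lt (P := fun s (p : (Unit × ℕ) × ℕ) => bt s (off s + (pA (dec s) - 1 - p.2)) = 0)
        pf_pld (PD.eq (pf_bt (pf_off.add ((pf_pAd.sub (PF.const 1)).sub PF.snd))) (PF.const 0))
    exact PF.ite h1 (PF.const 1) (PF.const 0)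
  · by_cases h : ∀ c < pl (dec s), bt s (off s + (pA (dec s) - 1 - c)) = 0
    · simp [fin]
    · simp [fin, h]

theorem lang_pc : PC (fun w => [decide (lang w)]) := by
  have h1 : PC (fun s => stepf^[pt (dec s)] s) :=
    pfb_stepf.iterate (fun s => by simp [stepf]) (c := fun s => pt (dec s)) pf_ptd
  refine ((pfb_fin.pc.comp h1).comp pfb_ini.pc).congr fun w => ?_
  rw [dec_st, iterate_st w le_rfl]
  have hpl : pl w ≤ pA w := by unfold pA; exact Nat.le_add_left _ _
  have key : (∀ c < pl (dec (st w (pt w))),
      bt (st w (pt w)) (off (st w (pt w)) + (pA (dec (st w (pt w))) - 1 - c)) = 0) ↔ lang w := by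
    unfold lang
    apply forall_congr'
    intro c
    rw [dec_st, off_st]
    apply forall_congr'
    intro hc
    rw [bt_H w (pt w) (by omega)]
  unfold fin
  rw [decide_eq_decide.mpr key]

theorem lang_polyTime : Nonempty (Turing.TM2ComputableInPolyTime
    (id : List Bool → List Bool) (id : List Bool → List Bool) (fun w => [decide (lang w)])) :=
  lang_pc.polyTime

end Pool.Agent.TS
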