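import Pool.Agent.TS.HashDefs
import Pool.Agent.TS.PTime
import Pool.Agent.JT.Slice

/-! Slices of the language: fixing all bits outside the piece that contains `x`. -/

namespace Pool.Agent.TS

open PowerSeries
open Pool.Agent.JT (zb ser coeff_ser pval HC cast_toNat ofFn_getD)

section series

variable {w : List Bool} {n K l t A : ℕ} {h : ℕ → Bool} {x : Fin n → Bool}
  {a : Fin t → Fin A → Bool}

lemma cast_yb (hn : nn w = n) (hK : pN w = K) (hx : ∀ i : Fin n, w.getD (n + i) false = x i)
    (hh : ∀ i, i < K → ∀ i' : Fin n, w.getD (2 * n + (i + i')) false = h (i + i')) (c : ℕ) :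
    ((yb w c : ℕ) : ZMod 2) = coeff c (ser (fun i => zb (hk (K := K) h x i))) := by
  rw [coeff_ser]
  unfold yb
  rw [hK, hn]
  by_cases hc : c < K
  · rw [if_pos hc, dif_pos hc]
    have h1 : ∑ i ∈ Finset.range n, bt w (n + i) * bt w (2 * n + (c + i)) =
        ∑ i : Fin n, (x i).toNat * (h (c + i)).toNat := by
      rw [Finset.sum_range]
      refine Finset.sum_congr rfl fun i _ => ?_
      unfold bt
      rw [hx i, hh c hc i]
    rw [h1]
    unfold hk
    simp only
    generalize (∑ i : Fin n, (x i).toNat * (h (c + i)).toNat) = S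
    rcases Nat.mod_two_eq_zero_or_one S with h2 | h2
    · rw [h2]; simp [zb]
    · rw [h2]; simp [zb]
  · rw [if_neg hc, dif_neg hc, Nat.cast_zero]

lemma cast_ab (hn : nn w = n) (hA : pA w = A)
    (ha : ∀ (s : Fin t) (c : Fin A), w.getD (4 * n + (s * A + c)) false = a s c)
    (s : Fin t) (c : ℕ) :
    ((ab w s c : ℕ) : ZMod 2) = coeff c (ser (fun i => zb (a s i))) := by
  rw [coeff_ser]
  unfold ab
  rw [hn, hA]
  by_cases hc : c < A
  · rw [if_pos hc, dif_pos hc]
    unfold bt
    rw [cast_toNat, ← ha s ⟨c, hc⟩]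
  · rw [if_neg hc, dif_neg hc, Nat.cast_zero]

/-- Horner's scheme -/
noncomputable def hor (Y : PowerSeries (ZMod 2)) (Z : ℕ → PowerSeries (ZMod 2)) (t : ℕ) :
    ℕ → PowerSeries (ZMod 2)
  | 0 => 0
  | i + 1 => hor Y Z t i * Y + Z (t - 1 - i)

lemma hor_eq (Y : PowerSeries (ZMod 2)) (Z : ℕ → PowerSeries (ZMod 2)) (t : ℕ) :
    ∀ i ≤ t, hor Y Z t i = ∑ s ∈ Finset.range i, Z (t - i + s) * Y ^ s := by
  intro i
  induction i with
  | zero => intro _; simp [hor]
  | succ i ih =>
    intro hi
    rw [hor, ih (by omega), Finset.sum_range_succ', Finset.sum_mul, pow_zero, mul_one]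
    congr 1
    · refine Finset.sum_congr rfl fun s _ => ?_
      rw [pow_succ, mul_assoc]
      congr 2
      omega
    · congr 1
      omega

lemma cast_hz (hn : nn w = n) (hK : pN w = K) (hA : pA w = A) (ht : pt w = t)
    (hx : ∀ i : Fin n, w.getD (n + i) false = x i)
    (hh : ∀ i, i < K → ∀ i' : Fin n, w.getD (2 * n + (i + i')) false = h (i + i'))
    (ha : ∀ (s : Fin t) (c : Fin A), w.getD (4 * n + (s * A + c)) false = a s c)
    (Z : ℕ → PowerSeries (ZMod 2)) (hZ : ∀ s : Fin t, Z s = ser (fun i => zb (a s i))) :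
    ∀ i ≤ t, ∀ c, ((hz w i c : ℕ) : ZMod 2) =
      coeff c (hor (ser (fun i => zb (hk (K := K) h x i))) Z t i) := by
  intro i
  induction i with
  | zero => intro _ c; simp [hz, hor]
  | succ i ih =>
    intro hi c
    rw [hz, hor, map_add, coeff_mul, Finset.Nat.sum_antidiagonal_eq_sum_range_succ_mk,
      ZMod.natCast_mod, Nat.cast_add, Nat.cast_sum]
    congr 1
    · refine Finset.sum_congr rfl fun i' _ => ?_
      rw [Nat.cast_mul, ih (by omega), cast_yb hn hK hx hh]
    · rw [ht]
      have h1 := cast_ab (t := t) (a := a) hn hA ha ⟨t - 1 - i, by omega⟩ c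
      have h2 := hZ ⟨t - 1 - i, by omega⟩
      simp only at h1 h2
      rw [h1, h2]

theorem lang_iff (hn : nn w = n) (hK : pN w = K) (hA : pA w = A) (ht : pt w = t) (hl : pl w = l)
    (hx : ∀ i : Fin n, w.getD (n + i) false = x i)
    (hh : ∀ i, i < K → ∀ i' : Fin n, w.getD (2 * n + (i + i')) false = h (i + i'))
    (ha : ∀ (s : Fin t) (c : Fin A), w.getD (4 * n + (s * A + c)) false = a s c) :
    lang w ↔ HC l a (hk (K := K) h x) := by
  let Z : ℕ → PowerSeries (ZMod 2) := fun s =>
    if hs : s < t then ser (fun i => zb (a ⟨s, hs⟩ i)) else 0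
  have hZ : ∀ s : Fin t, Z s = ser (fun i => zb (a s i)) := fun s => dif_pos s.2
  have h1 : hor (ser (fun i => zb (hk (K := K) h x i))) Z t t =
      pval (fun j i => zb (a j i)) (fun i => zb (hk (K := K) h x i)) := by
    rw [hor_eq _ _ _ _ le_rfl, pval, Finset.sum_range]
    refine Finset.sum_congr rfl fun s _ => ?_
    rw [Nat.sub_self, zero_add, hZ]
  unfold lang HC
  rw [hl, hA, ht]
  refine forall_congr' fun c => forall_congr' fun _ => ?_
  rw [← h1, ← cast_hz hn hK hA ht hx hh ha Z hZ t le_rfl, ZMod.natCast_eq_zero_iff]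
  have h2 := hz_le w t (A - 1 - c)
  constructor
  · intro h; rw [h]; exact dvd_zero 2
  · intro h
    obtain ⟨q, hq⟩ := h
    omega

end series

theorem slice {N n j D m l K t A : ℕ} (hn : N / 8 = n) (hD : 0 < D) (hfit0 : j + D + 2 ≤ n)
    (hm : m = n / (2 * D)) (hl : l = m / 32) (hK : K = (j + 8) ^ 2 * m)
    (ht : t = (128 * (j + 8) ^ 2) ^ 2) (hA : A = K * t ^ 2 + l) (hKn : K ≤ n)
    (hfit : t * A ≤ 4 * n) (h : ℕ → Bool) (a : Fin t → Fin A → Bool) :
    ∃ base : Fin N → Bool, ∀ x : Fin n → Bool,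
      (lang (List.ofFn fun i : Fin N =>
          if hi : n ≤ (i : ℕ) ∧ (i : ℕ) < 2 * n then x ⟨i - n, by omega⟩ else base i) ↔
        Pool.Agent.JT.HC l a (hk (K := K) h x)) := by
  have hN : 8 * n ≤ N := by omega
  let b : ℕ → Bool := fun i =>
    if i < n then decide (i < j ∨ (j < i ∧ i < j + 1 + D))
    else if i < 4 * n then h (i - 2 * n)
    else if hi : (i - 4 * n) / A < t ∧ (i - 4 * n) % A < A then
      a ⟨(i - 4 * n) / A, hi.1⟩ ⟨(i - 4 * n) % A, hi.2⟩ else false
  refine ⟨fun i => b i, fun x => ?_⟩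
  set y : Fin N → Bool := fun i : Fin N =>
    if hi : n ≤ (i : ℕ) ∧ (i : ℕ) < 2 * n then x ⟨i - n, by omega⟩ else b i with hy
  have hlen : (List.ofFn y).length = N := List.length_ofFn
  have hnn : nn (List.ofFn y) = n := by unfold nn; rw [hlen, hn]
  have hg : ∀ i, i < N → (i < n ∨ 2 * n ≤ i) → (List.ofFn y).getD i false = b i := by
    intro i hi hi'
    rw [ofFn_getD y i hi, hy]
    simp only
    rw [dif_neg (by omega)]
  have hbt0 : ∀ i < n, bt (List.ofFn y) i = if i < j ∨ (j < i ∧ i < j + 1 + D) then 1 else 0 := by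
    intro i hi
    unfold bt
    rw [hg i (by omega) (Or.inl hi)]
    simp only [b, if_pos hi]
    by_cases hc : i < j ∨ (j < i ∧ i < j + 1 + D)
    · simp [hc]
    · simp [hc]
  have hpj : pj (List.ofFn y) = j := by
    unfold pj
    apply run_eq
    · intro i hi
      rw [zero_add, hbt0 i (by omega), if_pos (by omega)]
    · rw [zero_add, hbt0 j (by omega), if_neg (by omega)]
      omega
    · rw [hlen]; omega
  have hpD : pD (List.ofFn y) = D := by
    unfold pD
    rw [hpj]
    apply run_eq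
    · intro i hi
      rw [hbt0 _ (by omega), if_pos (by omega)]
    · rw [hbt0 _ (by omega), if_neg (by omega)]
      omega
    · rw [hlen]; omega
  have hpm : pm (List.ofFn y) = m := by unfold pm; rw [hnn, hpD, hm]
  have hpl : pl (List.ofFn y) = l := by unfold pl; rw [hpm, hl]
  have hpN : pN (List.ofFn y) = K := by unfold pN; rw [hpj, hpm, hK]
  have hpt : pt (List.ofFn y) = t := by unfold pt; rw [hpj, ht]
  have hpA : pA (List.ofFn y) = A := by unfold pA; rw [hpN, hpt, hpl, hA]
  refine lang_iff hnn hpN hpA hpt hpl ?_ ?_ ?_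
  · intro i
    have hi := i.2
    rw [ofFn_getD y (n + i) (by omega), hy]
    simp only
    rw [dif_pos (by omega)]
    congr 1
    apply Fin.ext
    simp
  · intro i hi i'
    have hi' := i'.2
    rw [hg _ (by omega) (Or.inr (by omega))]
    simp only [b]
    rw [if_neg (by omega), if_pos (by omega)]
    congr 1
    omega
  · intro s c
    have hs := s.2
    have hc := c.2
    have hlt : (s : ℕ) * A + c < t * A := by
      calc (s : ℕ) * A + c < (s : ℕ) * A + A := by omega
        _ = (s + 1) * A := by ring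
        _ ≤ t * A := Nat.mul_le_mul_right _ hs
    have hApos : 0 < A := by omega
    have e1 : 4 * n + ((s : ℕ) * A + c) - 4 * n = c + A * s := by
      have : 4 * n + ((s : ℕ) * A + c) - 4 * n = (s : ℕ) * A + c := by omega
      rw [this]; ring
    have e2 : (4 * n + ((s : ℕ) * A + c) - 4 * n) / A = s := by
      rw [e1, Nat.add_mul_div_left _ _ hApos, Nat.div_eq_of_lt hc]; omega
    have e3 : (4 * n + ((s : ℕ) * A + c) - 4 * n) % A = c := by
      rw [e1, Nat.add_mul_mod_self_left, Nat.mod_eq_of_lt hc]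
    rw [hg _ (by omega) (Or.inr (by omega))]
    simp only [b]
    rw [if_neg (by omega), if_neg (by omega), dif_pos (by rw [e2, e3]; exact ⟨hs, hc⟩)]
    exact congrArg₂ a (Fin.ext e2) (Fin.ext e3)

end Pool.Agent.TS
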