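import Pool.Agent.TS.Cut
import Pool.Agent.TS.Pull
import Pool.Agent.TS.Param
import Pool.Agent.TS.Seeds
import Pool.Agent.TS.Hankel
import Pool.Agent.TS.Slice
import Pool.Agent.TS.Numeric

/-! The lower bound for stack machines. -/

namespace Pool.Agent.TS

open Finset
open Pool.Agent.JT (HC)

open Classical in
/-- There is a restriction of the language to `n` variables that is large and contains no mixes of
two large sets. -/
theorem exists_slice {k N n m j : ℕ} (hj : j = jj k) (hk2 : 2 ≤ k) (hN : 2 ^ (12 * j) ≤ N)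
    (hn : N / 8 = n) (hm : m = n / (2 * 2 ^ j)) :
    ∃ base : Fin N → Bool,
      (2 : ℕ) ^ n ≤ 2 ^ (m / 32 + 1) * (univ.filter (fun x : Fin n → Bool =>
        lang (List.ofFn fun i : Fin N =>
          if hi : n ≤ (i : ℕ) ∧ (i : ℕ) < 2 * n then x ⟨i - n, by omega⟩ else base i))).card ∧
      ∀ (x : Fin n → Bool) (S T : Finset (Fin n)) (F2 F1 : Finset (Fin n → Bool)),
        Disjoint S T → S.card ≤ (j + 8) * m → T.card ≤ (j + 8) * m →
        128 * (j + 8) ^ 2 ≤ F2.card → (128 * (j + 8) ^ 2) ^ 3 < F1.card →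
        (∀ y ∈ F2, Off S x y) → (∀ y ∈ F1, Off T x y) →
        ¬ ∀ y ∈ F2, ∀ y' ∈ F1, lang (List.ofFn fun i : Fin N =>
          if hi : n ≤ (i : ℕ) ∧ (i : ℕ) < 2 * n then
            (if (⟨i - n, by omega⟩ : Fin n) ∈ S then y ⟨i - n, by omega⟩ else y' ⟨i - n, by omega⟩)
          else base i) := by
  have hj1 : 2816 ≤ j := by rw [hj]; exact jj_ge hk2
  have hn1 := n_ge hj1 hN hn
  have hm1 := m_ge hj1 hn1 hm
  have hmb : 2 * 2 ^ j * m ≤ n := by rw [hm]; exact Nat.mul_div_le _ _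
  have h9 : 9 * j < 2 ^ (9 * j) := Nat.lt_two_pow_self
  have hm200 : 200 ≤ m := by omega
  set K := (j + 8) ^ 2 * m with hK
  set t := 128 * (j + 8) ^ 2 with ht
  set l := m / 32 with hl
  set w := (j + 8) * m with hw
  have ht0 : 0 < t := by rw [ht]; positivity
  have hKn : K ≤ n := K_le (by omega) hmb
  have hnm : n ≤ 2 ^ (j + 2) * m := n_le hm (by omega)
  -- the Hankel matrix
  obtain ⟨h, hh⟩ : ∃ h : ℕ → Bool, ∀ x y : Fin n → Bool, x ≠ y →
      (univ.filter (fun i => x i ≠ y i)).card ≤ w → hk (K := K) h x ≠ hk (K := K) h y := by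
    apply exists_hankel hKn
    have hw1 : 1 ≤ w := by rw [hw]; exact Nat.mul_pos (by omega) (by omega)
    refine lt_of_lt_of_le (choose_sum_lt (b := j + 2) hw1 (by omega) ?_) ?_
    · refine hnm.trans (Nat.mul_le_mul_left _ ?_)
      rw [hw]; exact Nat.le_mul_of_pos_left _ (by omega)
    · apply Nat.pow_le_pow_right (by norm_num)
      rw [hK, hw]
      calc (j + 8) * m * (j + 2 + 2) ≤ (j + 8) * m * (j + 8) := Nat.mul_le_mul_left _ (by omega)
        _ = _ := by ring
  -- the coefficients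
  obtain ⟨a, ha1, ha2⟩ := exists_seed t n K l (K * (t * t) ^ 2 + l) ht0 (hk (n := n) (K := K) h)
    (le_of_eq (by ring)) (seed_ineq hm200 hl hK ht)
  obtain ⟨base, hbase⟩ := slice (N := N) (n := n) (j := j) (D := 2 ^ j) (m := m) (l := l) (K := K)
    (t := t * t) (A := K * (t * t) ^ 2 + l) hn (by positivity)
    (by
      have h1 : 2 ^ (j + 1) ≤ 2 ^ (11 * j) := Nat.pow_le_pow_right (by norm_num) (by omega)
      have h2 : j + 2 < 2 ^ j := by
        have := t_le (j := j) (by omega)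
        have h3 : j + 2 < 128 * (j + 8) ^ 2 := by nlinarith
        omega
      have h4 : 2 ^ (j + 1) = 2 * 2 ^ j := by rw [pow_succ]; ring
      omega)
    hm hl hK (by rw [ht]; ring) rfl hKn (fit (by omega) hmb hl hK ht rfl) h a
  refine ⟨base, ?_, ?_⟩
  · have e : (univ.filter (fun x : Fin n → Bool =>
        lang (List.ofFn fun i : Fin N =>
          if hi : n ≤ (i : ℕ) ∧ (i : ℕ) < 2 * n then x ⟨i - n, by omega⟩ else base i))) =
        (univ.filter (fun x => HC l a (hk (n := n) (K := K) h x))) := by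
      ext x
      simp only [mem_filter, mem_univ, true_and]
      exact hbase x
    rw [e]
    exact ha2
  · intro x S T F2 F1 hd hS hT h2 h1 g2 g1 hcon
    refine no_mix (w := w) h hh _ ha1 x S T F2 F1 hd hS hT h2 h1 g2 g1 ?_
    intro y hy y' hy'
    exact (hbase (fun j => if j ∈ S then y j else y' j)).1 (hcon y hy y' hy')

/-- The lower bound: a set `H` of hard words of length `N`, such that small stack machines that
accept only words of the language accept few words of `H` in time `k N`. -/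
theorem main {k N : ℕ} (hk : 2 ≤ k) (hN : 2 ^ (12 * jj k) ≤ N) :
    ∃ H : Finset (Fin N → Bool), H.Nonempty ∧ (∀ y ∈ H, lang (List.ofFn y)) ∧
    ∀ {G s : ℕ}, s * 2 ^ (12 * jj k) ≤ N →
    ∀ {Q R : Type} [Fintype Q] [Fintype R] (M : Machine (Fin N ⊕ Fin G) Q R),
    (∀ y z t, M.AcceptsIn (Sum.elim y z) t → lang (List.ofFn y)) →
    H.card * 2 ^ G ≤ 2 ^ s * Nat.card {p : (Fin N → Bool) × (Fin G → Bool) //
      p.1 ∈ H ∧ ∃ t ≤ k * N, M.AcceptsIn (Sum.elim p.1 p.2) t} →
    2 ^ s ≤ Fintype.card Q * Fintype.card R := by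
  classical
  set j := jj k with hj
  set n := N / 8 with hn
  set m := n / (2 * 2 ^ j) with hm
  set κ := kap k with hκ
  set ρ := rho k with hρ
  have hj1 : 2816 ≤ j := by rw [hj]; exact jj_ge hk
  have hn1 : 2 ^ (11 * j) ≤ n := n_ge hj1 hN rfl
  have hm1 : 2 ^ (9 * j) ≤ m := m_ge hj1 hn1 rfl
  have hmb : 2 * 2 ^ j * m ≤ n := Nat.mul_div_le _ _
  have h9 : 9 * j < 2 ^ (9 * j) := Nat.lt_two_pow_self
  have hm200 : 200 ≤ m := by omega
  have hnm : n ≤ 2 ^ (j + 2) * m := n_le rfl (by omega)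
  have hn0 : 200 ≤ n := by
    have : m ≤ n := by
      rw [hm]; exact Nat.div_le_self _ _
    omega
  have hN9 : N ≤ 9 * n := by omega
  have hnN : n ≤ N := Nat.div_le_self _ _
  have hNm : N ≤ 2 ^ (j + 6) * m := by
    calc N ≤ 9 * n := hN9
      _ ≤ 16 * (2 ^ (j + 2) * m) := by omega
      _ = 2 ^ (j + 6) * m := by rw [pow_add, pow_add]; ring
  have hκ0 : 0 < κ := by rw [hκ]; unfold kap; omega
  have hκk : κ = 32 * k := rfl
  have hκj : κ ≤ j := by
    rw [hj, hκ]; unfold jj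
    exact Nat.le_mul_of_pos_right _ (by omega)
  have hκ2 : κ ≤ 2 ^ j := hκj.trans Nat.lt_two_pow_self.le
  have hρpow : (4 * ρ) ^ κ = 2 ^ j := rho_pow k
  have hρge : 1024 * κ * (j + 8) ≤ ρ := rho_ge hk
  have hρ0 : 0 < ρ := by
    have : 0 < 1024 * κ * (j + 8) := by positivity
    omega
  set el := n / (1024 * κ * 2 ^ j) with hel
  have hel1 : 1 ≤ el := el_pos hj1 hn1 hκ2 rfl hκ0
  have hel2 : 1024 * κ * 2 ^ j * el ≤ n := el_le rfl
  have hel3 : n ≤ 2048 * κ * 2 ^ j * el := n_le_el rfl hκ0 hel1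
  have heln : 1024 * el ≤ n := by
    refine le_trans ?_ hel2
    have : 1 ≤ κ * 2 ^ j := Nat.mul_pos hκ0 (by positivity)
    calc 1024 * el = 1024 * (1 * el) := by ring
      _ ≤ 1024 * ((κ * 2 ^ j) * el) := by gcongr
      _ = _ := by ring
  set r := k * N / el + 1 with hr
  have hr1 : r + 1 ≤ 2 ^ (3 * j) := r_le hj1 hN9 rfl hel3 hκk hκj
  have hrn : r + 1 ≤ n := by
    refine hr1.trans (le_trans ?_ hn1)
    exact Nat.pow_le_pow_right (by norm_num) (by omega)
  have hT : k * N ≤ r * el := T_le rfl hel1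
  -- the language
  obtain ⟨base, hbase1, hbase2⟩ := exists_slice (m := m) hj hk hN rfl rfl
  set W : (Fin n → Bool) → (Fin N → Bool) := fun x i =>
    if hi : n ≤ (i : ℕ) ∧ (i : ℕ) < 2 * n then x ⟨i - n, by omega⟩ else base i with hW
  set X0 : Finset (Fin n → Bool) := univ.filter (fun x => lang (List.ofFn (W x))) with hX0
  have hX0c : 2 ^ n ≤ 2 ^ (m / 32 + 1) * X0.card := hbase1
  have hWi : Function.Injective W := by
    intro x x' h
    funext i
    have h1 := congrFun h ⟨n + i, by have := i.2; omega⟩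
    simp only [hW] at h1
    rw [dif_pos ⟨by omega, by have := i.2; omega⟩, dif_pos ⟨by omega, by have := i.2; omega⟩] at h1
    have e : (⟨n + i - n, by have := i.2; omega⟩ : Fin n) = i := Fin.ext (by simp)
    rw [e] at h1
    exact h1
  refine ⟨X0.image W, ?_, ?_, ?_⟩
  · rw [image_nonempty, ← card_pos]
    by_contra h0
    have h0' : X0.card = 0 := by omega
    rw [h0', mul_zero] at hX0c
    have : 0 < 2 ^ n := by positivity
    omega
  · intro y hy
    obtain ⟨x, hx, rfl⟩ := mem_image.1 hy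
    exact (mem_filter.1 hx).2
  intro G s hs Q R _ _ M hsound hcomp
  by_contra hcon
  push Not at hcon
  rw [card_image_of_injective _ hWi] at hcomp
  have hcomp' : X0.card * 2 ^ G ≤ 2 ^ s * ∑ x ∈ X0, (univ.filter (fun z : Fin G → Bool =>
      ∃ t ≤ k * N, M.AcceptsIn (Sum.elim (W x) z) t)).card := by
    refine hcomp.trans (Nat.mul_le_mul_left _ ?_)
    rw [Nat.card_eq_fintype_card, Fintype.card_subtype, ← card_sigma]
    apply card_le_card_of_injOn (fun p => if h : ∃ x ∈ X0, W x = p.1 then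
      (⟨h.choose, p.2⟩ : (_ : Fin n → Bool) × (Fin G → Bool)) else ⟨fun _ => false, p.2⟩)
    · intro p hp
      obtain ⟨h1, h2⟩ := (mem_filter.1 hp).2
      have h3 : ∃ x ∈ X0, W x = p.1 := by
        obtain ⟨x, hx, hxp⟩ := mem_image.1 h1
        exact ⟨x, hx, hxp⟩
      simp only [dif_pos h3, coe_sigma, Set.mem_sigma_iff, mem_coe]
      refine ⟨h3.choose_spec.1, mem_filter.2 ⟨mem_univ _, ?_⟩⟩
      simp only [h3.choose_spec.2]
      exact h2
    · intro p hp p' hp' he
      obtain ⟨h1, h2⟩ := (mem_filter.1 hp).2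
      obtain ⟨h1', h2'⟩ := (mem_filter.1 hp').2
      have h3 : ∃ x ∈ X0, W x = p.1 := by
        obtain ⟨x, hx, hxp⟩ := mem_image.1 h1
        exact ⟨x, hx, hxp⟩
      have h3' : ∃ x ∈ X0, W x = p'.1 := by
        obtain ⟨x, hx, hxp⟩ := mem_image.1 h1'
        exact ⟨x, hx, hxp⟩
      simp only [dif_pos h3, dif_pos h3', Sigma.mk.injEq, heq_eq_eq] at he
      refine Prod.ext ?_ he.2
      rw [← h3.choose_spec.2, ← h3'.choose_spec.2, he.1]
  -- the random bits
  obtain ⟨z, hz⟩ : ∃ z : Fin G → Bool, X0.card ≤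
      2 ^ s * (X0.filter (fun x => ∃ t ≤ k * N, M.AcceptsIn (Sum.elim (W x) z) t)).card := by
    by_contra hc
    push Not at hc
    have e1 : ∑ z : Fin G → Bool, 2 ^ s *
        (X0.filter (fun x => ∃ t ≤ k * N, M.AcceptsIn (Sum.elim (W x) z) t)).card <
        ∑ _z : Fin G → Bool, X0.card := sum_lt_sum_of_nonempty univ_nonempty fun z _ => hc z
    rw [sum_const, card_univ, Fintype.card_fun, Fintype.card_bool, Fintype.card_fin, smul_eq_mul] at e1
    have e2 : ∑ z : Fin G → Bool, 2 ^ s *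
        (X0.filter (fun x => ∃ t ≤ k * N, M.AcceptsIn (Sum.elim (W x) z) t)).card =
        ∑ x ∈ X0, 2 ^ s * (univ.filter (fun z : Fin G → Bool =>
          ∃ t ≤ k * N, M.AcceptsIn (Sum.elim (W x) z) t)).card := by
      rw [← mul_sum, ← mul_sum]
      congr 1
      simp only [card_filter]
      rw [sum_comm]
    rw [mul_sum, mul_comm X0.card, ← e2] at hcomp'
    omega
  set X := X0.filter (fun x => ∃ t ≤ k * N, M.AcceptsIn (Sum.elim (W x) z) t) with hX
  have hXc : 2 ^ n ≤ 2 ^ (m / 32 + 1 + s) * X.card := by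
    calc 2 ^ n ≤ 2 ^ (m / 32 + 1) * X0.card := hX0c
      _ ≤ 2 ^ (m / 32 + 1) * (2 ^ s * X.card) := Nat.mul_le_mul_left _ hz
      _ = _ := by rw [pow_add _ (m / 32 + 1) s]; ring
  have hXne : X.Nonempty := by
    rw [← card_pos]
    by_contra h0
    have h0' : X.card = 0 := by omega
    rw [h0', mul_zero] at hXc
    have : 0 < 2 ^ n := by positivity
    omega
  -- the forests
  obtain ⟨P, hP, F, hF1, hF2, hF3, hF4⟩ := cut M (k * N) el r hel1 hT
  let src : Fin N ⊕ Fin G → Option (Fin n) := fun a => match a with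
    | Sum.inl i => if hi : n ≤ (i : ℕ) ∧ (i : ℕ) < 2 * n then some ⟨i - n, by omega⟩ else none
    | Sum.inr _ => none
  have hext : ∀ x, ext src (Sum.elim base z) x = Sum.elim (W x) z := by
    intro x
    funext a
    cases a with
    | inl i =>
      simp only [ext, src, hW, Sum.elim_inl]
      by_cases hi : n ≤ (i : ℕ) ∧ (i : ℕ) < 2 * n
      · rw [dif_pos hi, dif_pos hi]; rfl
      · rw [dif_neg hi, dif_neg hi]; rfl
    | inr i => simp only [ext, src, Sum.elim_inr]; rfl
  let F' : P → Forest (Fin n) (r + 1) := fun p => (F p).pull src (Sum.elim base z) (bal n r)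
  set π := (2 * s + 3 * (Nat.log 2 N + 1)) * (r + 1) with hπ
  have hPc : Fintype.card P ≤ 2 ^ π := by
    refine hF1.trans (card_ineq hcon (by omega) (by omega))
  have hπm : 8 * π ≤ m := pi_ineq hj1 hN hs hNm hr1
  have hsm : 8 * s ≤ m := by
    refine le_trans ?_ hπm
    rw [hπ]
    nlinarith
  have ht : 128 * (j + 8) ^ 2 ≤ 2 ^ j := t_le (by omega)
  obtain ⟨p, x, S, T, F2, F1, g1, g2, g3, g4, g5, g6, g7, g8⟩ := param (κ := κ) (ρ := ρ)
    (L := 2 * el + 1 + (n / (r + 1) + 1)) (m := m) (w := (j + 8) * m) (t := 128 * (j + 8) ^ 2)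
    (e := m / 32 + 1 + s + 1 + π) (q := (m + 3) / 4) F'
    (fun p x j => (F p).pull_cov _ _ x j)
    (fun p x i => (F p).pull_card (hF2 p) _ _ x i)
    (fun p x => ((F p).pull_sum (hF2 p) _ _ x).trans (kap_ineq rfl hk hN9 (by omega) hrn))
    (by omega) hρ0
    (by rw [hρpow]; exact h128_ineq rfl hel1 (by omega) hnN rfl hel2)
    (by rw [hρpow]; exact hmb)
    (by
      have h1 : 4 * (j + 8) ≤ ρ ^ κ := by
        calc 4 * (j + 8) ≤ 1024 * κ * (j + 8) := Nat.mul_le_mul_right _ (by omega)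
          _ ≤ ρ := hρge
          _ = ρ ^ 1 := (pow_one _).symm
          _ ≤ ρ ^ κ := Nat.pow_le_pow_right hρ0 hκ0
      calc 8 * 4 ^ κ * ((j + 8) * m) = 2 * (4 ^ κ * (4 * (j + 8))) * m := by ring
        _ ≤ 2 * (4 ^ κ * ρ ^ κ) * m := by gcongr
        _ = 2 * 2 ^ j * m := by rw [← mul_pow, hρpow]
        _ ≤ n := hmb)
    (by
      have : 64 * κ ≤ 1024 * κ * (j + 8) := by nlinarith
      omega)
    (loss hρge) X hXne
    (by
      intro x hx
      obtain ⟨t, ht, hacc⟩ := (mem_filter.1 hx).2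
      obtain ⟨p, hp⟩ := hF4 _ t ht hacc
      refine ⟨p, ?_⟩
      change ext src (Sum.elim base z) x ∈ (F p).all
      rw [hext]
      exact hp)
    (by
      calc 2 ^ n * (2 * Fintype.card P) ≤ (2 ^ (m / 32 + 1 + s) * X.card) * (2 * 2 ^ π) := by
            gcongr
        _ = 2 ^ (m / 32 + 1 + s + 1 + π) * X.card := by
            rw [pow_add _ (m / 32 + 1 + s + 1) π, pow_add _ (m / 32 + 1 + s) 1]; ring)
    (by
      refine final_two hj1 hm1 rfl hπm hsm ht ?_
      have h1 := choose_sum_lt (n := n) (w := m) (b := j + 2) (by omega) (by omega) hnm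
      refine lt_of_le_of_lt ?_ h1
      exact single_le_sum (f := fun i => n.choose i) (fun _ _ => Nat.zero_le _)
        (mem_range.2 (Nat.lt_succ_self m)))
    (final_one hj1 hm1 rfl hπm hsm ht)
  refine hbase2 x S T F2 F1 g1 g2.le ?_ g4.le g5 g6 g7 ?_
  · rw [g3]; exact Nat.le_mul_of_pos_left _ (by omega)
  · intro y hy y' hy'
    have h1 := g8 y hy y' hy'
    change ext src (Sum.elim base z) _ ∈ (F p).all at h1
    rw [hext] at h1
    obtain ⟨t, ht⟩ := hF3 p _ h1
    exact hsound _ _ _ ht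

end Pool.Agent.TS
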